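import Pool.Agent.H85.TA.Basic

/-!
# [H85 TA ACT] activity of products, inverses and sections, 60-100 lines

`X` is finite, so all the sets of words of a given length are finite (`finite_words`).
* `act_mul`: if `sec (g * h) w = sec g (h • w) * sec h w ≠ 1` then `sec h w ≠ 1` or `sec g (h • w) ≠ 1`;
  `w ↦ h • w` is injective and preserves the length (`Set.ncard_union_le`, `Set.ncard_image_of_injective`).
* `act_inv`: `w ↦ g • w` is a bijection between the two sets (`sec_inv`).
* `act_sec`: `v ↦ w ++ v` is injective, `sec g (w ++ v) = sec (sec g w) v`.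
* `inP_*`: sums over `Finset.range M`. `inP_sec`: for `M ≥ 1`
  `∑ n < M, act (sec g w) n ≤ ∑ n < M, act g (|w| + n) ≤ ∑ n < M + |w|, act g n ≤ C (M + |w|)^d ≤
  C (1 + |w|)^d M^d`; for `M = 0` the sum is empty.
* `inP_of_poly`: `act g n ≤ C (n+1)^d ≤ C M^d` for `n < M`, so the sum is at most `C M^(d+1)`.
* `inP_mono`: `M^d ≤ M^d'` for `M ≥ 1`; `M = 0`: empty sum.
* `finiteState_mul`, `finiteState_inv`: the sections of `g * h` are products of sections
  (`Set.Finite.image2` or `Set.Finite.mul`), the sections of `g⁻¹` are inverses of sections (`sec_inv'`).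
* `inP_closure`: induction (`Subgroup.closure_induction`).
-/

set_option autoImplicit false

namespace H85.TA

variable {X : Type*} [Finite X]

/-- the active words -/
def Wd (g : TreeAut X) (n : ℕ) : Set (List X) := {w : List X | w.length = n ∧ sec g w ≠ 1}

theorem Wd_finite (g : TreeAut X) (n : ℕ) : (Wd g n).Finite :=
  (finite_words n).subset fun _ hw => hw.1

omit [Finite X] in
theorem act_eq (g : TreeAut X) (n : ℕ) : act g n = (Wd g n).ncard := rfl

theorem act_mul (g h : TreeAut X) (n : ℕ) : act (g * h) n ≤ act g n + act h n := by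
  rw [act_eq, act_eq, act_eq]
  have h1 : Wd (g * h) n ⊆ ((fun w => h⁻¹ • w) '' Wd g n) ∪ Wd h n := by
    rintro w ⟨hw, hw'⟩
    by_cases hh : sec h w = 1
    · left
      refine ⟨h • w, ⟨by rw [length_app, hw], ?_⟩, inv_smul_smul h w⟩
      intro hg
      exact hw' (by rw [sec_mul, hg, hh, one_mul])
    · right
      exact ⟨hw, hh⟩
  refine (Set.ncard_le_ncard h1 (((Wd_finite g n).image _).union (Wd_finite h n))).trans ?_
  refine (Set.ncard_union_le _ _).trans (Nat.add_le_add_right ?_ _)
  exact Set.ncard_image_le (Wd_finite g n)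

theorem act_inv (g : TreeAut X) (n : ℕ) : act g⁻¹ n = act g n := by
  have h1 : ∀ k : TreeAut X, act k⁻¹ n ≤ act k n := by
    intro k
    rw [act_eq, act_eq]
    have h2 : Wd k⁻¹ n ⊆ (fun w => k • w) '' Wd k n := by
      rintro w ⟨hw, hw'⟩
      refine ⟨k⁻¹ • w, ⟨by rw [length_app, hw], ?_⟩, smul_inv_smul k w⟩
      intro hk
      exact hw' (by rw [sec_inv', hk, inv_one])
    exact (Set.ncard_le_ncard h2 ((Wd_finite k n).image _)).trans
      (Set.ncard_image_le (Wd_finite k n))
  refine le_antisymm (h1 g) ?_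
  have h2 := h1 g⁻¹
  rwa [inv_inv] at h2

omit [Finite X] in
theorem act_one (n : ℕ) : act (1 : TreeAut X) n = 0 := by
  have h1 : {w : List X | w.length = n ∧ sec (1 : TreeAut X) w ≠ 1} = ∅ := by
    ext w
    constructor
    · rintro ⟨-, h⟩
      exact h (sec_one w)
    · intro h
      exact absurd h (Set.notMem_empty w)
  rw [act, h1, Set.ncard_empty]

theorem act_sec (g : TreeAut X) (w : List X) (n : ℕ) : act (sec g w) n ≤ act g (w.length + n) := by
  rw [act_eq, act_eq, ← Set.ncard_image_of_injective (Wd (sec g w) n) (List.append_right_injective w)]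
  refine Set.ncard_le_ncard ?_ (Wd_finite g _)
  rintro _ ⟨v, ⟨hv, hv'⟩, rfl⟩
  exact ⟨by rw [List.length_append, hv], by rwa [sec_append]⟩

theorem inP_mul {d : ℕ} {g h : TreeAut X} (hg : InP d g) (hh : InP d h) : InP d (g * h) := by
  obtain ⟨C, hC⟩ := hg
  obtain ⟨C', hC'⟩ := hh
  refine ⟨C + C', fun M => ?_⟩
  calc ∑ n ∈ Finset.range M, act (g * h) n ≤ ∑ n ∈ Finset.range M, (act g n + act h n) :=
        Finset.sum_le_sum fun n _ => act_mul g h n
    _ = ∑ n ∈ Finset.range M, act g n + ∑ n ∈ Finset.range M, act h n := Finset.sum_add_distrib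
    _ ≤ C * M ^ d + C' * M ^ d := Nat.add_le_add (hC M) (hC' M)
    _ = (C + C') * M ^ d := by ring

theorem inP_inv {d : ℕ} {g : TreeAut X} (hg : InP d g) : InP d g⁻¹ := by
  obtain ⟨C, hC⟩ := hg
  refine ⟨C, fun M => ?_⟩
  rw [Finset.sum_congr rfl fun n _ => act_inv g n]
  exact hC M

omit [Finite X] in
theorem inP_one (d : ℕ) : InP d (1 : TreeAut X) := by
  refine ⟨0, fun M => ?_⟩
  rw [Finset.sum_congr rfl fun n _ => act_one n, Finset.sum_const_zero]
  exact Nat.zero_le _

omit [Finite X] in
theorem inP_mono {d d' : ℕ} (hd : d ≤ d') {g : TreeAut X} (hg : InP d g) : InP d' g := by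
  obtain ⟨C, hC⟩ := hg
  refine ⟨C, fun M => ?_⟩
  rcases Nat.eq_zero_or_pos M with rfl | hM
  · rw [Finset.range_zero, Finset.sum_empty]
    exact Nat.zero_le _
  · exact (hC M).trans (Nat.mul_le_mul_left C (Nat.pow_le_pow_right hM hd))

theorem inP_sec {d : ℕ} {g : TreeAut X} (hg : InP d g) (w : List X) : InP d (sec g w) := by
  obtain ⟨C, hC⟩ := hg
  refine ⟨C * (1 + w.length) ^ d, fun M => ?_⟩
  rcases Nat.eq_zero_or_pos M with rfl | hM
  · rw [Finset.range_zero, Finset.sum_empty]
    exact Nat.zero_le _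
  calc ∑ n ∈ Finset.range M, act (sec g w) n ≤ ∑ n ∈ Finset.range M, act g (w.length + n) :=
        Finset.sum_le_sum fun n _ => act_sec g w n
    _ ≤ ∑ n ∈ Finset.range (w.length + M), act g n := by
        rw [Finset.sum_range_add]
        exact Nat.le_add_left _ _
    _ ≤ C * (w.length + M) ^ d := hC _
    _ ≤ C * ((1 + w.length) * M) ^ d := by
        refine Nat.mul_le_mul_left C (Nat.pow_le_pow_left ?_ d)
        nlinarith
    _ = C * (1 + w.length) ^ d * M ^ d := by rw [mul_pow, mul_assoc]

omit [Finite X] in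
theorem inP_of_poly {g : TreeAut X} (hg : PolyActivity g) : ∃ d, InP d g := by
  obtain ⟨C, d, hC⟩ := hg
  refine ⟨d + 1, C, fun M => ?_⟩
  calc ∑ n ∈ Finset.range M, act g n ≤ ∑ n ∈ Finset.range M, C * M ^ d := by
        refine Finset.sum_le_sum fun n hn => (hC n).trans ?_
        exact Nat.mul_le_mul_left C (Nat.pow_le_pow_left (Finset.mem_range.1 hn) d)
    _ = C * M ^ (d + 1) := by
        rw [Finset.sum_const, Finset.card_range, smul_eq_mul]
        ring

omit [Finite X] in
theorem finiteState_mul {g h : TreeAut X} (hg : FiniteState g) (hh : FiniteState h) :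
    FiniteState (g * h) := by
  refine (Set.Finite.image2 (fun a b => a * b) hg hh).subset ?_
  rintro _ ⟨w, rfl⟩
  exact ⟨sec g (h • w), ⟨_, rfl⟩, sec h w, ⟨_, rfl⟩, (sec_mul g h w).symm⟩

omit [Finite X] in
theorem finiteState_inv {g : TreeAut X} (hg : FiniteState g) : FiniteState g⁻¹ := by
  refine (hg.image fun a => a⁻¹).subset ?_
  rintro _ ⟨w, rfl⟩
  exact ⟨sec g (g⁻¹ • w), ⟨_, rfl⟩, (sec_inv' g w).symm⟩

theorem inP_closure {d : ℕ} {S : Set (TreeAut X)} (h : ∀ g ∈ S, InP d g) {g : TreeAut X}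
    (hg : g ∈ Subgroup.closure S) : InP d g := by
  induction hg using Subgroup.closure_induction with
  | mem x hx => exact h x hx
  | one => exact inP_one d
  | mul x y _ _ hx hy => exact inP_mul hx hy
  | inv x _ hx => exact inP_inv hx

/-- a group with the maximum condition all of whose elements have polynomial activity has activity of
bounded degree -/
theorem exists_degree {G : Subgroup (TreeAut X)} (hmax : Max G) (h : ∀ g ∈ G, PolyActivity g) :
    ∃ d, ∀ g ∈ G, InP d g := by
  obtain ⟨S, hS⟩ := hmax G le_rfl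
  have h1 : ∀ s ∈ S, ∃ d, InP d s := fun s hs => inP_of_poly (h s (by
    rw [← hS]
    exact Subgroup.subset_closure hs))
  choose! d hd using h1
  refine ⟨S.sup d, fun g hg => ?_⟩
  rw [← hS] at hg
  exact inP_closure (fun s hs => inP_mono (Finset.le_sup (f := d) hs) (hd s hs)) hg

end H85.TA
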