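import Pool.Agent.H85.TA.Cnt
import Pool.Agent.H85.TA.Act

/-!
# [H85 TA ALV] few active vertices in the orbit trees, 90-150 lines

`X` finite, `s` finite-state with `InP d s`. For `r : TreeAut X` let `Q r = Set.range (sec r)` (the states reachable
from `r`), `Q (sec r v) ⊆ Q r` (`sec_append`).
* `unique_letter`: let `r ≠ 1` and suppose `x ≠ x'` with `r ∈ Q (sec r [x])` and `r ∈ Q (sec r [x'])`, so
  `sec r p = r = sec r p'` for words `p = x :: u`, `p' = x' :: u'`. Replace them by `p p'` and `p' p`, words of the
  same length `L`. Then for each `k` the `2^k` concatenations of `k` of these two words are different words of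
  length `k L` with section `r ≠ 1`, so `act r (k L) ≥ 2^k`. But `InP d r` gives `act r (k L) ≤ C (k L + 1)^d`, a
  contradiction for large `k`.
* `alive_aux`: for `w ∈ T G η j`, `j ≤ n`, `r = sec s w`, `ρ = (Q r).ncard ≥ 1`, the number of the
  `w' ∈ T G η n` below `w` with `sec s w' ≠ 1` is at most `(|X| (1 + β))^ρ`, `β` = number of branching levels in
  `[j, n)`. Induction on `n - j`. `j = n`: at most 1. If `r = 1`: none. Otherwise the words are below the children
  `w ++ [x] ∈ T G η (j+1)`. If `j` is not branching there is only one child (`unique_child`), and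
  `Q (sec r [x]) ⊆ Q r`. If `j` is branching: for at most one letter `x` we have `r ∈ Q (sec r [x])`
  (`unique_letter`), its child contributes at most `(|X| (1 + β'))^ρ`, `β' = β - 1`; for the other letters
  `Q (sec r [x])` is contained in `Q r` minus `r`, so they contribute at most `|X| (|X| (1 + β'))^(ρ-1)` together. And
  `(|X|(1+β'))^ρ + |X| (|X|(1+β'))^(ρ-1) = |X|^ρ (1+β')^(ρ-1) (2 + β') ≤ (|X| (1 + β))^ρ`.
* `alive_bound`: `j = 0`, `w = []`, `D = (Q s).ncard`.
-/

set_option autoImplicit false

namespace H85.TA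

variable {X : Type*} [Finite X]

theorem alv_two_pow {r : TreeAut X} (hr : r ≠ 1) {a b : List X} (hlen : a.length = b.length)
    (hab : a ≠ b) (ha : sec r a = r) (hb : sec r b = r) (k : ℕ) :
    2 ^ k ≤ act r (k * a.length) := by
  induction k with
  | zero =>
    rw [pow_zero, Nat.zero_mul, act, Nat.one_le_iff_ne_zero, Ne, Set.ncard_eq_zero
      ((finite_words 0).subset fun w hw => hw.1)]
    intro h
    have h1 : ([] : List X) ∈ ({w : List X | w.length = 0 ∧ sec r w ≠ 1} : Set (List X)) :=
      ⟨rfl, by rw [sec_nil]; exact hr⟩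
    rw [h] at h1
    exact h1
  | succ k ih =>
    have hfin : ∀ n, ({w : List X | w.length = n ∧ sec r w ≠ 1} : Set (List X)).Finite :=
      fun n => (finite_words n).subset fun w hw => hw.1
    set S := ({w : List X | w.length = k * a.length ∧ sec r w ≠ 1} : Set (List X)) with hS
    have h1 : (fun w => a ++ w) '' S ∪ (fun w => b ++ w) '' S ⊆
        {w : List X | w.length = (k + 1) * a.length ∧ sec r w ≠ 1} := by
      rintro _ (⟨w, ⟨hw1, hw2⟩, rfl⟩ | ⟨w, ⟨hw1, hw2⟩, rfl⟩)
      · refine ⟨?_, ?_⟩
        · rw [List.length_append, hw1]; ring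
        · rw [sec_append, ha]; exact hw2
      · refine ⟨?_, ?_⟩
        · rw [List.length_append, hw1, ← hlen]; ring
        · rw [sec_append, hb]; exact hw2
    have h2 : Disjoint ((fun w => a ++ w) '' S) ((fun w => b ++ w) '' S) := by
      rw [Set.disjoint_left]
      rintro _ ⟨w, _, rfl⟩ ⟨w', _, h⟩
      exact hab (List.append_inj h hlen.symm).1.symm
    have h3 := Set.ncard_le_ncard h1 (hfin _)
    rw [Set.ncard_union_eq h2 ((hfin _).image _) ((hfin _).image _),
      Set.ncard_image_of_injective _ (List.append_right_injective a),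
      Set.ncard_image_of_injective _ (List.append_right_injective b)] at h3
    have h4 : S.ncard = act r (k * a.length) := rfl
    rw [pow_succ]
    have h5 : act r ((k + 1) * a.length) =
      ({w : List X | w.length = (k + 1) * a.length ∧ sec r w ≠ 1} : Set (List X)).ncard := rfl
    rw [h5]
    omega

theorem alv_exp (C L d : ℕ) (h : ∀ k : ℕ, 2 ^ k ≤ C * (k * L + 1) ^ d) : False := by
  have h1 : ∀ k : ℕ, 2 ^ k ≤ C * (L + 1) ^ d * (k + 1) ^ d := by
    intro k
    refine (h k).trans ?_
    rw [mul_assoc, ← mul_pow]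
    refine Nat.mul_le_mul_left _ (Nat.pow_le_pow_left ?_ _)
    nlinarith
  have h2 := tendsto_pow_const_div_const_pow_of_one_lt d (r := (2 : ℝ)) (by norm_num)
  have hD : (0 : ℝ) < 1 / (2 * ((C : ℝ) * (L + 1) ^ d + 1)) := by positivity
  have h3 := (h2.eventually (gt_mem_nhds hD)).and (Filter.eventually_ge_atTop 1)
  obtain ⟨k, hk, hk1⟩ := h3.exists
  obtain ⟨k, rfl⟩ := Nat.exists_eq_add_of_le' hk1
  have h4 : (2 : ℝ) ^ k ≤ C * (L + 1) ^ d * (k + 1) ^ d := by exact_mod_cast h1 k
  rw [div_lt_div_iff₀ (by positivity) (by positivity)] at hk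
  push_cast at hk
  have h6 : (0 : ℝ) ≤ ((k : ℝ) + 1) ^ d := by positivity
  have h7 : (2 : ℝ) ^ (k + 1) = 2 * 2 ^ k := by ring
  rw [h7] at hk
  nlinarith

theorem unique_letter {d : ℕ} {r : TreeAut X} (hr : r ≠ 1) (hp : InP d r) {x x' : X}
    (hx : r ∈ Set.range (sec (sec r [x]))) (hx' : r ∈ Set.range (sec (sec r [x']))) : x = x' := by
  by_contra hne
  obtain ⟨u, hu⟩ := hx
  obtain ⟨u', hu'⟩ := hx'
  rw [← sec_append] at hu hu'
  set p := [x] ++ u with hpdef
  set p' := [x'] ++ u' with hpdef'
  have hlen : (p ++ p').length = (p' ++ p).length := by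
    simp only [List.length_append]
    omega
  have hab : p ++ p' ≠ p' ++ p := by
    intro h
    rw [hpdef, hpdef'] at h
    simp only [List.cons_append, List.nil_append, List.cons.injEq] at h
    exact hne h.1
  have ha : sec r (p ++ p') = r := by rw [sec_append, hu, hu']
  have hb : sec r (p' ++ p) = r := by rw [sec_append, hu', hu]
  obtain ⟨C, hC⟩ := hp
  refine alv_exp C (p ++ p').length d fun k => ?_
  refine (alv_two_pow hr hlen hab ha hb k).trans ?_
  refine le_trans ?_ (hC (k * (p ++ p').length + 1))
  exact Finset.single_le_sum (f := fun n => act r n) (fun _ _ => Nat.zero_le _)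
    (Finset.self_mem_range_succ _)

omit [Finite X] in
theorem br_succ (G : Subgroup (TreeAut X)) (η : ℕ → X) (j : ℕ) :
    br G η (j + 1) = br G η j + if (T G η j).ncard ≠ (T G η (j + 1)).ncard then 1 else 0 := by
  unfold br
  rw [Finset.range_add_one, Finset.filter_insert]
  split_ifs with h
  · rw [Finset.card_insert_of_notMem]
    simp
  · rfl

omit [Finite X] in
theorem br_mono_lv (G : Subgroup (TreeAut X)) (η : ℕ → X) {j n : ℕ} (h : j ≤ n) :
    br G η j ≤ br G η n :=
  Finset.card_le_card (Finset.filter_subset_filter _ (Finset.range_mono h))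

theorem alive_aux (G : Subgroup (TreeAut X)) (η : ℕ → X) {s : TreeAut X} (hs : FiniteState s)
    {d : ℕ} (hp : InP d s) (m : ℕ) : ∀ (j : ℕ) (w : List X), w ∈ T G η j →
      Set.ncard {w' | w' ∈ T G η (j + m) ∧ w <+: w' ∧ sec s w' ≠ 1} ≤
        (Nat.card X * (1 + (br G η (j + m) - br G η j))) ^ (Set.range (sec (sec s w))).ncard := by
  classical
  have : Nonempty X := ⟨η 0⟩
  have hX : 1 ≤ Nat.card X := Nat.one_le_iff_ne_zero.2 Nat.card_pos.ne'
  induction m with
  | zero =>
    intro j w hw
    have h1 : {w' | w' ∈ T G η (j + 0) ∧ w <+: w' ∧ sec s w' ≠ 1} ⊆ {w} := by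
      rintro w' ⟨hw', hpre, -⟩
      exact (hpre.eq_of_length (by rw [T_len hw, T_len hw']; rfl)).symm
    refine (Set.ncard_le_ncard h1 (Set.finite_singleton w)).trans ?_
    rw [Set.ncard_singleton]
    exact Nat.one_le_pow _ _ (by positivity)
  | succ m ih =>
    intro j w hw
    by_cases hr : sec s w = 1
    · have h1 : {w' | w' ∈ T G η (j + (m + 1)) ∧ w <+: w' ∧ sec s w' ≠ 1} = ∅ := by
        rw [Set.eq_empty_iff_forall_notMem]
        rintro w' ⟨-, hpre, h⟩
        exact h (sec_one_of_prefix hr hpre)
      rw [h1, Set.ncard_empty]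
      exact Nat.zero_le _
    set r := sec s w with hrdef
    have hpr : InP d r := inP_sec hp w
    have hQfin : (Set.range (sec r)).Finite := finiteState_sec hs w
    have hQsub : ∀ x : X, Set.range (sec (sec r [x])) ⊆ Set.range (sec r) := by
      rintro x _ ⟨v, rfl⟩
      exact ⟨[x] ++ v, sec_append r [x] v⟩
    have hrQ : r ∈ Set.range (sec r) := ⟨[], sec_nil r⟩
    have hρ : 1 ≤ (Set.range (sec r)).ncard :=
      Nat.one_le_iff_ne_zero.2 (by
        rw [Ne, Set.ncard_eq_zero hQfin]
        intro h
        rw [h] at hrQ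
        exact hrQ)
    have hj : j + (m + 1) = j + 1 + m := by ring
    rw [hj]
    -- the sets below the children
    set B : X → Set (List X) := fun x =>
      {w' | w' ∈ T G η (j + 1 + m) ∧ w ++ [x] <+: w' ∧ sec s w' ≠ 1} with hB
    have hBfin : ∀ x, (B x).Finite := fun x => (T_finite G η _).subset fun w' hw' => hw'.1
    have hchild : ∀ w' ∈ T G η (j + 1 + m), w <+: w' → ∃ x, w ++ [x] ∈ T G η (j + 1) ∧
        w ++ [x] <+: w' := by
      intro w' hw' hpre
      have h1 := T_take (show j + 1 ≤ j + 1 + m by omega) hw'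
      obtain ⟨t, rfl⟩ := hpre
      have h2 : (w ++ t).length = j + 1 + m := T_len hw'
      rw [List.length_append, T_len hw] at h2
      cases t with
      | nil => simp at h2; omega
      | cons x t =>
        have h3 : (w ++ x :: t).take (j + 1) = w ++ [x] := by
          rw [← T_len hw, List.take_append, List.take_of_length_le (by omega)]
          simp
        rw [h3] at h1
        exact ⟨x, h1, ⟨t, by rw [List.append_assoc]; rfl⟩⟩
    have hbound : ∀ x, w ++ [x] ∈ T G η (j + 1) → (B x).ncard ≤
        (Nat.card X * (1 + (br G η (j + 1 + m) - br G η (j + 1)))) ^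
          (Set.range (sec (sec r [x]))).ncard := by
      intro x hx
      have h1 := ih (j + 1) (w ++ [x]) hx
      rw [sec_append, ← hrdef] at h1
      exact h1
    by_cases hbr : (T G η j).ncard = (T G η (j + 1)).ncard
    · -- no branching
      have hb1 : br G η (j + 1) = br G η j := by
        rw [br_succ, if_neg (by simpa using hbr), add_zero]
      obtain ⟨w₁, hw₁, hpre₁⟩ := T_ext (show j ≤ j + 1 + m by omega) hw
      obtain ⟨x, hx, hxp⟩ := hchild w₁ hw₁ hpre₁
      have h1 : {w' | w' ∈ T G η (j + 1 + m) ∧ w <+: w' ∧ sec s w' ≠ 1} ⊆ B x := by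
        rintro w' ⟨hw', hpre, h⟩
        obtain ⟨x', hx', hxp'⟩ := hchild w' hw' hpre
        have : x = x' := unique_child (T_finite G η) hbr hw hx hx'
        subst this
        exact ⟨hw', hxp', h⟩
      refine (Set.ncard_le_ncard h1 (hBfin x)).trans ((hbound x hx).trans ?_)
      rw [hb1]
      exact Nat.pow_le_pow_right (by positivity) (Set.ncard_le_ncard (hQsub x) hQfin)
    · -- branching
      have hb1 : br G η (j + 1) = br G η j + 1 := by
        rw [br_succ, if_pos hbr]
      have hb2 := br_mono_lv G η (show j + 1 ≤ j + 1 + m by omega)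
      obtain ⟨b, hb⟩ := Nat.exists_eq_add_of_le hb2
      have hb3 : br G η (j + 1 + m) - br G η j = b + 1 := by omega
      have hb4 : br G η (j + 1 + m) - br G η (j + 1) = b := by omega
      rw [hb3]
      obtain ⟨e, he⟩ := Nat.exists_eq_add_of_le' hρ
      set N := Nat.card X with hN
      let _ : Fintype X := Fintype.ofFinite X
      have hcard : Fintype.card X = N := by rw [hN, Nat.card_eq_fintype_card]
      -- the set of letters with a child
      have hsub : {w' | w' ∈ T G η (j + 1 + m) ∧ w <+: w' ∧ sec s w' ≠ 1} ⊆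
          ⋃ x ∈ Finset.univ.filter (fun x : X => w ++ [x] ∈ T G η (j + 1)), B x := by
        rintro w' ⟨hw', hpre, h⟩
        obtain ⟨x, hx, hxp⟩ := hchild w' hw' hpre
        simp only [Finset.mem_filter, Finset.mem_univ, true_and, Set.mem_iUnion]
        exact ⟨x, hx, hw', hxp, h⟩
      have hfinU : (⋃ x ∈ Finset.univ.filter (fun x : X => w ++ [x] ∈ T G η (j + 1)), B x).Finite := by
        refine (T_finite G η (j + 1 + m)).subset ?_
        intro w' hw'
        simp only [Set.mem_iUnion] at hw'
        obtain ⟨x, _, hw', _⟩ := hw'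
        exact hw'
      refine (Set.ncard_le_ncard hsub hfinU).trans ?_
      have hle : ∀ F : Finset X, (⋃ x ∈ F, B x).ncard ≤ ∑ x ∈ F, (B x).ncard := by
        intro F
        induction F using Finset.induction_on with
        | empty => simp
        | insert x F hx ihF =>
          rw [Finset.sum_insert hx, Finset.set_biUnion_insert]
          exact (Set.ncard_union_le _ _).trans (Nat.add_le_add_left ihF _)
      refine (hle _).trans ?_
      -- bound of the single terms
      have hterm : ∀ x ∈ Finset.univ.filter (fun x : X => w ++ [x] ∈ T G η (j + 1)),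
          (B x).ncard ≤ (N * (1 + b)) ^ e +
            if r ∈ Set.range (sec (sec r [x])) then (N * (1 + b)) ^ (e + 1) else 0 := by
        intro x hx
        rw [Finset.mem_filter] at hx
        refine (hbound x hx.2).trans ?_
        rw [hb4]
        split_ifs with hc
        · refine le_trans ?_ (Nat.le_add_left _ _)
          refine Nat.pow_le_pow_right (by positivity) ?_
          rw [← he]
          exact Set.ncard_le_ncard (hQsub x) hQfin
        · rw [add_zero]
          refine Nat.pow_le_pow_right (by positivity) ?_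
          have h1 : Set.range (sec (sec r [x])) ⊆ Set.range (sec r) \ {r} :=
            fun t ht => ⟨hQsub x ht, fun h => hc (h ▸ ht)⟩
          have h2 := Set.ncard_le_ncard h1 hQfin.sdiff
          rw [Set.ncard_sdiff_singleton_of_mem hrQ] at h2
          omega
      refine (Finset.sum_le_sum hterm).trans ?_
      rw [Finset.sum_add_distrib, Finset.sum_const, smul_eq_mul, ← Finset.sum_filter,
        Finset.sum_const, smul_eq_mul]
      have hc1 : (Finset.univ.filter (fun x : X => w ++ [x] ∈ T G η (j + 1))).card ≤ N := by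
        rw [← hcard]
        exact Finset.card_le_univ _
      have hc2 : ((Finset.univ.filter (fun x : X => w ++ [x] ∈ T G η (j + 1))).filter
          (fun x => r ∈ Set.range (sec (sec r [x])))).card ≤ 1 := by
        rw [Finset.card_le_one]
        intro x hx x' hx'
        rw [Finset.mem_filter] at hx hx'
        exact unique_letter hr hpr hx.2 hx'.2
      rw [he]
      calc _ ≤ N * (N * (1 + b)) ^ e + 1 * (N * (1 + b)) ^ (e + 1) :=
            Nat.add_le_add (Nat.mul_le_mul_right _ hc1) (Nat.mul_le_mul_right _ hc2)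
        _ = N ^ (e + 1) * ((1 + b) ^ e * (1 + (b + 1))) := by
            rw [mul_pow, mul_pow, pow_succ N e, pow_succ (1 + b) e]
            ring
        _ ≤ N ^ (e + 1) * ((1 + (b + 1)) ^ e * (1 + (b + 1))) := by
            refine Nat.mul_le_mul_left _ (Nat.mul_le_mul_right _ (Nat.pow_le_pow_left ?_ _))
            omega
        _ = (N * (1 + (b + 1))) ^ (e + 1) := by rw [mul_pow, pow_succ (1 + (b + 1)) e]

theorem alive_bound (G : Subgroup (TreeAut X)) (η : ℕ → X) {s : TreeAut X} (hs : FiniteState s)
    {d : ℕ} (hp : InP d s) :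
    ∃ D : ℕ, ∀ n, Set.ncard {w | w ∈ T G η n ∧ sec s w ≠ 1} ≤ (Nat.card X * (1 + br G η n)) ^ D := by
  refine ⟨(Set.range (sec (sec s []))).ncard, fun n => ?_⟩
  have h1 := alive_aux G η hs hp n 0 [] (T_base G η 0)
  have h2 : br G η 0 = 0 := by
    unfold br
    simp
  rw [Nat.zero_add, h2, Nat.sub_zero] at h1
  refine le_trans (le_of_eq ?_) h1
  congr 1
  ext w
  simp

end H85.TA
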