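import Mathlib

/-!
# [H85 TA AP] virtually abelian groups with max are almost polycyclic, 50-90 lines

`N` = the normal core of `A` (`Subgroup.normalCore`, finite index), abelian, finitely generated (`hmax`): let `a_0, …,
a_(k-1)` generate it (a finset or list; `Subgroup.fg_iff...`). `f i` = the subgroup generated by `a_i, …, a_(k-1)`
(`Subgroup.closure {x | ∃ j, i ≤ j ∧ j < k ∧ x = a j}`), `f 0 = N`, `f k = ⊥`. For `i < k`: `f (i+1) ≤ f i`; elements of
`N` commute, so `x y x⁻¹ = y`; `g = a_i`: the set of the `x` in `N` with `∃ n : ℤ, a_i ^ n * x⁻¹ ∈ f (i+1)` is a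
subgroup containing the generators of `f i`. In particular it may be simpler to prove by induction on the length of a
list `l` of pairwise commuting elements that `closure l` has such a chain of length `l.length`.
-/

set_option autoImplicit false

namespace H85.TA

/-- the chain for the subgroup generated by a list of commuting elements -/
theorem chain_of_list {Γ : Type*} [Group Γ] (l : List Γ) :
    (∀ a ∈ Subgroup.closure {x | x ∈ l}, ∀ b ∈ Subgroup.closure {x | x ∈ l}, a * b = b * a) →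
    ∃ n : ℕ, ∃ f : ℕ → Subgroup Γ, f 0 = Subgroup.closure {x | x ∈ l} ∧ f n = ⊥ ∧
        ∀ i < n, f (i + 1) ≤ f i ∧
          (∀ x ∈ f i, ∀ y ∈ f (i + 1), x * y * x⁻¹ ∈ f (i + 1)) ∧
          ∃ g ∈ f i, ∀ x ∈ f i, ∃ k : ℤ, g ^ k * x⁻¹ ∈ f (i + 1) := by
  induction l with
  | nil =>
    intro _
    refine ⟨0, fun _ => ⊥, ?_, rfl, fun i hi => absurd hi (Nat.not_lt_zero i)⟩
    have h1 : {x : Γ | x ∈ ([] : List Γ)} = ∅ := by
      ext x
      simp
    rw [h1, Subgroup.closure_empty]
  | cons a l ih =>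
    intro hcomm
    have hle : Subgroup.closure {x | x ∈ l} ≤ Subgroup.closure {x | x ∈ a :: l} :=
      Subgroup.closure_mono fun x hx => List.mem_cons_of_mem a hx
    obtain ⟨n, f, h0, hn, hf⟩ := ih fun x hx y hy => hcomm x (hle hx) y (hle hy)
    refine ⟨n + 1, fun i => Nat.casesOn i (Subgroup.closure {x | x ∈ a :: l}) f, rfl, hn, ?_⟩
    intro i hi
    cases i with
    | succ i => exact hf i (Nat.lt_of_succ_lt_succ hi)
    | zero =>
      change f 0 ≤ Subgroup.closure {x | x ∈ a :: l} ∧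
        (∀ x ∈ Subgroup.closure {x | x ∈ a :: l}, ∀ y ∈ f 0, x * y * x⁻¹ ∈ f 0) ∧
        ∃ g ∈ Subgroup.closure {x | x ∈ a :: l}, ∀ x ∈ Subgroup.closure {x | x ∈ a :: l},
          ∃ k : ℤ, g ^ k * x⁻¹ ∈ f 0
      rw [h0]
      have ha : a ∈ Subgroup.closure {x | x ∈ a :: l} :=
        Subgroup.subset_closure List.mem_cons_self
      refine ⟨hle, ?_, a, ha, ?_⟩
      · intro x hx y hy
        rw [hcomm x hx y (hle hy), mul_inv_cancel_right]
        exact hy
      · intro x hx
        induction hx using Subgroup.closure_induction with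
        | mem x hx =>
          rcases List.mem_cons.1 hx with rfl | hx
          · exact ⟨1, by rw [zpow_one, mul_inv_cancel]; exact Subgroup.one_mem _⟩
          · refine ⟨0, ?_⟩
            rw [zpow_zero, one_mul]
            exact Subgroup.inv_mem _ (Subgroup.subset_closure hx)
        | one => exact ⟨0, by rw [zpow_zero, inv_one, mul_one]; exact Subgroup.one_mem _⟩
        | mul x y hx hy ihx ihy =>
          obtain ⟨k, hk⟩ := ihx
          obtain ⟨m, hm⟩ := ihy
          refine ⟨k + m, ?_⟩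
          have h1 : a ^ (k + m) * (x * y)⁻¹ = (a ^ k * x⁻¹) * (a ^ m * y⁻¹) := by
            have hak : a ^ k ∈ Subgroup.closure {x | x ∈ a :: l} := Subgroup.zpow_mem _ ha k
            have ham : a ^ m ∈ Subgroup.closure {x | x ∈ a :: l} := Subgroup.zpow_mem _ ha m
            have hx' := Subgroup.inv_mem _ hx
            have hy' := Subgroup.inv_mem _ hy
            calc a ^ (k + m) * (x * y)⁻¹ = a ^ k * (a ^ m * (y⁻¹ * x⁻¹)) := by
                  rw [zpow_add, mul_inv_rev, mul_assoc]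
              _ = a ^ k * (a ^ m * y⁻¹ * x⁻¹) := by rw [mul_assoc]
              _ = a ^ k * (x⁻¹ * (a ^ m * y⁻¹)) := by
                  rw [hcomm _ (Subgroup.mul_mem _ ham hy') _ hx']
              _ = _ := by rw [mul_assoc]
          rw [h1]
          exact Subgroup.mul_mem _ hk hm
        | inv x hx ih =>
          obtain ⟨k, hk⟩ := ih
          refine ⟨-k, ?_⟩
          have h1 : a ^ (-k) * x⁻¹⁻¹ = (a ^ k * x⁻¹)⁻¹ := by
            have hak : a ^ k ∈ Subgroup.closure {x | x ∈ a :: l} := Subgroup.zpow_mem _ ha k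
            rw [mul_inv_rev, inv_inv, zpow_neg]
            exact hcomm _ (Subgroup.inv_mem _ hak) _ hx
          rw [h1]
          exact Subgroup.inv_mem _ hk

theorem almost_polycyclic (Γ : Type*) [Group Γ] (hmax : ∀ H : Subgroup Γ, H.FG) (A : Subgroup Γ)
    (hA : A.FiniteIndex) (hab : ∀ a ∈ A, ∀ b ∈ A, a * b = b * a) :
    ∃ N : Subgroup Γ, N.Normal ∧ N.FiniteIndex ∧
      ∃ n : ℕ, ∃ f : ℕ → Subgroup Γ, f 0 = N ∧ f n = ⊥ ∧
        ∀ i < n, f (i + 1) ≤ f i ∧
          (∀ x ∈ f i, ∀ y ∈ f (i + 1), x * y * x⁻¹ ∈ f (i + 1)) ∧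
          ∃ g ∈ f i, ∀ x ∈ f i, ∃ k : ℤ, g ^ k * x⁻¹ ∈ f (i + 1) := by
  refine ⟨A.normalCore, A.normalCore_normal, inferInstance, ?_⟩
  obtain ⟨S, hS⟩ := hmax A.normalCore
  have h1 : {x | x ∈ S.toList} = (S : Set Γ) := by
    ext x
    exact Finset.mem_toList
  have h2 := chain_of_list S.toList
  rw [h1, hS] at h2
  exact h2 fun a ha b hb => hab a (A.normalCore_le ha) b (A.normalCore_le hb)

end H85.TA
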