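import Pool.Agent.H85.TA.Basic

/-!
# [H85 TA KON] Koenig's lemma, 30-60 lines

Suppose that for every `N` there is a bad word `u` of length `N` (no prefix satisfies `P`). Let `B` be the set of
the words `v` such that for infinitely many (or: for all `N ≥ |v|`) there is a bad word of length `N` with
prefix `v`. `[] ∈ B`; if `v ∈ B` then `v ++ [x] ∈ B` for some `x` (`X` finite, pigeonhole: otherwise for each `x`
some `N_x` without bad word extending `v ++ [x]`; note that a prefix of a bad word is bad, so take the maximum of
the `N_x`). Choose `x` as a function of `v` and define `η` by recursion on prefixes (e.g. the sequence of words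
`b 0 = []`, `b (n+1) = b n ++ [c (b n)]`, `η n = c (b n)`, so `pre η n = b n`). All `pre η n` are bad, so `P` fails on
all of them, against `h`. (`X` empty is no problem: `N = 1`.)
Mathlib also has `exists_seq_covby_of_forall_covby_finite` (Koenig), but the direct proof is short.
-/

set_option autoImplicit false

namespace H85.TA

variable {X : Type*}

theorem konig [Finite X] (P : List X → Prop) (h : ∀ η : ℕ → X, ∃ n, P (pre η n)) :
    ∃ N, ∀ u : List X, u.length = N → ∃ n ≤ N, P (u.take n) := by
  by_contra hcon
  push Not at hcon
  let B : List X → Prop := fun v => ∀ N ≥ v.length, ∃ u : List X, u.length = N ∧ v <+: u ∧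
    ∀ n ≤ N, ¬ P (u.take n)
  have hB0 : B [] := by
    intro N _
    obtain ⟨u, hu, hP⟩ := hcon N
    exact ⟨u, hu, List.nil_prefix, hP⟩
  have hBs : ∀ v, B v → ∃ x, B (v ++ [x]) := by
    intro v hv
    by_contra hno
    push Not at hno
    have h1 : ∀ x : X, ∃ N ≥ (v ++ [x]).length, ∀ u : List X, u.length = N → v ++ [x] <+: u →
        ∃ n ≤ N, P (u.take n) := by
      intro x
      have h2 := hno x
      simp only [B] at h2
      push Not at h2
      obtain ⟨N, hN, h3⟩ := h2
      exact ⟨N, hN, fun u hu hp => h3 u hu hp⟩
    choose Nx hNx hbad using h1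
    obtain ⟨M, hM⟩ := (Set.finite_range Nx).bddAbove
    obtain ⟨u, hu, ⟨t, rfl⟩, hP⟩ := hv (max M (v.length + 1))
      (le_max_of_le_right (Nat.le_succ _))
    rw [List.length_append] at hu
    cases t with
    | nil =>
      rw [List.length_nil] at hu
      have := le_max_right M (v.length + 1)
      omega
    | cons x t =>
      have h4 : Nx x ≤ max M (v.length + 1) := (hM ⟨x, rfl⟩).trans (le_max_left _ _)
      have h5 := hNx x
      rw [List.length_append, List.length_singleton] at h5
      obtain ⟨n, hn, hPn⟩ := hbad x ((v ++ x :: t).take (Nx x)) (by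
        rw [List.length_take, List.length_append, hu]
        omega) (by
        rw [List.prefix_take_iff]
        refine ⟨⟨t, by rw [List.append_assoc, List.singleton_append]⟩, ?_⟩
        rw [List.length_append, List.length_singleton]
        exact h5)
      rw [List.take_take, min_eq_left hn] at hPn
      exact hP n (hn.trans h4) hPn
  choose c hc using hBs
  let b : ℕ → {v // B v} := fun n => Nat.rec ⟨[], hB0⟩ (fun _ v => ⟨v.1 ++ [c v.1 v.2], hc v.1 v.2⟩) n
  have hb : ∀ n, (b (n + 1)).1 = (b n).1 ++ [c (b n).1 (b n).2] := fun n => rfl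
  have hpre : ∀ n, pre (fun n => c (b n).1 (b n).2) n = (b n).1 := by
    intro n
    induction n with
    | zero => rfl
    | succ n ih => rw [pre_succ, ih, hb]
  obtain ⟨n, hn⟩ := h fun n => c (b n).1 (b n).2
  have hlen : (b n).1.length = n := by rw [← hpre, length_pre]
  rw [hpre] at hn
  obtain ⟨u, hu, hp, hP⟩ := (b n).2 n hlen.le
  have h6 : (b n).1 = u := hp.eq_of_length (by rw [hlen, hu])
  have h7 := hP n le_rfl
  rw [List.take_of_length_le hu.le, ← h6] at h7
  exact h7 hn

end H85.TA
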