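import Pool.Agent.H85.TA.Stv
import Pool.Agent.H85.TA.Kon

/-!
# [H85 TA FNO] finite orbits on rays, 40-60 lines

Induction on `d`. `d = 0`: `finite_of_inP_zero`. Step: for every `η` there is `n` with `Fx (pre η n)` of finite
relative index in `G ⊓ RS η` (`stA_fin`), hence in `G` (`hR η`, `Subgroup.relIndex_ne_zero_trans`; note
`Subgroup.relIndex_inf...`: `(G ⊓ RS η).relIndex G = (RS η).relIndex G`). Let `P u` be `(Fx u).relIndex G ≠ 0`. By `konig`
there is `N` such that every `u` of length `N` has a prefix with `P`, so `P u` (`fx_prefix`,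
`Subgroup.relIndex_ne_zero...` monotone in the left argument: `Subgroup.relIndex_eq_zero_of_le_left`). The intersection
of the finitely many `Fx u` (`|u| = N`) is `⊥` (`eq_one_of_level`), so `⊥` has finite relative index in `G`
(`Subgroup.relIndex_iInf_ne_zero`), `Subgroup.relIndex_bot_left`, `Nat.card G ≠ 0`.
-/

set_option autoImplicit false

namespace H85.TA

variable {X : Type*} [Finite X] [Nonempty X]

theorem finite_of_finite_orbits (d : ℕ) : ∀ G : Subgroup (TreeAut X), Max G →
    (∀ g ∈ G, FiniteState g) → (∀ g ∈ G, InP d g) → (∀ η : ℕ → X, (RS η).relIndex G ≠ 0) →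
      (G : Set (TreeAut X)).Finite := by
  induction d with
  | zero => exact fun G hmax _ hG _ => finite_of_inP_zero hmax hG
  | succ d ih =>
    intro G hmax hfs hG hR
    have h1 : ∀ η : ℕ → X, ∃ n, (Fx (pre η n)).relIndex G ≠ 0 := by
      intro η
      obtain ⟨n, hn⟩ := stA_fin d ih hmax hfs hG hR η
      refine ⟨n, Subgroup.relIndex_ne_zero_trans hn ?_⟩
      rw [Subgroup.inf_relIndex_left]
      exact hR η
    obtain ⟨N, hN⟩ := konig (fun v => (Fx v).relIndex G ≠ 0) h1
    have hfin : Finite {u : List X // u.length = N} := (finite_words N).to_subtype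
    have h2 : ∀ u : {u : List X // u.length = N}, (Fx u.1).relIndex G ≠ 0 := by
      intro u h0
      obtain ⟨n, -, hn⟩ := hN u.1 u.2
      exact hn (Subgroup.relIndex_eq_zero_of_le_left (fx_prefix (List.take_prefix _ _)) h0)
    have h3 := Subgroup.relIndex_iInf_ne_zero h2
    have h4 : (⨅ u : {u : List X // u.length = N}, Fx u.1) ≤ (⊥ : Subgroup (TreeAut X)) := by
      intro g hg
      rw [Subgroup.mem_iInf] at hg
      exact Subgroup.mem_bot.2 (eq_one_of_level N fun w hw => hg ⟨w, hw⟩)
    rw [le_bot_iff.1 h4, Subgroup.relIndex_bot_left] at h3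
    have h5 : Finite G := Nat.finite_of_card_ne_zero h3
    exact Set.toFinite _

end H85.TA
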