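import Pool.Agent.H85.TA.Va

/-!
# [H85 TA WM] weak minimal condition for finitely generated virtually abelian groups, 60-100 lines

Let `A ≤ K` be abelian of finite index; `A` is finitely generated (`hmax`). Put `B n = L n ⊓ A`. If
`(B (n+1)).relIndex (B n) ≠ 0` then `(L (n+1)).relIndex (L n) ≠ 0`: `B n` has finite index in `L n`
(`Subgroup.relIndex_inter_ne_zero`), `B (n+1)` finite index in `B n`, so `B (n+1)` has finite index in `L n`, and
`B (n+1) ≤ L (n+1)`. So we need: an antitone sequence of subgroups of a finitely generated abelian group has a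
step of finite index.
Proof by induction on the number of generators of `A` (statement for subgroups `A` of `Γ` generated by a list or a
finset of pairwise commuting elements, or for commutative groups/`ℤ`-modules), or with ranks: for a finitely generated
`ℤ`-module `M` the ranks `Module.finrank ℤ (L n)` are antitone, so constant at some step, and a submodule `L' ≤ L`
of the same finite rank has finite index: `L / L'` is finitely generated of rank `0` (additivity:
`Submodule.finrank_quotient_add_finrank` or `rank_quotient_add_rank`), hence torsion, hence finite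
(`Module.finite_of_fg_torsion`, `AddCommGroup` structure theorem). Or directly: `ℤ`-independent family in
`L (n+1)` of maximal size is maximal in `L n`, so each `x ∈ L n` has a multiple `k x ∈ L (n+1)`, `k ≠ 0`, and the
finitely generated torsion group `L n / L (n+1)` is finite.
-/

set_option autoImplicit false

namespace H85.TA

variable {Γ : Type*} [Group Γ]

/-- a step with torsion quotient -/
private theorem wm_step {M : Type*} [AddCommGroup M] [Module.Finite ℤ M] (N : ℕ → Submodule ℤ M)
    (hN : Antitone N) : ∃ n, ∀ x ∈ N n, ∃ k : ℕ, 0 < k ∧ k • x ∈ N (n + 1) := by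
  obtain ⟨n, hn⟩ : ∃ n, Module.finrank ℤ (N n) = Module.finrank ℤ (N (n + 1)) := by
    by_contra hcon
    push Not at hcon
    have h1 : ∀ n, Module.finrank ℤ (N (n + 1)) < Module.finrank ℤ (N n) := fun n =>
      lt_of_le_of_ne (Submodule.finrank_mono (hN (Nat.le_succ n))) (hcon n).symm
    have h2 : ∀ n, Module.finrank ℤ (N n) + n ≤ Module.finrank ℤ (N 0) := by
      intro n
      induction n with
      | zero => simp
      | succ n ih =>
        have := h1 n
        omega
    have := h2 (Module.finrank ℤ (N 0) + 1)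
    omega
  refine ⟨n, fun x hx => ?_⟩
  have h1 := Submodule.finrank_quotient_add_finrank ((N (n + 1)).comap (N n).subtype)
  rw [(Submodule.comapSubtypeEquivOfLe (hN (Nat.le_succ n))).finrank_eq, ← hn] at h1
  have h2 : Module.finrank ℤ ((N n) ⧸ ((N (n + 1)).comap (N n).subtype)) = 0 := by omega
  rw [Module.finrank_eq_zero_iff_isTorsion] at h2
  obtain ⟨a, ha⟩ := @h2 (Submodule.Quotient.mk ⟨x, hx⟩)
  have ha0 : (a : ℤ) ≠ 0 := nonZeroDivisors.coe_ne_zero a
  have h3 : (a : ℤ) • x ∈ N (n + 1) := by
    have h4 : (Submodule.Quotient.mk ((a : ℤ) • (⟨x, hx⟩ : N n)) :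
        (N n) ⧸ ((N (n + 1)).comap (N n).subtype)) = 0 := by
      rw [Submodule.Quotient.mk_smul]
      exact ha
    rw [Submodule.Quotient.mk_eq_zero] at h4
    exact h4
  refine ⟨(a : ℤ).natAbs, Int.natAbs_pos.2 ha0, ?_⟩
  rcases Int.natAbs_eq (a : ℤ) with h | h
  · rw [h] at h3
    rwa [natCast_zsmul] at h3
  · rw [h, neg_smul, Submodule.neg_mem_iff, natCast_zsmul] at h3
    exact h3

/-- for commutative groups -/
theorem weak_min_comm (A : Type*) [CommGroup A] [Group.FG A] (L : ℕ → Subgroup A)
    (hL : Antitone L) : ∃ n, (L (n + 1)).relIndex (L n) ≠ 0 := by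
  obtain ⟨n, hn⟩ := wm_step (M := Additive A)
    (fun n => AddSubgroup.toIntSubmodule (Subgroup.toAddSubgroup (L n))) (fun a b hab x hx =>
      hL hab hx)
  have h1 : ∀ x ∈ L n, ∃ k : ℕ, 0 < k ∧ x ^ k ∈ L (n + 1) := fun x hx => hn (Additive.ofMul x) hx
  refine ⟨n, ?_⟩
  have hfg : Group.FG (L n) := by
    rw [Group.fg_iff_subgroup_fg, Subgroup.fg_iff_add_fg]
    have h2 : (AddSubgroup.toIntSubmodule (Subgroup.toAddSubgroup (L n))).FG :=
      IsNoetherian.noetherian _
    rw [Submodule.fg_iff_addSubgroup_fg] at h2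
    exact h2
  have htor : ∀ q : (L n) ⧸ ((L (n + 1)).subgroupOf (L n)), IsOfFinOrder q := by
    intro q
    obtain ⟨x, rfl⟩ := QuotientGroup.mk_surjective q
    obtain ⟨k, hk, hx⟩ := h1 x x.2
    rw [isOfFinOrder_iff_pow_eq_one]
    refine ⟨k, hk, ?_⟩
    rw [← QuotientGroup.mk_pow, QuotientGroup.eq_one_iff]
    exact hx
  have hfin : Finite ((L n) ⧸ ((L (n + 1)).subgroupOf (L n))) :=
    CommGroup.finite_of_fg_isMulTorsion _ (by
      first
        | exact ⟨htor⟩
        | exact htor)
  exact Subgroup.index_ne_zero_of_finite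

theorem weak_min {K : Subgroup Γ} (hmax : Max K) (hva : VA K ⊥) (L : ℕ → Subgroup Γ)
    (hL : Antitone L) (hLK : ∀ n, L n ≤ K) : ∃ n, (L (n + 1)).relIndex (L n) ≠ 0 := by
  obtain ⟨A, hA, hi, hc⟩ := hva
  have hcomm : ∀ a b : A, a * b = b * a := by
    intro a b
    have h1 := Subgroup.mem_bot.1 (hc a a.2 b b.2)
    apply Subtype.ext
    change (a : Γ) * b = b * a
    rw [mul_inv_eq_one, mul_inv_eq_iff_eq_mul] at h1
    exact h1
  let _ : CommGroup A := { (inferInstance : Group A) with mul_comm := hcomm }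
  have hfg : Group.FG A := (Group.fg_iff_subgroup_fg A).2 (hmax A hA)
  obtain ⟨n, hn⟩ := weak_min_comm A (fun n => (L n).subgroupOf A)
    (fun a b hab x hx => hL hab hx)
  refine ⟨n, ?_⟩
  have h1 : ((L (n + 1)) ⊓ A).relIndex (L n ⊓ A) ≠ 0 := by
    have h2 := Subgroup.relIndex_subgroupOf (H := L (n + 1) ⊓ A) (K := L n ⊓ A) (L := A)
      inf_le_right
    rw [Subgroup.inf_subgroupOf_right, Subgroup.inf_subgroupOf_right] at h2
    rw [← h2]
    exact hn
  have h2 : (L n ⊓ A).relIndex (L n) ≠ 0 := by
    rw [inf_comm, Subgroup.inf_relIndex_right]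
    exact fun h0 => hi (Subgroup.relIndex_eq_zero_of_le_right (hLK n) h0)
  have h3 := Subgroup.relIndex_ne_zero_trans h1 h2
  exact fun h0 => h3 (Subgroup.relIndex_eq_zero_of_le_left inf_le_left h0)

end H85.TA
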