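import Pool.Agent.H85.TA.Stb
import Pool.Agent.H85.TA.Fno
import Pool.Agent.H85.TA.Wm

/-!
# [H85 TA ASM] assembly, 110-170 lines

* `of_conj`: `OF G η` is normal in `G` (`T_smul` with `h⁻¹`).
* `r1`: (`ih` for `d`, `G` in `InP (d+1)`): there are finitely many rays `η_i` (`i` in a finite type, e.g. the words of
  length `N`) such that `R₁ = G ⊓ ⨅ i, OF G (η_i)` satisfies `VA R₁ ⊥`. Proof: for every `η` some `n` with
  `VA (G ⊓ RS η) (Fx (pre η n))` (`stA_va`), so `VA (OF G η) (Fx (pre η n))` (`OF_le`, `OF_le_RS`). Let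
  `P v = ∃ η, pre η v.length = v ∧ VA (OF G η) (Fx v)`. `konig` gives `N` such that every word `u` of length `N` has a
  prefix `u.take n` with `P`; choose `η_u` for it. `VA R₁ (Fx (u.take n))` (`VA.mono_left`), so `VA R₁ (Fx u)`
  (`fx_prefix`), for all `u` of length `N`; `VA.iInf`; the intersection of all `Fx u`, `|u| = N`, is `⊥`
  (`eq_one_of_level`).
* `r2`: there are finitely many rays (a finite type or a finset/list `L` of rays) such that `R' = G ⊓ ⨅ η ∈ L, OF G η`
  satisfies `(OF G η).relIndex R' ≠ 0` for all `η`. Otherwise, starting with `R₁`, build an antitone sequence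
  `R₁ = L 0 ≥ L 1 ≥ …`, `L (k+1) = L k ⊓ OF G (η_k)`, each of infinite relative index in the previous one (each `L k` is
  an intersection as required), against `weak_min` (`R₁ ≤ G` has max, `VA R₁ ⊥`).
* `va_step`: `R'` is as in `r2`. `(RS η).relIndex R' ≠ 0` as `OF G η ≤ RS η`. So `R'` is finite
  (`finite_of_finite_orbits (d+1)`). `VA G (OF G η)` for all `η` (`stepB`), so `VA G R'` (`VA.iInf` and `VA.inf`, or add `G`
  trivially: the commutators of `A ≤ G` are in `G`). There is `n` such that `R' ⊓ LS X n = ⊥` (`ls_inf`). Take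
  `A' = A ⊓ LS X n`, of finite relative index in `G`; its commutators are in `R' ⊓ LS X n = ⊥`.
* `va_all`: induction on `d` (`d = 0`: `finite_of_inP_zero`, `VA.of_finite`).
-/

set_option autoImplicit false

namespace H85.TA

variable {X : Type*} [Finite X] [Nonempty X]

/-- the intersection of the groups `OF G η` for the rays of a list -/
def IF (G : Subgroup (TreeAut X)) (l : List (ℕ → X)) : Subgroup (TreeAut X) :=
  G ⊓ ⨅ i : Fin l.length, OF G (l.get i)

theorem IF_le (G : Subgroup (TreeAut X)) (l : List (ℕ → X)) : IF G l ≤ G := inf_le_left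

theorem IF_cons (G : Subgroup (TreeAut X)) (η : ℕ → X) (l : List (ℕ → X)) :
    IF G (η :: l) = IF G l ⊓ OF G η := by
  ext g
  simp only [IF, Subgroup.mem_inf, Subgroup.mem_iInf]
  constructor
  · rintro ⟨h1, h2⟩
    exact ⟨⟨h1, fun i => h2 i.succ⟩, h2 ⟨0, by simp⟩⟩
  · rintro ⟨⟨h1, h2⟩, h3⟩
    refine ⟨h1, fun i => ?_⟩
    obtain ⟨i, hi⟩ := i
    cases i with
    | zero => exact h3
    | succ i => exact h2 ⟨i, by simpa using hi⟩

theorem mem_IF {G : Subgroup (TreeAut X)} {l : List (ℕ → X)} {g : TreeAut X} :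
    g ∈ IF G l ↔ g ∈ G ∧ ∀ η ∈ l, g ∈ OF G η := by
  induction l with
  | nil =>
    simp only [IF, Subgroup.mem_inf, Subgroup.mem_iInf]
    constructor
    · rintro ⟨h1, -⟩
      exact ⟨h1, fun η hη => by simp at hη⟩
    · rintro ⟨h1, -⟩
      exact ⟨h1, fun i => by exact absurd i.2 (by simp)⟩
  | cons η l ih =>
    rw [IF_cons, Subgroup.mem_inf, ih]
    simp only [List.mem_cons, forall_eq_or_imp]
    tauto

theorem r1 (d : ℕ)
    (ih : ∀ K : Subgroup (TreeAut X), Max K → (∀ g ∈ K, FiniteState g) → (∀ g ∈ K, InP d g) →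
      VA K ⊥)
    {G : Subgroup (TreeAut X)} (hmax : Max G) (hfs : ∀ g ∈ G, FiniteState g)
    (hG : ∀ g ∈ G, InP (d + 1) g) : ∃ l : List (ℕ → X), VA (IF G l) ⊥ := by
  classical
  have h1 : ∀ η : ℕ → X, ∃ n, ∃ ζ : ℕ → X, pre ζ (pre η n).length = pre η n ∧
      VA (OF G ζ) (Fx (pre η n)) := by
    intro η
    obtain ⟨n, hn⟩ := stA_va d ih hmax hfs hG η
    refine ⟨n, η, by rw [length_pre], hn.mono_left (le_inf (OF_le G η) (OF_le_RS G η))⟩
  obtain ⟨N, hN⟩ := konig (fun v => ∃ ζ : ℕ → X, pre ζ v.length = v ∧ VA (OF G ζ) (Fx v)) h1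
  choose n hn ζ hζ hva using hN
  have hfin : Finite {u : List X // u.length = N} := (finite_words N).to_subtype
  have := Fintype.ofFinite {u : List X // u.length = N}
  let l : List (ℕ → X) := (Finset.univ : Finset {u : List X // u.length = N}).toList.map
    fun u => ζ u.1 u.2
  refine ⟨l, ?_⟩
  have h2 : ∀ u : {u : List X // u.length = N}, VA (IF G l) (Fx u.1) := by
    intro u
    have h3 : IF G l ≤ OF G (ζ u.1 u.2) := by
      intro g hg
      refine (mem_IF.1 hg).2 _ ?_
      exact List.mem_map.2 ⟨u, Finset.mem_toList.2 (Finset.mem_univ u), rfl⟩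
    exact ((hva u.1 u.2).mono_left h3).mono_right (fx_prefix (List.take_prefix _ _))
  have h4 : (⨅ u : {u : List X // u.length = N}, Fx u.1) ≤ (⊥ : Subgroup (TreeAut X)) := by
    intro g hg
    rw [Subgroup.mem_iInf] at hg
    exact Subgroup.mem_bot.2 (eq_one_of_level N fun w hw => hg ⟨w, hw⟩)
  exact (VA.iInf h2).mono_right h4

theorem r2 {G : Subgroup (TreeAut X)} (hmax : Max G) (l : List (ℕ → X)) (hl : VA (IF G l) ⊥) :
    ∃ l' : List (ℕ → X), ∀ η : ℕ → X, (OF G η).relIndex (IF G l') ≠ 0 := by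
  by_contra hcon
  push Not at hcon
  choose e he using hcon
  let L : ℕ → List (ℕ → X) := fun n => Nat.rec l (fun _ l' => e l' :: l') n
  have hL0 : L 0 = l := rfl
  have hL1 : ∀ n, L (n + 1) = e (L n) :: L n := fun n => rfl
  have hstep : ∀ n, IF G (L (n + 1)) = IF G (L n) ⊓ OF G (e (L n)) := by
    intro n
    rw [hL1, IF_cons]
  have hanti : Antitone fun n => IF G (L n) := by
    refine antitone_nat_of_succ_le fun n => ?_
    change IF G (L (n + 1)) ≤ IF G (L n)
    rw [hstep]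
    exact inf_le_left
  obtain ⟨n, hn⟩ := weak_min (hmax.mono (IF_le G l)) hl (fun n => IF G (L n)) hanti fun n => by
    have h := hanti (Nat.zero_le n)
    exact h
  apply hn
  change (IF G (L (n + 1))).relIndex (IF G (L n)) = 0
  rw [hstep, Subgroup.inf_relIndex_left]
  exact he (L n)

theorem va_if {G : Subgroup (TreeAut X)} (h : ∀ η : ℕ → X, VA G (OF G η)) (l : List (ℕ → X)) :
    VA G (IF G l) := by
  refine VA.inf ?_ (VA.iInf fun i => h _)
  exact VA.of_index le_rfl (by rw [Subgroup.relIndex_self]; exact one_ne_zero)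

/-- modulo a finite subgroup -/
theorem va_bot_of_finite {G R : Subgroup (TreeAut X)} (h : VA G R)
    (hR : (R : Set (TreeAut X)).Finite) : VA G ⊥ := by
  obtain ⟨A, hA, hi, hc⟩ := h
  obtain ⟨n, hn⟩ := ls_inf hR
  refine ⟨A ⊓ LS X n, inf_le_left.trans hA, Subgroup.relIndex_inf_ne_zero hi (ls_relIndex n G), ?_⟩
  intro a ha b hb
  refine Subgroup.mem_bot.2 (hn _ (hc a ha.1 b hb.1) ?_)
  exact (LS X n).mul_mem ((LS X n).mul_mem ((LS X n).mul_mem ha.2 hb.2) ((LS X n).inv_mem ha.2))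
    ((LS X n).inv_mem hb.2)

theorem va_step (d : ℕ)
    (ih : ∀ K : Subgroup (TreeAut X), Max K → (∀ g ∈ K, FiniteState g) → (∀ g ∈ K, InP d g) →
      VA K ⊥)
    {G : Subgroup (TreeAut X)} (hmax : Max G) (hfs : ∀ g ∈ G, FiniteState g)
    (hG : ∀ g ∈ G, InP (d + 1) g) : VA G ⊥ := by
  obtain ⟨l, hl⟩ := r1 d ih hmax hfs hG
  obtain ⟨l', hl'⟩ := r2 hmax l hl
  have h1 : IF G l' ≤ G := inf_le_left
  refine va_bot_of_finite (va_if (fun η => stepB hmax hfs hG η) l') ?_
  refine finite_of_finite_orbits (d + 1) _ (hmax.mono h1) (fun g hg => hfs g (h1 hg))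
    (fun g hg => hG g (h1 hg)) fun η h0 => hl' η ?_
  exact Subgroup.relIndex_eq_zero_of_le_left (OF_le_RS G η) h0

theorem va_all (d : ℕ) : ∀ G : Subgroup (TreeAut X), Max G → (∀ g ∈ G, FiniteState g) →
    (∀ g ∈ G, InP d g) → VA G ⊥ := by
  induction d with
  | zero => exact fun G hmax _ hG => VA.of_finite (finite_of_inP_zero hmax hG)
  | succ d ih => exact fun G hmax hfs hG => va_step d ih hmax hfs hG

end H85.TA
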