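import Pool.Agent.H85.TA.Defs

/-!
# Basic rules for sections
-/

set_option autoImplicit false

namespace H85.TA

variable {X : Type*}

theorem sec_app (g : TreeAut X) (w v : List X) : sec g w • v = (g • (w ++ v)).drop w.length := rfl

/-- `g (u v) = g (u) (sec g u) (v)` -/
theorem app_append (g : TreeAut X) (u v : List X) : g • (u ++ v) = g • u ++ sec g u • v := by
  rw [sec_app, app_append_drop]

theorem app_nil (g : TreeAut X) : g • ([] : List X) = [] :=
  List.length_eq_zero_iff.1 (length_app g [])

theorem ext_app {g h : TreeAut X} (H : ∀ w : List X, g • w = h • w) : g = h :=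
  Subtype.ext (Equiv.ext H)

theorem eq_one_of_app {g : TreeAut X} (H : ∀ w : List X, g • w = w) : g = 1 :=
  ext_app fun w => by rw [H, one_smul]

theorem sec_eq_iff (g h : TreeAut X) (w : List X) :
    sec g w = h ↔ ∀ v : List X, g • (w ++ v) = g • w ++ h • v := by
  constructor
  · rintro rfl v
    exact app_append g w v
  · intro H
    refine ext_app fun v => ?_
    have h1 := H v
    rw [app_append] at h1
    exact List.append_cancel_left h1

theorem sec_nil (g : TreeAut X) : sec g [] = g := by
  rw [sec_eq_iff]
  intro v
  rw [app_nil, List.nil_append, List.nil_append]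

theorem sec_one (w : List X) : sec (1 : TreeAut X) w = 1 := by
  rw [sec_eq_iff]
  intro v
  rw [one_smul, one_smul, one_smul]

theorem sec_mul (g h : TreeAut X) (w : List X) : sec (g * h) w = sec g (h • w) * sec h w := by
  rw [sec_eq_iff]
  intro v
  rw [mul_smul, app_append h, app_append g, mul_smul, mul_smul]

theorem sec_append (g : TreeAut X) (u v : List X) : sec g (u ++ v) = sec (sec g u) v := by
  rw [sec_eq_iff]
  intro w
  rw [List.append_assoc, app_append, app_append (sec g u), app_append g u v, List.append_assoc]

theorem sec_inv (g : TreeAut X) (w : List X) : sec g⁻¹ (g • w) = (sec g w)⁻¹ := by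
  have h := sec_mul g⁻¹ g w
  rw [inv_mul_cancel, sec_one] at h
  exact (inv_eq_of_mul_eq_one_left h.symm).symm

theorem sec_inv' (g : TreeAut X) (w : List X) : sec g⁻¹ w = (sec g (g⁻¹ • w))⁻¹ := by
  rw [← sec_inv, smul_inv_smul]

theorem sec_append_one {g : TreeAut X} {u : List X} (h : sec g u = 1) (v : List X) :
    sec g (u ++ v) = 1 := by
  rw [sec_append, h, sec_one]

theorem sec_one_of_prefix {g : TreeAut X} {u w : List X} (h : sec g u = 1) (huw : u <+: w) :
    sec g w = 1 := by
  obtain ⟨v, rfl⟩ := huw
  exact sec_append_one h v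

/-- if `g` fixes `w` with trivial section then it fixes every extension of `w` -/
theorem fix_append {g : TreeAut X} {w : List X} (h1 : g • w = w) (h2 : sec g w = 1) (v : List X) :
    g • (w ++ v) = w ++ v := by
  rw [app_append, h1, h2, one_smul]

/-- if `g` fixes `u v` then it fixes `u` -/
theorem fix_of_append {g : TreeAut X} {u v : List X} (h : g • (u ++ v) = u ++ v) : g • u = u := by
  rw [app_append] at h
  exact (List.append_inj h (length_app g u)).1

theorem fix_of_prefix {g : TreeAut X} {u w : List X} (huw : u <+: w) (h : g • w = w) :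
    g • u = u := by
  obtain ⟨v, rfl⟩ := huw
  exact fix_of_append h

theorem prefix_smul {u w : List X} (g : TreeAut X) (h : u <+: w) : g • u <+: g • w := by
  obtain ⟨v, rfl⟩ := h
  exact prefix_app g u v

theorem prefix_smul_iff {u w : List X} (g : TreeAut X) : g • u <+: g • w ↔ u <+: w := by
  constructor
  · intro h
    have h1 := prefix_smul g⁻¹ h
    rwa [inv_smul_smul, inv_smul_smul] at h1
  · exact prefix_smul g

/-- `g` is determined by its action on the words of length `n` and its sections there -/
theorem eq_one_of_level {g : TreeAut X} (n : ℕ)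
    (h : ∀ w : List X, w.length = n → g • w = w ∧ sec g w = 1) [Nonempty X] : g = 1 := by
  refine eq_one_of_app fun w => ?_
  obtain ⟨x⟩ := ‹Nonempty X›
  by_cases hw : n ≤ w.length
  · have h1 : (w.take n).length = n := by
      rw [List.length_take]
      omega
    have h2 := fix_append (h _ h1).1 (h _ h1).2 (w.drop n)
    rwa [List.take_append_drop] at h2
  · have h1 : (w ++ List.replicate (n - w.length) x).length = n := by
      rw [List.length_append, List.length_replicate]
      omega
    exact fix_of_append (h _ h1).1

theorem finiteState_sec {g : TreeAut X} (h : FiniteState g) (w : List X) : FiniteState (sec g w) := by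
  refine h.subset ?_
  rintro _ ⟨v, rfl⟩
  exact ⟨w ++ v, sec_append g w v⟩

/-! ### prefixes of infinite words -/

theorem length_pre (η : ℕ → X) (n : ℕ) : (pre η n).length = n := by
  induction n with
  | zero => rfl
  | succ n ih => rw [pre, List.length_append, ih, List.length_singleton]

theorem pre_zero (η : ℕ → X) : pre η 0 = [] := rfl

theorem pre_succ (η : ℕ → X) (n : ℕ) : pre η (n + 1) = pre η n ++ [η n] := rfl

theorem pre_add (η : ℕ → X) (n k : ℕ) : ∃ v : List X, v.length = k ∧ pre η (n + k) = pre η n ++ v := by
  induction k with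
  | zero => exact ⟨[], rfl, by rw [Nat.add_zero, List.append_nil]⟩
  | succ k ih =>
    obtain ⟨v, h1, h2⟩ := ih
    refine ⟨v ++ [η (n + k)], ?_, ?_⟩
    · rw [List.length_append, h1, List.length_singleton]
    · rw [← Nat.add_assoc, pre_succ, h2, List.append_assoc]

theorem pre_prefix (η : ℕ → X) {m n : ℕ} (h : m ≤ n) : pre η m <+: pre η n := by
  obtain ⟨k, rfl⟩ := Nat.exists_eq_add_of_le h
  obtain ⟨v, -, h2⟩ := pre_add η m k
  exact ⟨v, h2.symm⟩

/-- every word is a prefix of an infinite word -/
theorem exists_ray [Nonempty X] (u : List X) : ∃ η : ℕ → X, pre η u.length = u := by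
  obtain ⟨x⟩ := ‹Nonempty X›
  refine ⟨fun n => (u[n]?).getD x, ?_⟩
  suffices h : ∀ n ≤ u.length, pre (fun n => (u[n]?).getD x) n = u.take n by
    have := h u.length le_rfl
    rwa [List.take_length] at this
  intro n
  induction n with
  | zero =>
    intro _
    rw [List.take_zero]
    rfl
  | succ n ih =>
    intro hn
    rw [pre_succ, ih (by omega), List.take_add_one]
    have h1 : n < u.length := by omega
    rw [List.getElem?_eq_getElem h1]
    rfl

theorem exists_append_ray (w : List X) (η : ℕ → X) :
    ∃ ζ : ℕ → X, ∀ n, pre ζ (w.length + n) = w ++ pre η n := by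
  refine ⟨fun n => (w[n]?).getD (η (n - w.length)), ?_⟩
  have h0 : ∀ n ≤ w.length, pre (fun n => (w[n]?).getD (η (n - w.length))) n = w.take n := by
    intro n
    induction n with
    | zero =>
      intro _
      rw [List.take_zero]
      rfl
    | succ n ih =>
      intro hn
      rw [pre_succ, ih (by omega), List.take_add_one]
      have h1 : n < w.length := by omega
      rw [List.getElem?_eq_getElem h1]
      rfl
  intro n
  induction n with
  | zero => rw [Nat.add_zero, h0 _ le_rfl, List.take_length, pre_zero, List.append_nil]
  | succ n ih =>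
    rw [← Nat.add_assoc, pre_succ, ih, pre_succ, ← List.append_assoc]
    have h1 : w[w.length + n]? = none := List.getElem?_eq_none (by omega)
    rw [h1, Option.getD_none, Nat.add_sub_cancel_left]

/-! ### finiteness -/

theorem finite_words [Finite X] (n : ℕ) : {w : List X | w.length = n}.Finite :=
  List.finite_length_eq X n

theorem mem_LS {n : ℕ} {g : TreeAut X} : g ∈ LS X n ↔ ∀ w : List X, w.length = n → g • w = w := Iff.rfl

theorem mem_RS {η : ℕ → X} {g : TreeAut X} : g ∈ RS η ↔ ∀ n, g • pre η n = pre η n := Iff.rfl

end H85.TA
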