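import Pool.Agent.H85.TA.Defs2

/-!
# [H85 TA CNT] counting in the orbit tree, 60-100 lines

* `below_card`: for `v, v' ∈ T G η m` there is `g ∈ G` with `g • v = v'`, and `w ↦ g • w` is a bijection of the
  vertices of level `n` below `v` onto those below `v'` (`prefix_smul_iff`).
* `card_mul`: `T G η n` is the disjoint union over `v ∈ T G η m` of the vertices below `v` (the prefix of length `m` of
  `w` is `w.take m`, `T_take`), all of the same size (e.g. `Finset.card_eq_sum_card_fiberwise` on `hfin.toFinset`).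
* `card_pos`, `card_mono`: `T_ext` gives at least one vertex below each.
* `card_succ_cases`: `card_mul` with `n = m+1`: the number `k` of children is the same for all vertices; `k ≥ 1`. If
  `k = 1` the level sizes are equal and each vertex has exactly one child in the orbit tree; otherwise the size at
  least doubles.
* `two_pow_br`: induction on `n` (`Finset.filter` over `range (n+1)`).
* `br_tendsto`: if the level sizes are not eventually constant then infinitely many levels are branching.
-/

set_option autoImplicit false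

namespace H85.TA

variable {X : Type*}

theorem below_card {G : Subgroup (TreeAut X)} {η : ℕ → X} {m n : ℕ} {v v' : List X}
    (hv : v ∈ T G η m) (hv' : v' ∈ T G η m) :
    Set.ncard {w | w ∈ T G η n ∧ v <+: w} = Set.ncard {w | w ∈ T G η n ∧ v' <+: w} := by
  obtain ⟨g, hg, rfl⟩ := T_trans hv hv'
  have h1 : {w | w ∈ T G η n ∧ g • v <+: w} = (fun w => g • w) '' {w | w ∈ T G η n ∧ v <+: w} := by
    ext w
    constructor
    · rintro ⟨hw, hvw⟩
      refine ⟨g⁻¹ • w, ⟨T_smul (G.inv_mem hg) hw, ?_⟩, smul_inv_smul g w⟩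
      have h2 := prefix_smul g⁻¹ hvw
      rwa [inv_smul_smul] at h2
    · rintro ⟨w, ⟨hw, hvw⟩, rfl⟩
      exact ⟨T_smul hg hw, prefix_smul g hvw⟩
  rw [h1, Set.ncard_image_of_injective _ (MulAction.injective g)]

theorem prefix_iff_take {m n : ℕ} {v w : List X} (hv : v.length = m) (_hw : w.length = n)
    (_hmn : m ≤ n) : v <+: w ↔ w.take m = v := by
  rw [List.prefix_iff_eq_take, hv, eq_comm]

theorem T_fin_of_le {G : Subgroup (TreeAut X)} {η : ℕ → X} {m n : ℕ} (hmn : m ≤ n)
    (hfin : (T G η n).Finite) : (T G η m).Finite := by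
  refine (hfin.image fun w => w.take m).subset ?_
  intro w hw
  obtain ⟨w', hw', hww'⟩ := T_ext hmn hw
  refine ⟨w', hw', ?_⟩
  exact (prefix_iff_take (T_len hw) (T_len hw') hmn).1 hww'

theorem card_mul {G : Subgroup (TreeAut X)} {η : ℕ → X} {m n : ℕ} (hmn : m ≤ n)
    (hfin : (T G η n).Finite) {v : List X} (hv : v ∈ T G η m) :
    (T G η n).ncard = (T G η m).ncard * Set.ncard {w | w ∈ T G η n ∧ v <+: w} := by
  classical
  have hfinm := T_fin_of_le hmn hfin
  rw [Set.ncard_eq_toFinset_card _ hfin, Set.ncard_eq_toFinset_card _ hfinm,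
    Finset.card_eq_sum_card_fiberwise (f := fun w : List X => w.take m) (t := hfinm.toFinset)]
  · rw [← smul_eq_mul, ← Finset.sum_const]
    refine Finset.sum_congr rfl fun u hu => ?_
    have hu' : u ∈ T G η m := hfinm.mem_toFinset.1 hu
    rw [below_card hv hu', ← Set.ncard_coe_finset]
    congr 1
    ext w
    rw [Finset.mem_coe, Finset.mem_filter, Set.Finite.mem_toFinset]
    constructor
    · rintro ⟨h1, h2⟩
      exact ⟨h1, (prefix_iff_take (T_len hu') (T_len h1) hmn).2 h2⟩
    · rintro ⟨h1, h2⟩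
      exact ⟨h1, (prefix_iff_take (T_len hu') (T_len h1) hmn).1 h2⟩
  · intro w hw
    rw [Finset.mem_coe, Set.Finite.mem_toFinset] at hw ⊢
    exact T_take hmn hw

theorem card_pos {G : Subgroup (TreeAut X)} {η : ℕ → X} {n : ℕ} (hfin : (T G η n).Finite) :
    0 < (T G η n).ncard :=
  (Set.ncard_pos hfin).2 ⟨_, T_base G η n⟩

theorem below_pos {G : Subgroup (TreeAut X)} {η : ℕ → X} {m n : ℕ} (hmn : m ≤ n)
    (hfin : (T G η n).Finite) {v : List X} (hv : v ∈ T G η m) :
    0 < Set.ncard {w | w ∈ T G η n ∧ v <+: w} := by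
  obtain ⟨w, hw, hvw⟩ := T_ext hmn hv
  exact (Set.ncard_pos (hfin.subset fun w hw => hw.1)).2 ⟨w, hw, hvw⟩

theorem card_mono {G : Subgroup (TreeAut X)} {η : ℕ → X} (hfin : ∀ n, (T G η n).Finite) :
    Monotone fun n => (T G η n).ncard := by
  intro m n hmn
  change (T G η m).ncard ≤ (T G η n).ncard
  rw [card_mul hmn (hfin n) (T_base G η m)]
  exact Nat.le_mul_of_pos_right _ (below_pos hmn (hfin n) (T_base G η m))

/-- level sizes equal: one vertex of level `n` below each vertex of level `m` -/
theorem below_unique {G : Subgroup (TreeAut X)} {η : ℕ → X} (hfin : ∀ n, (T G η n).Finite) {m n : ℕ}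
    (hmn : m ≤ n) (h : (T G η m).ncard = (T G η n).ncard) {v w w' : List X} (hv : v ∈ T G η m)
    (hw : w ∈ T G η n) (hw' : w' ∈ T G η n) (h1 : v <+: w) (h2 : v <+: w') : w = w' := by
  have h3 := card_mul hmn (hfin n) hv
  rw [← h] at h3
  have h4 : Set.ncard {w | w ∈ T G η n ∧ v <+: w} = 1 := by
    have h5 := card_pos (hfin m)
    nlinarith [below_pos hmn (hfin n) hv]
  obtain ⟨u, hu⟩ := Set.ncard_eq_one.1 h4
  have h5 : w ∈ {w | w ∈ T G η n ∧ v <+: w} := ⟨hw, h1⟩
  have h6 : w' ∈ {w | w ∈ T G η n ∧ v <+: w} := ⟨hw', h2⟩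
  rw [hu] at h5 h6
  rw [Set.mem_singleton_iff.1 h5, Set.mem_singleton_iff.1 h6]

/-- level `n` is not branching: unique children -/
theorem unique_child {G : Subgroup (TreeAut X)} {η : ℕ → X} (hfin : ∀ n, (T G η n).Finite) {n : ℕ}
    (h : (T G η n).ncard = (T G η (n + 1)).ncard) {w : List X} (hw : w ∈ T G η n) {x x' : X}
    (hx : w ++ [x] ∈ T G η (n + 1)) (hx' : w ++ [x'] ∈ T G η (n + 1)) : x = x' := by
  have h1 := below_unique hfin (Nat.le_succ n) h hw hx hx' (List.prefix_append _ _)
    (List.prefix_append _ _)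
  have h2 := List.append_cancel_left h1
  exact (List.cons.inj h2).1

theorem double {G : Subgroup (TreeAut X)} {η : ℕ → X} (hfin : ∀ n, (T G η n).Finite) {n : ℕ}
    (h : (T G η n).ncard ≠ (T G η (n + 1)).ncard) : 2 * (T G η n).ncard ≤ (T G η (n + 1)).ncard := by
  have h1 : (T G η (n + 1)).ncard =
      (T G η n).ncard * Set.ncard {w | w ∈ T G η (n + 1) ∧ pre η n <+: w} :=
    card_mul (Nat.le_succ n) (hfin (n + 1)) (T_base G η n)
  have h2 : 0 < Set.ncard {w | w ∈ T G η (n + 1) ∧ pre η n <+: w} :=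
    below_pos (Nat.le_succ n) (hfin (n + 1)) (T_base G η n)
  have h3 : Set.ncard {w | w ∈ T G η (n + 1) ∧ pre η n <+: w} ≠ 1 := by
    intro h4
    rw [h4, mul_one] at h1
    exact h h1.symm
  rw [h1, mul_comm]
  exact Nat.mul_le_mul_left _ (by omega)

theorem two_pow_br {G : Subgroup (TreeAut X)} {η : ℕ → X} (hfin : ∀ n, (T G η n).Finite) (n : ℕ) :
    2 ^ br G η n ≤ (T G η n).ncard := by
  induction n with
  | zero =>
    have h1 : br G η 0 = 0 := by
      rw [br, Finset.range_zero, Finset.filter_empty, Finset.card_empty]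
    rw [h1, pow_zero]
    exact card_pos (hfin 0)
  | succ n ih =>
    by_cases h : (T G η n).ncard = (T G η (n + 1)).ncard
    · have h1 : br G η (n + 1) = br G η n := by
        rw [br, br, Finset.range_add_one, Finset.filter_insert, if_neg (not_not.2 h)]
      rw [h1, ← h]
      exact ih
    · have h1 : br G η (n + 1) = br G η n + 1 := by
        rw [br, br, Finset.range_add_one, Finset.filter_insert, if_pos h, Finset.card_insert_of_notMem]
        rw [Finset.mem_filter, Finset.mem_range]
        exact fun h => lt_irrefl _ h.1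
      rw [h1, pow_succ, mul_comm]
      exact (Nat.mul_le_mul_left 2 ih).trans (double hfin h)

theorem br_mono {G : Subgroup (TreeAut X)} {η : ℕ → X} {m n : ℕ} (h : m ≤ n) :
    br G η m ≤ br G η n := by
  refine Finset.card_le_card fun j hj => ?_
  rw [Finset.mem_filter, Finset.mem_range] at hj ⊢
  exact ⟨hj.1.trans_le h, hj.2⟩

theorem br_unbounded {G : Subgroup (TreeAut X)} {η : ℕ → X}
    (h : ¬ ∃ n₀, ∀ n ≥ n₀, (T G η n).ncard = (T G η n₀).ncard) (b n₀ : ℕ) :
    ∃ n ≥ n₀, b ≤ br G η n := by
  push Not at h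
  -- a branching level above every `m`
  have h1 : ∀ m, ∃ j ≥ m, (T G η j).ncard ≠ (T G η (j + 1)).ncard := by
    intro m
    by_contra hcon
    push Not at hcon
    obtain ⟨n, hn, hne⟩ := h m
    apply hne
    clear hne
    induction n, hn using Nat.le_induction with
    | base => rfl
    | succ n hn ih => rw [← hcon n hn, ih]
  induction b with
  | zero => exact ⟨n₀, le_rfl, Nat.zero_le _⟩
  | succ b ih =>
    obtain ⟨n, hn, hb⟩ := ih
    obtain ⟨j, hj, hne⟩ := h1 n
    refine ⟨j + 1, by omega, ?_⟩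
    have h2 : br G η (j + 1) = br G η j + 1 := by
      rw [br, br, Finset.range_add_one, Finset.filter_insert, if_pos hne,
        Finset.card_insert_of_notMem]
      rw [Finset.mem_filter, Finset.mem_range]
      exact fun h => lt_irrefl _ h.1
    rw [h2]
    have h3 := br_mono (G := G) (η := η) hj
    omega

/-- if the level sizes are constant from `n₀` on then the elements of `G` which fix the level `n₀` fix the
orbit tree -/
theorem fix_of_bounded {G : Subgroup (TreeAut X)} {η : ℕ → X} (hfin : ∀ n, (T G η n).Finite)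
    {n₀ : ℕ} (h : ∀ n ≥ n₀, (T G η n).ncard = (T G η n₀).ncard) {g : TreeAut X} (hg : g ∈ G)
    (hfix : ∀ w ∈ T G η n₀, g • w = w) : g ∈ OF G η := by
  refine ⟨hg, fun n w hw => ?_⟩
  rcases le_total n n₀ with hn | hn
  · obtain ⟨w', hw', hww'⟩ := T_ext hn hw
    exact fix_of_prefix hww' (hfix w' hw')
  · have h1 := T_take hn hw
    have h2 : w.take n₀ <+: w := List.take_prefix _ _
    have h3 := prefix_smul g h2
    rw [hfix _ h1] at h3
    exact below_unique hfin hn (h n hn).symm h1 (T_smul hg hw) hw h3 h2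

end H85.TA
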