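import Mathlib

/-!
# [H85 TA GR3] Morse-Hedlund: few factors imply eventual periodicity, 50-80 lines

`factor w i n` = the factor of length `n` at the position `i` (a list). Let `p n = Set.ncard (range (fun i => factor w i n))`.
`factor w i n` is a prefix of `factor w i (n+1)`, so `p n ≤ p (n+1)`, and `p 0 = 1`. If `p n ≤ n` for some `n`
then `p m = p (m+1)` for some `m < n` (otherwise `p n ≥ n + 1` by induction). For this `m` the map `take m` from the
factors of length `m+1` onto those of length `m` is a surjection between finite sets of the same size, hence injective: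
`factor w i m = factor w j m` implies `w (i+m) = w (j+m)`, and then `factor w (i+1) m = factor w (j+1) m`. There are `i < j`
with `factor w i m = factor w j m` (finitely many factors of length `m`, `Σ` finite); by induction
`factor w (i+k) m = factor w (j+k) m` for all `k`, so `w (i+m+k) = w (j+m+k)`. Take `N = i + m`, `per = j - i`.
-/

set_option autoImplicit false

namespace H85.TA

variable {σ : Type*}

/-- the factor of length `n` of the infinite word `w` at the position `i` -/
def factor (w : ℕ → σ) (i n : ℕ) : List σ := (List.range n).map fun k => w (i + k)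

theorem factor_eq_iff (w : ℕ → σ) (i j n : ℕ) :
    factor w i n = factor w j n ↔ ∀ k < n, w (i + k) = w (j + k) := by
  unfold factor
  rw [List.map_inj_left]
  simp

theorem take_factor (w : ℕ → σ) (i n : ℕ) : (factor w i (n + 1)).take n = factor w i n := by
  unfold factor
  rw [← List.map_take, List.take_range]
  simp

theorem fin_factor [Finite σ] (w : ℕ → σ) (n : ℕ) :
    (Set.range fun i => factor w i n).Finite := by
  refine (List.finite_length_eq σ n).subset ?_
  rintro _ ⟨i, rfl⟩
  simp [factor]

theorem image_factor (w : ℕ → σ) (n : ℕ) :
    (fun l : List σ => l.take n) '' (Set.range fun i => factor w i (n + 1))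
      = Set.range fun i => factor w i n := by
  rw [← Set.range_comp]
  congr 1
  funext i
  exact take_factor w i n

theorem morse_hedlund [Finite σ] (w : ℕ → σ) (n : ℕ)
    (h : (Set.range fun i => factor w i n).ncard ≤ n) :
    ∃ N per : ℕ, 0 < per ∧ ∀ i ≥ N, w (i + per) = w i := by
  have hex : ∃ m, (Set.range fun i => factor w i (m + 1)).ncard
      ≤ (Set.range fun i => factor w i m).ncard := by
    by_contra hcon
    have hlt : ∀ m, (Set.range fun i => factor w i m).ncard
        < (Set.range fun i => factor w i (m + 1)).ncard := by
      intro m
      by_contra hm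
      exact hcon ⟨m, not_lt.1 hm⟩
    have hge : ∀ m, m + 1 ≤ (Set.range fun i => factor w i m).ncard := by
      intro m
      induction m with
      | zero =>
        have h1 : (Set.range fun i => factor w i 0).Nonempty := ⟨_, ⟨0, rfl⟩⟩
        exact (Set.ncard_pos (fin_factor w 0)).2 h1
      | succ m ih =>
        have := hlt m
        omega
    have := hge n
    omega
  obtain ⟨m, hm⟩ := hex
  have hcard : ((fun l : List σ => l.take m) '' (Set.range fun i => factor w i (m + 1))).ncard
      = (Set.range fun i => factor w i (m + 1)).ncard := by
    refine le_antisymm (Set.ncard_image_le (fin_factor w (m + 1))) ?_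
    rw [image_factor]
    exact hm
  have hinj := Set.injOn_of_ncard_image_eq hcard (fin_factor w (m + 1))
  have hstep : ∀ i j, factor w i m = factor w j m → factor w i (m + 1) = factor w j (m + 1) := by
    intro i j hij
    refine hinj ⟨i, rfl⟩ ⟨j, rfl⟩ ?_
    show (factor w i (m + 1)).take m = (factor w j (m + 1)).take m
    rw [take_factor, take_factor, hij]
  obtain ⟨i, -, j, -, hij, hf⟩ := Set.infinite_univ.exists_lt_map_eq_of_mapsTo
    (f := fun i => factor w i m) (t := Set.range fun i => factor w i m)
    (fun i _ => ⟨i, rfl⟩) (fin_factor w m)
  have hall : ∀ k, factor w (i + k) m = factor w (j + k) m := by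
    intro k
    induction k with
    | zero => exact hf
    | succ k ih =>
      have h1 := (factor_eq_iff w _ _ _).1 (hstep _ _ ih)
      rw [factor_eq_iff]
      intro l hl
      have := h1 (l + 1) (by omega)
      have e1 : i + (k + 1) + l = i + k + (l + 1) := by ring
      have e2 : j + (k + 1) + l = j + k + (l + 1) := by ring
      rw [e1, e2]
      exact this
  refine ⟨i + m, j - i, by omega, ?_⟩
  intro a ha
  obtain ⟨k, rfl⟩ := Nat.exists_eq_add_of_le ha
  have h1 := (factor_eq_iff w _ _ _).1 (hstep _ _ (hall k)) m (by omega)
  have e1 : i + m + k + (j - i) = j + k + m := by omega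
  have e2 : i + m + k = i + k + m := by ring
  rw [e1, e2]
  exact h1.symm

end H85.TA
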