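import Pool.Agent.H85.TA.Gr1
import Pool.Agent.H85.TA.Gr3

/-!
# [H85 TA GR4] an infinite group with subquadratic growth has an element of infinite order, 110-170 lines

Alphabet `σ = {q // q ∈ ball S}` (finite type), with any linear order; `ev : List σ → Q`, the product of the letters.
* `ev` is onto (`exists_mem_pow`; elements of `(ball S)^r` are products of `r` letters), and the products of words of
  length `n` are in `(ball S)^n`.
* `Lg` = the words `l` which are minimal in the shortlex order among the words with the same product: no `l'` with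
  `ev l' = ev l` and `Shortlex l' l`. `Shortlex` of Mathlib is well founded (`List.Shortlex.wf`) and compatible with
  concatenation on both sides (`List.Shortlex.append_left`, `append_right`), so `Lg` is closed under factors: if
  `u ++ v ++ w ∈ Lg` then `v ∈ Lg`. `ev` is injective on `Lg` (trichotomy) and every `q` is `ev l` for an `l ∈ Lg`.
* `Q` is infinite so `Lg` is infinite, closed under prefixes, `σ` finite: by Koenig (`Kon.lean` has it for lists, or do it
  directly: for every `n` there is a word of length `n` in `Lg`; the same argument) there is an infinite word `w : ℕ → σ` all of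
  whose prefixes are in `Lg`, hence all factors `factor w i n ∈ Lg`.
* Suppose that all elements have finite order. If `p n ≤ n` for some `n` (`p n` = number of factors of length `n`), then
  `morse_hedlund`: with `u = factor w N per` all `factor w N (k per) = u^k` (concatenation) are in `Lg`, `ev` of them is
  `(ev u)^k`, and they are different words, so the powers of `ev u` are different: infinite order, contradiction.
  So `p n ≥ n + 1` for all `n`; the factors of length `n` are words of `Lg` of length `n`, and their products are
  `p n` different elements of `(ball S)^n`, different for different `n` too (`ev` is injective on `Lg`). So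
  `|(ball S)^r| ≥ ∑_{n ≤ r} (n+1) ≥ r²/2` (the products of words of length `n ≤ r` are in `(ball S)^r`, `pow_mono`), so `r² ≤ 2 |(ball S)^r|`.
-/

set_option autoImplicit false

namespace H85.TA

open Pointwise

variable {Q : Type*} [Group Q] [DecidableEq Q]

private def ev {S : Finset Q} (l : List {q // q ∈ ball S}) : Q := (l.map Subtype.val).prod

private theorem ev_nil {S : Finset Q} : ev ([] : List {q // q ∈ ball S}) = 1 := rfl

private theorem ev_append {S : Finset Q} (l l' : List {q // q ∈ ball S}) :
    ev (l ++ l') = ev l * ev l' := by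
  unfold ev
  rw [List.map_append, List.prod_append]

private theorem ev_mem {S : Finset Q} (l : List {q // q ∈ ball S}) :
    ev l ∈ (ball S) ^ l.length := by
  induction l with
  | nil =>
    rw [ev_nil, List.length_nil, pow_zero]
    exact Finset.mem_one.mpr rfl
  | cons x l ih =>
    have h1 : ev (x :: l) = x.1 * ev l := by
      unfold ev
      rw [List.map_cons, List.prod_cons]
    rw [h1, List.length_cons, pow_succ']
    exact Finset.mul_mem_mul x.2 ih

private theorem ev_surj {S : Finset Q} (r : ℕ) : ∀ q ∈ (ball S) ^ r,
    ∃ l : List {q // q ∈ ball S}, ev l = q := by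
  induction r with
  | zero =>
    intro q hq
    rw [pow_zero] at hq
    exact ⟨[], (Finset.mem_one.mp hq).symm⟩
  | succ r ih =>
    intro q hq
    rw [pow_succ'] at hq
    obtain ⟨a, ha, b, hb, rfl⟩ := Finset.mem_mul.mp hq
    obtain ⟨l, hl⟩ := ih b hb
    refine ⟨⟨a, ha⟩ :: l, ?_⟩
    unfold ev at hl ⊢
    rw [List.map_cons, List.prod_cons, hl]

private theorem lex_append {α : Type*} {r : α → α → Prop} {s t : List α} (h : List.Lex r s t)
    (hl : s.length = t.length) (w : List α) : List.Lex r (s ++ w) (t ++ w) := by
  induction h with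
  | nil => simp at hl
  | cons h ih =>
    simp only [List.length_cons, add_left_inj] at hl
    exact List.Lex.cons (ih hl)
  | rel h => exact List.Lex.rel h

private theorem shortlex_append {α : Type*} {r : α → α → Prop} {s t : List α}
    (h : List.Shortlex r s t) (w : List α) : List.Shortlex r (s ++ w) (t ++ w) := by
  rcases List.shortlex_def.mp h with h1 | ⟨h1, h2⟩
  · apply List.Shortlex.of_length_lt
    rw [List.length_append, List.length_append]
    omega
  · apply List.Shortlex.of_lex
    · rw [List.length_append, List.length_append, h1]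
    · exact lex_append h2 h1 w

private theorem factor_add {σ : Type*} (w : ℕ → σ) (i m n : ℕ) :
    factor w i (m + n) = factor w i m ++ factor w (i + m) n := by
  unfold factor
  rw [List.range_add, List.map_append, List.map_map]
  congr 1
  refine List.map_congr_left fun k _ => ?_
  simp only [Function.comp_apply]
  rw [add_assoc]

private theorem factor_length {σ : Type*} (w : ℕ → σ) (i n : ℕ) : (factor w i n).length = n := by
  unfold factor
  rw [List.length_map, List.length_range]

private theorem word_of_infinite {σ : Type*} [Finite σ] (Lg : Set (List σ)) (hinf : Lg.Infinite)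
    (hf : ∀ u v : List σ, u ++ v ∈ Lg → u ∈ Lg) :
    ∃ w : ℕ → σ, ∀ n, factor w 0 n ∈ Lg := by
  classical
  let B : List σ → Prop := fun v => {l ∈ Lg | v <+: l}.Infinite
  have hB0 : B [] := by
    show {l ∈ Lg | [] <+: l}.Infinite
    refine hinf.mono fun l hl => ⟨hl, List.nil_prefix⟩
  have hBs : ∀ v, B v → ∃ x, B (v ++ [x]) := by
    intro v hv
    by_contra hno
    push Not at hno
    have h1 : ∀ x : σ, {l ∈ Lg | v ++ [x] <+: l}.Finite := fun x => Set.not_infinite.mp (hno x)
    have h2 : (⋃ x : σ, {l ∈ Lg | v ++ [x] <+: l}).Finite := Set.finite_iUnion h1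
    refine hv ((h2.union (Set.finite_singleton v)).subset ?_)
    rintro l ⟨hl, t, rfl⟩
    cases t with
    | nil => right; rw [List.append_nil]; rfl
    | cons x t =>
      left
      refine Set.mem_iUnion.mpr ⟨x, hl, t, ?_⟩
      rw [List.append_assoc, List.singleton_append]
  have hne : Nonempty σ := ⟨(hBs [] hB0).choose⟩
  choose! c hc using hBs
  let b : ℕ → List σ := fun n => Nat.rec [] (fun _ v => v ++ [c v]) n
  have hb0 : b 0 = [] := rfl
  have hbs : ∀ n, b (n + 1) = b n ++ [c (b n)] := fun n => rfl
  have hB : ∀ n, B (b n) := by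
    intro n
    induction n with
    | zero => exact hB0
    | succ n ih => rw [hbs]; exact hc _ ih
  refine ⟨fun n => c (b n), fun n => ?_⟩
  have h3 : ∀ n, factor (fun n => c (b n)) 0 n = b n := by
    intro n
    induction n with
    | zero => rfl
    | succ n ih =>
      rw [factor_add, ih, hbs]
      congr 1
      simp [factor]
  rw [h3]
  obtain ⟨l, hl, t, ht⟩ := (hB n).nonempty
  rw [← ht] at hl
  exact hf _ _ hl

theorem quadratic_of_torsion (S : Finset Q) (hS : Subgroup.closure (S : Set Q) = ⊤) [Infinite Q]
    (h : ∀ x : Q, IsOfFinOrder x) : ∀ r : ℕ, r ^ 2 ≤ 2 * ((ball S) ^ r).card := by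
  classical
  intro r
  obtain ⟨e, he⟩ : ∃ e : {q // q ∈ ball S} → ℕ, Function.Injective e :=
    ⟨fun x => (Fintype.equivFin _ x : ℕ), fun x y h => (Fintype.equivFin _).injective (Fin.ext h)⟩
  let rel : {q // q ∈ ball S} → {q // q ∈ ball S} → Prop := fun a b => e a < e b
  have hwf : WellFounded rel := InvImage.wf e Nat.lt_wfRel.wf
  have : Std.Trichotomous rel := ⟨fun a b h1 h2 => he (by
    simp only [rel] at h1 h2
    omega)⟩
  have hsw := List.Shortlex.wf hwf
  let Lg : Set (List {q // q ∈ ball S}) := {l | ∀ l', ev l' = ev l → ¬ List.Shortlex rel l' l}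
  have hinj : ∀ l ∈ Lg, ∀ l' ∈ Lg, ev l = ev l' → l = l' := by
    intro l hl l' hl' h1
    exact Std.Trichotomous.trichotomous (r := List.Shortlex rel) l l' (hl' l h1)
      (hl l' h1.symm)
  have hsurj : ∀ q : Q, ∃ l ∈ Lg, ev l = q := by
    intro q
    obtain ⟨r, hr⟩ := exists_mem_pow S (q := q) (by rw [hS]; exact Subgroup.mem_top q)
    obtain ⟨l, hl⟩ := ev_surj r q hr
    have hne : {l : List {q // q ∈ ball S} | ev l = q}.Nonempty := ⟨l, hl⟩
    refine ⟨hsw.min _ hne, ?_, hsw.min_mem _ hne⟩
    intro l' hl' hlt
    have h2 : ev (hsw.min _ hne) = q := hsw.min_mem _ hne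
    exact hsw.not_lt_min _ (show l' ∈ {l : List {q // q ∈ ball S} | ev l = q} from
      hl'.trans h2) hlt
  have hfac : ∀ u v w : List {q // q ∈ ball S}, u ++ v ++ w ∈ Lg → v ∈ Lg := by
    intro u v w h1 v' hv' hlt
    refine h1 (u ++ v' ++ w) ?_ (shortlex_append (hlt.append_left u) w)
    rw [ev_append, ev_append, ev_append, ev_append, hv']
  have hLinf : Lg.Infinite := by
    intro hfin
    have h1 : (ev '' Lg).Finite := hfin.image _
    have h2 : ev '' Lg = Set.univ := by
      ext q
      simp only [Set.mem_image, Set.mem_univ, iff_true]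
      exact hsurj q
    rw [h2] at h1
    exact Set.infinite_univ h1
  obtain ⟨w, hw⟩ := word_of_infinite Lg hLinf (fun u v huv => hfac [] u v (by
    rw [List.nil_append]; exact huv))
  have hwf' : ∀ i n, factor w i n ∈ Lg := by
    intro i n
    have h1 := hw (i + n)
    rw [factor_add, zero_add] at h1
    refine hfac (factor w 0 i) (factor w i n) [] ?_
    rw [List.append_nil]
    exact h1
  have hp : ∀ n, n + 1 ≤ (Set.range fun i => factor w i n).ncard := by
    intro n
    by_contra hcon
    rw [not_le, Nat.lt_succ_iff] at hcon
    obtain ⟨N, per, hper, hN⟩ := morse_hedlund w n hcon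
    have h1 : ∀ k j, w (N + k * per + j) = w (N + j) := by
      intro k
      induction k with
      | zero => intro j; rw [zero_mul, add_zero]
      | succ k ih =>
        intro j
        have h2 : N + (k + 1) * per + j = (N + k * per + j) + per := by ring
        rw [h2, hN _ (by omega), ih]
    have h2 : ∀ k, ev (factor w N (k * per)) = ev (factor w N per) ^ k := by
      intro k
      induction k with
      | zero => rw [zero_mul, pow_zero]; rfl
      | succ k ih =>
        have h3 : factor w (N + k * per) per = factor w N per := by
          unfold factor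
          refine List.map_congr_left fun j _ => ?_
          exact h1 k j
        rw [Nat.succ_mul, factor_add, ev_append, ih, h3, pow_succ]
    obtain ⟨m, hm, hm1⟩ := isOfFinOrder_iff_pow_eq_one.mp (h (ev (factor w N per)))
    have h4 : factor w N (m * per) = factor w N 0 := by
      refine hinj _ (hwf' _ _) _ (hwf' _ _) ?_
      rw [h2, hm1]
      rfl
    have h5 := congrArg List.length h4
    rw [factor_length, factor_length] at h5
    have := Nat.mul_pos hm hper
    omega
  have hfin : ∀ n, (Set.range fun i => factor w i n).Finite := by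
    intro n
    refine Set.Finite.subset (List.finite_length_eq {q // q ∈ ball S} n) ?_
    rintro _ ⟨i, rfl⟩
    exact factor_length w i n
  let F : ℕ → Finset (List {q // q ∈ ball S}) := fun n => (hfin n).toFinset
  have hF : ∀ n l, l ∈ F n → l ∈ Lg ∧ l.length = n := by
    intro n l hl
    rw [Set.Finite.mem_toFinset] at hl
    obtain ⟨i, rfl⟩ := hl
    exact ⟨hwf' i n, factor_length w i n⟩
  have hFc : ∀ n, n + 1 ≤ (F n).card := by
    intro n
    have h1 := hp n
    rw [Set.ncard_eq_toFinset_card _ (hfin n)] at h1
    exact h1
  have hdis : (((Finset.range (r + 1) : Finset ℕ) : Set ℕ)).PairwiseDisjoint F := by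
    intro a _ b _ hab
    rw [Function.onFun, Finset.disjoint_left]
    intro l h1 h2
    exact hab ((hF a l h1).2.symm.trans (hF b l h2).2)
  have hU : ((Finset.range (r + 1)).biUnion F).card ≤ ((ball S) ^ r).card := by
    refine Finset.card_le_card_of_injOn ev ?_ ?_
    · intro l hl
      obtain ⟨n, hn, hl⟩ := Finset.mem_biUnion.mp (Finset.mem_coe.mp hl)
      have h1 := ev_mem l
      rw [(hF n l hl).2] at h1
      exact pow_mono S (Nat.lt_succ_iff.mp (Finset.mem_range.mp hn)) h1
    · intro l hl l' hl' h1
      obtain ⟨n, hn, hl⟩ := Finset.mem_biUnion.mp (Finset.mem_coe.mp hl)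
      obtain ⟨n', hn', hl'⟩ := Finset.mem_biUnion.mp (Finset.mem_coe.mp hl')
      exact hinj l (hF n l hl).1 l' (hF n' l' hl').1 h1
  rw [Finset.card_biUnion hdis] at hU
  have hsum : ∑ n ∈ Finset.range (r + 1), (n + 1) ≤ ∑ n ∈ Finset.range (r + 1), (F n).card :=
    Finset.sum_le_sum fun n _ => hFc n
  have hg : ∀ r : ℕ, r ^ 2 ≤ 2 * ∑ n ∈ Finset.range (r + 1), (n + 1) := by
    intro r
    induction r with
    | zero => simp
    | succ r ih =>
      rw [Finset.sum_range_succ]
      nlinarith
  have := hg r
  omega

end H85.TA
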