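import Pool.Agent.H85.TA.Defs

/-!
# [H85 TA VA] rules for virtually abelian (modulo a subgroup), 60-90 lines

`VA K N`: there is `A ≤ K` with `A.relIndex K ≠ 0` and all commutators `a b a⁻¹ b⁻¹` in `N`.
* `mono_left`: take `A ⊓ K'`, `Subgroup.relIndex_inter_ne_zero`.
* `mono_right`: same `A`.
* `of_relIndex`: same `A` as a subgroup of `K`, `Subgroup.relIndex_ne_zero_trans`.
* `of_finite`: `A = ⊥`, `Subgroup.relIndex_bot_left`.
* `of_index`: `A = N` (`N ≤ K`).
* `iInf`: choose `A i`; take `K ⊓ ⨅ i, A i`, `Subgroup.relIndex_iInf_ne_zero`.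
* `conj`: take the image of `A` (`Subgroup.relIndex_map_map_of_injective`).
* `max_mono`, `max_map`: preimage of a subgroup of the image; the image of a finitely generated group is
  finitely generated (`Subgroup.FG.map` or similar).
* `exists_maximal_subgroup`: ascending chains of subgroups of `G` stabilise (the union of a chain is
  finitely generated), so a nonempty set of subgroups has a maximal element (e.g. via
  `wellFoundedGT`/`RelEmbedding.wellFounded_iff_isEmpty`, or Zorn: `zorn_le_nonempty₀`; a chain has an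
  upper bound: the directed supremum is finitely generated, so its generators lie in one member).
-/

set_option autoImplicit false

namespace H85.TA

variable {Γ : Type*} [Group Γ]

theorem VA.mono_left {K K' N : Subgroup Γ} (h : VA K N) (hK : K' ≤ K) : VA K' N := by
  obtain ⟨A, hA, hi, hc⟩ := h
  refine ⟨A ⊓ K', inf_le_right, ?_, fun a ha b hb => hc a ha.1 b hb.1⟩
  rw [Subgroup.inf_relIndex_right]
  exact fun h0 => hi (Subgroup.relIndex_eq_zero_of_le_right hK h0)

theorem VA.mono_right {K N N' : Subgroup Γ} (h : VA K N) (hN : N ≤ N') : VA K N' := by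
  obtain ⟨A, hA, hi, hc⟩ := h
  exact ⟨A, hA, hi, fun a ha b hb => hN (hc a ha b hb)⟩

theorem VA.of_relIndex {K K' N : Subgroup Γ} (h : VA K' N) (hK : K' ≤ K) (hi : K'.relIndex K ≠ 0) :
    VA K N := by
  obtain ⟨A, hA, hi', hc⟩ := h
  exact ⟨A, hA.trans hK, Subgroup.relIndex_ne_zero_trans hi' hi, hc⟩

theorem VA.of_finite {K N : Subgroup Γ} (hK : (K : Set Γ).Finite) : VA K N := by
  have : Finite K := hK.to_subtype
  refine ⟨⊥, bot_le, ?_, ?_⟩
  · rw [Subgroup.relIndex_bot_left]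
    exact Nat.card_pos.ne'
  · intro a ha b hb
    rw [Subgroup.mem_bot.1 ha, Subgroup.mem_bot.1 hb]
    simp

theorem VA.of_index {K N : Subgroup Γ} (hN : N ≤ K) (hi : N.relIndex K ≠ 0) : VA K N :=
  ⟨N, hN, hi, fun _ ha _ hb => N.mul_mem (N.mul_mem (N.mul_mem ha hb) (N.inv_mem ha)) (N.inv_mem hb)⟩

theorem VA.iInf {ι : Type*} [Finite ι] {K : Subgroup Γ} {N : ι → Subgroup Γ}
    (h : ∀ i, VA K (N i)) : VA K (⨅ i, N i) := by
  choose A hA hi hc using h
  refine ⟨K ⊓ ⨅ i, A i, inf_le_left, ?_, ?_⟩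
  · refine Subgroup.relIndex_inf_ne_zero ?_ (Subgroup.relIndex_iInf_ne_zero hi)
    rw [Subgroup.relIndex_self]
    exact one_ne_zero
  · intro a ha b hb
    have ha1 := (Subgroup.mem_inf.1 ha).2
    have hb1 := (Subgroup.mem_inf.1 hb).2
    rw [Subgroup.mem_iInf] at ha1 hb1 ⊢
    exact fun i => hc i a (ha1 i) b (hb1 i)

theorem VA.inf {K N N' : Subgroup Γ} (h : VA K N) (h' : VA K N') : VA K (N ⊓ N') := by
  obtain ⟨A, hA, hi, hc⟩ := h
  obtain ⟨A', hA', hi', hc'⟩ := h'
  exact ⟨A ⊓ A', inf_le_left.trans hA, Subgroup.relIndex_inf_ne_zero hi hi',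
    fun a ha b hb => ⟨hc a ha.1 b hb.1, hc' a ha.2 b hb.2⟩⟩

/-- `K'` and `N'` are conjugate to `K` and `N` -/
theorem VA.conj {K N K' N' : Subgroup Γ} (h : VA K N) (g : Γ)
    (hK : ∀ x, x ∈ K' ↔ g⁻¹ * x * g ∈ K) (hN : ∀ x ∈ N, g * x * g⁻¹ ∈ N') : VA K' N' := by
  obtain ⟨A, hA, hi, hc⟩ := h
  let f : Γ →* Γ := (MulAut.conj g).toMonoidHom
  have hf : ∀ x, f x = g * x * g⁻¹ := fun x => rfl
  have hK' : K' = K.map f := by
    ext x
    rw [hK]
    constructor
    · intro hx
      refine ⟨g⁻¹ * x * g, hx, ?_⟩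
      rw [hf]
      group
    · rintro ⟨y, hy, rfl⟩
      have h1 : g⁻¹ * f y * g = y := by
        rw [hf]
        group
      rw [h1]
      exact hy
  refine ⟨A.map f, ?_, ?_, ?_⟩
  · rw [hK']
    exact Subgroup.map_mono hA
  · rw [hK', Subgroup.relIndex_map_map_of_injective A K (MulAut.conj g).injective]
    exact hi
  · rintro _ ⟨a, ha, rfl⟩ _ ⟨b, hb, rfl⟩
    have h1 : f a * f b * (f a)⁻¹ * (f b)⁻¹ = g * (a * b * a⁻¹ * b⁻¹) * g⁻¹ := by
      rw [← map_inv, ← map_inv, ← map_mul, ← map_mul, ← map_mul, hf]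
    rw [h1]
    exact hN _ (hc a ha b hb)

theorem Max.mono {G H : Subgroup Γ} (h : Max G) (hH : H ≤ G) : Max H := fun L hL => h L (hL.trans hH)

theorem fg_map {Γ' : Type*} [Group Γ'] {G : Subgroup Γ} (h : G.FG) (f : Γ →* Γ') : (G.map f).FG := by
  rw [Subgroup.fg_iff] at h ⊢
  obtain ⟨S, rfl, hS⟩ := h
  exact ⟨f '' S, (MonoidHom.map_closure f S).symm, hS.image f⟩

theorem Max.map {Γ' : Type*} [Group Γ'] {G : Subgroup Γ} (h : Max G) (f : Γ →* Γ') :
    Max (G.map f) := by
  intro H hH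
  have h1 : H = (G ⊓ H.comap f).map f := by
    ext x
    constructor
    · intro hx
      obtain ⟨y, hy, rfl⟩ := hH hx
      exact ⟨y, ⟨hy, hx⟩, rfl⟩
    · rintro ⟨y, hy, rfl⟩
      exact hy.2
  rw [h1]
  exact fg_map (h _ inf_le_left) f

theorem Max.exists_maximal {ι : Type*} [Nonempty ι] {G : Subgroup Γ} (h : Max G)
    (F : ι → Subgroup Γ) (hF : ∀ i, F i ≤ G) : ∃ i, ∀ j, F i ≤ F j → F j = F i := by
  by_contra hcon
  push Not at hcon
  choose e he using hcon
  obtain ⟨i₀⟩ := ‹Nonempty ι›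
  let I : ℕ → ι := fun n => Nat.rec i₀ (fun _ i => e i) n
  have hI : ∀ n, I (n + 1) = e (I n) := fun n => rfl
  have hmono : Monotone fun n => F (I n) := monotone_nat_of_le_succ fun n => by
    rw [hI]
    exact (he (I n)).1
  have hdir : Directed (· ≤ ·) fun n => F (I n) := hmono.directed_le
  obtain ⟨S, hS⟩ := h (⨆ n, F (I n)) (iSup_le fun n => hF _)
  have h1 : ∀ s ∈ S, ∃ n, s ∈ F (I n) := by
    intro s hs
    have h2 : s ∈ ⨆ n, F (I n) := by
      rw [← hS]
      exact Subgroup.subset_closure hs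
    rwa [Subgroup.mem_iSup_of_directed hdir] at h2
  choose! m hm using h1
  have h3 : (⨆ n, F (I n)) ≤ F (I (S.sup m)) := by
    rw [← hS, Subgroup.closure_le]
    intro s hs
    exact hmono (Finset.le_sup (f := m) hs) (hm s hs)
  have h4 : F (I (S.sup m + 1)) ≤ F (I (S.sup m)) :=
    (le_iSup (fun n => F (I n)) (S.sup m + 1)).trans h3
  rw [hI] at h4
  exact (he (I (S.sup m))).2 (le_antisymm h4 (he (I (S.sup m))).1)

/-- the maximum condition in terms of the subgroups of the type `G` -/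
theorem max_of_fg {G : Subgroup Γ} (h : ∀ H : Subgroup G, H.FG) : Max G := by
  intro H hH
  have h1 := fg_map (h (H.subgroupOf G)) G.subtype
  rwa [Subgroup.subgroupOf_map_subtype, inf_eq_left.2 hH] at h1

end H85.TA
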