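import Pool.Agent.H85.TA.Gr2
import Pool.Agent.H85.TA.Gr4
import Pool.Agent.H85.TA.Va

/-!
# [H85 TA GR5] groups with thin sets are virtually cyclic, relative version, 60-100 lines

* `virtually_cyclic`: if `Q` is finite take `x = 1`. If there is `x` of infinite order: if `zpowers x` has infinite index,
  `quadratic_of_cosets` contradicts `no_quadratic`. If `Q` is infinite and torsion, `quadratic_of_torsion` does.
* `va_of_sets`: `Q = H ⧸ (N.subgroupOf H)` (normal by `hnorm`), `S'` = the image of `S` (as elements of `H`), it generates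
  `Q`. For `c` take `A` from `h c`, `A'` its image in `Q`: the map `A → A'` is injective by the third property, so
  `|A'| = |A|`; if `s' * a' ∉ A'` for the classes of `s ∈ S`, `a ∈ A` then `b⁻¹ * (s * a) ∉ N` for all `b ∈ A`. The sum over
  `S'` is at most the sum over `S` (choose for each `s' ∈ S'` a representative `s ∈ S`:
  `Finset.sum_image_le`-type argument), so `c * (bd S' A')^2 < |A'|`. So `zpowers x'` has finite index in `Q`
  for some `x'`; `A₀ = {g ∈ H | class of g is in zpowers x'}` (a map of a comap) has finite relative index in `H`, and its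
  commutators are in `N` as `zpowers x'` is commutative.
-/

set_option autoImplicit false

namespace H85.TA

open Pointwise

theorem virtually_cyclic {Q : Type*} [Group Q] [DecidableEq Q] (S : Finset Q)
    (hS : Subgroup.closure (S : Set Q) = ⊤)
    (h : ∀ c : ℕ, ∃ A : Finset Q, A.Nonempty ∧ c * (bd S A) ^ 2 < A.card) :
    ∃ x : Q, (Subgroup.zpowers x).FiniteIndex := by
  rcases finite_or_infinite Q with hQ | hQ
  · exact ⟨1, inferInstance⟩
  · by_cases hx : ∃ x : Q, ¬ IsOfFinOrder x
    · obtain ⟨x, hx⟩ := hx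
      refine ⟨x, ⟨fun hi => ?_⟩⟩
      obtain ⟨C, hC⟩ := quadratic_of_cosets S hS x hx hi
      obtain ⟨r, hr⟩ := no_quadratic S h C
      exact absurd (hC r) (not_le.2 hr)
    · push Not at hx
      obtain ⟨r, hr⟩ := no_quadratic S h 2
      exact absurd (quadratic_of_torsion S hS hx r) (not_le.2 hr)

theorem sum_image_le' {α β : Type*} [DecidableEq α] [DecidableEq β] (S : Finset α) (q : α → β)
    (f : β → ℕ) : ∑ b ∈ S.image q, f b ≤ ∑ a ∈ S, f (q a) := by
  induction S using Finset.induction with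
  | empty => simp
  | insert a S ha ih =>
    rw [Finset.image_insert, Finset.sum_insert ha]
    by_cases hq : q a ∈ S.image q
    · rw [Finset.insert_eq_of_mem hq]
      exact ih.trans (Nat.le_add_left _ _)
    · rw [Finset.sum_insert hq]
      exact Nat.add_le_add_left ih _

open Classical in
theorem va_of_sets {Γ : Type*} [Group Γ] (H N : Subgroup Γ) (hN : N ≤ H)
    (hnorm : ∀ h ∈ H, ∀ n ∈ N, h * n * h⁻¹ ∈ N) (S : Finset Γ)
    (hS : Subgroup.closure (S : Set Γ) = H)
    (h : ∀ c : ℕ, ∃ A : Finset Γ, A.Nonempty ∧ (∀ a ∈ A, a ∈ H) ∧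
      (∀ a ∈ A, ∀ b ∈ A, a⁻¹ * b ∈ N → a = b) ∧
      c * (∑ s ∈ S, (A.filter fun a => ∀ b ∈ A, b⁻¹ * (s * a) ∉ N).card) ^ 2 < A.card) :
    VA H N := by
  subst hS
  have hnormal : (N.subgroupOf (Subgroup.closure (S : Set Γ))).Normal := by
    refine ⟨fun n hn g => ?_⟩
    exact hnorm g.1 g.2 n.1 hn
  let π : Subgroup.closure (S : Set Γ) →*
      Subgroup.closure (S : Set Γ) ⧸ N.subgroupOf (Subgroup.closure (S : Set Γ)) :=
    QuotientGroup.mk' _
  let q : Γ → Subgroup.closure (S : Set Γ) ⧸ N.subgroupOf (Subgroup.closure (S : Set Γ)) :=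
    fun g => if hg : g ∈ Subgroup.closure (S : Set Γ) then π ⟨g, hg⟩ else 1
  have hq : ∀ (g : Γ) (hg : g ∈ Subgroup.closure (S : Set Γ)), q g = π ⟨g, hg⟩ := fun g hg =>
    dif_pos hg
  have hSm : ∀ s ∈ S, s ∈ Subgroup.closure (S : Set Γ) := fun s hs => Subgroup.subset_closure hs
  have hqeq : ∀ (a b : Γ) (ha : a ∈ Subgroup.closure (S : Set Γ))
      (hb : b ∈ Subgroup.closure (S : Set Γ)), q a = q b ↔ a⁻¹ * b ∈ N := by
    intro a b ha hb
    rw [hq a ha, hq b hb]
    change ((⟨a, ha⟩ : Subgroup.closure (S : Set Γ)) :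
      Subgroup.closure (S : Set Γ) ⧸ N.subgroupOf (Subgroup.closure (S : Set Γ))) =
      ((⟨b, hb⟩ : Subgroup.closure (S : Set Γ)) :
      Subgroup.closure (S : Set Γ) ⧸ N.subgroupOf (Subgroup.closure (S : Set Γ))) ↔ _
    rw [QuotientGroup.eq, Subgroup.mem_subgroupOf]
    rfl
  have hqmul : ∀ (a b : Γ) (_ : a ∈ Subgroup.closure (S : Set Γ))
      (_ : b ∈ Subgroup.closure (S : Set Γ)), q (a * b) = q a * q b := by
    intro a b ha hb
    rw [hq a ha, hq b hb, hq (a * b) (Subgroup.mul_mem _ ha hb), ← map_mul]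
    rfl
  -- the image generates
  have hgen : Subgroup.closure ((S.image q : Finset _) : Set (Subgroup.closure (S : Set Γ) ⧸
      N.subgroupOf (Subgroup.closure (S : Set Γ)))) = ⊤ := by
    have h1 : ((S.image q : Finset _) : Set _) =
        π '' (((↑) : Subgroup.closure (S : Set Γ) → Γ) ⁻¹' (S : Set Γ)) := by
      ext x
      rw [Finset.coe_image]
      constructor
      · rintro ⟨s, hs, rfl⟩
        exact ⟨⟨s, hSm s hs⟩, hs, (hq s (hSm s hs)).symm⟩
      · rintro ⟨⟨s, hs'⟩, hs, rfl⟩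
        exact ⟨s, hs, hq s hs'⟩
    rw [h1, ← MonoidHom.map_closure, Subgroup.closure_closure_coe_preimage, ← MonoidHom.range_eq_map]
    exact MonoidHom.range_eq_top.2 (QuotientGroup.mk'_surjective _)
  obtain ⟨x, hx⟩ := virtually_cyclic (S.image q) hgen (by
    intro c
    obtain ⟨A, hne, hAm, hinj, hlt⟩ := h c
    refine ⟨A.image q, hne.image q, ?_⟩
    have hcard : (A.image q).card = A.card := by
      refine Finset.card_image_of_injOn ?_
      intro a ha b hb hab
      exact hinj a ha b hb ((hqeq a b (hAm a ha) (hAm b hb)).1 hab)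
    rw [hcard]
    refine lt_of_le_of_lt (Nat.mul_le_mul_left c (Nat.pow_le_pow_left ?_ 2)) hlt
    refine (sum_image_le' S q _).trans (Finset.sum_le_sum fun s hs => ?_)
    refine (Finset.card_le_card ?_).trans (Finset.card_image_le (f := q))
    intro y hy
    rw [Finset.mem_filter] at hy
    obtain ⟨hy1, hy2⟩ := hy
    obtain ⟨a, ha, rfl⟩ := Finset.mem_image.1 hy1
    refine Finset.mem_image.2 ⟨a, Finset.mem_filter.2 ⟨ha, fun b hb hbn => hy2 ?_⟩, rfl⟩
    rw [← hqmul s a (hSm s hs) (hAm a ha)]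
    refine Finset.mem_image.2 ⟨b, hb, ?_⟩
    exact (hqeq b (s * a) (hAm b hb) (Subgroup.mul_mem _ (hSm s hs) (hAm a ha))).2 hbn)
  refine ⟨((Subgroup.zpowers x).comap π).map (Subgroup.closure (S : Set Γ)).subtype, ?_, ?_, ?_⟩
  · rintro _ ⟨y, -, rfl⟩
    exact y.2
  · have h1 : (((Subgroup.zpowers x).comap π).map (Subgroup.closure (S : Set Γ)).subtype).relIndex
        ((⊤ : Subgroup (Subgroup.closure (S : Set Γ))).map (Subgroup.closure (S : Set Γ)).subtype) ≠
        0 := by
      rw [Subgroup.relIndex_map_map_of_injective _ _ (Subgroup.subtype_injective _),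
        Subgroup.relIndex_top_right, Subgroup.index_comap_of_surjective _
        (QuotientGroup.mk'_surjective _)]
      exact hx.index_ne_zero
    rwa [← MonoidHom.range_eq_map, Subgroup.range_subtype] at h1
  · rintro _ ⟨a, ha, rfl⟩ _ ⟨b, hb, rfl⟩
    obtain ⟨k, hk⟩ := Subgroup.mem_zpowers_iff.1 (Subgroup.mem_comap.1 ha)
    obtain ⟨l, hl⟩ := Subgroup.mem_zpowers_iff.1 (Subgroup.mem_comap.1 hb)
    have h1 : π (a * b * a⁻¹ * b⁻¹) = 1 := by
      rw [map_mul, map_mul, map_mul, map_inv, map_inv, ← hk, ← hl, ← zpow_add, ← zpow_neg,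
        ← zpow_neg, ← zpow_add, ← zpow_add]
      have : k + l + -k + -l = 0 := by ring
      rw [this, zpow_zero]
    have h2 : a * b * a⁻¹ * b⁻¹ ∈ N.subgroupOf (Subgroup.closure (S : Set Γ)) :=
      (QuotientGroup.eq_one_iff _).1 h1
    exact h2

end H85.TA
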