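import Pool.Agent.H85.TA.Defs2
import Pool.Agent.H85.TA.Va

/-!
# [H85 TA SEC] the groups of the sections at a vertex, 60-100 lines

On the stabiliser of the word `v` the map `g ↦ sec g v` is a homomorphism (`sec_mul`); you may define it
on `MulAction.stabilizer (TreeAut X) v` or on `K` itself (when `K` fixes `v`).
* `max_secSub`: `secSub K v` is the image under this homomorphism of the part of `K` which fixes `v`
  (or directly: for `H ≤ secSub K v` the preimage `{g ∈ K | g • v = v ∧ sec g v ∈ H}` is finitely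
  generated, and the sections of its generators generate `H`).
* `va_of_sec`: `A = {g ∈ K | sec g v ∈ A'}` for `A' ≤ secSub K v` abelian of finite relative index
  (`Subgroup.relIndex_comap_ne_zero`), a commutator `c` of `A` fixes `v` and has `sec c v = 1`.
* `fin_of_sec`: if `sec g v = sec h v` then `h⁻¹ * g ∈ Fx v`; so `Fx v` has finite index in `K`.
* `fx_mono`, `fx_prefix`: `fix_append`, `sec_append_one`. `fx_conj`: `sec_mul`, `sec_inv`.
* `ls_finiteIndex`: `TreeAut X` acts on the finite set of the words of length `n`, `LS X n` is the kernel.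
* `ls_inf`: `Finite K` and `X` finite: some level `n` with `K ⊓ LS X n = ⊥`: for every `g ≠ 1` in `K` there
  is a word `w` with `g • w ≠ w`; if `g ∈ LS X n` then `g` fixes all words of length at most `n`
  (they are prefixes of words of length `n`, `fix_of_append`, `X` nonempty).
-/

set_option autoImplicit false

namespace H85.TA

variable {X : Type*}

/-- the homomorphism of the sections at a fixed vertex -/
def secHom (K : Subgroup (TreeAut X)) (v : List X) (hK : ∀ g ∈ K, g • v = v) : K →* TreeAut X where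
  toFun g := sec g.1 v
  map_one' := sec_one v
  map_mul' a b := by
    change sec (a.1 * b.1) v = _
    rw [sec_mul, hK b.1 b.2]

theorem secSub_eq_map {K : Subgroup (TreeAut X)} {v : List X} (hK : ∀ g ∈ K, g • v = v) :
    secSub K v = (⊤ : Subgroup K).map (secHom K v hK) := by
  ext t
  constructor
  · rintro ⟨g, hg, -, rfl⟩
    exact ⟨⟨g, hg⟩, trivial, rfl⟩
  · rintro ⟨⟨g, hg⟩, -, rfl⟩
    exact ⟨g, hg, hK g hg, rfl⟩

theorem secSub_inf (K : Subgroup (TreeAut X)) (v : List X) :
    secSub K v = secSub (K ⊓ MulAction.stabilizer (TreeAut X) v) v := by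
  ext t
  constructor
  · rintro ⟨g, hg, h1, h2⟩
    exact ⟨g, ⟨hg, MulAction.mem_stabilizer_iff.2 h1⟩, h1, h2⟩
  · rintro ⟨g, hg, h1, h2⟩
    exact ⟨g, hg.1, h1, h2⟩

theorem max_secSub {K : Subgroup (TreeAut X)} (h : Max K) (v : List X) : Max (secSub K v) := by
  have hK : ∀ g ∈ K ⊓ MulAction.stabilizer (TreeAut X) v, g • v = v := fun g hg =>
    MulAction.mem_stabilizer_iff.1 (Subgroup.mem_inf.1 hg).2
  rw [secSub_inf, secSub_eq_map hK]
  refine Max.map ?_ _
  intro H _
  have h1 : (H.map (K ⊓ MulAction.stabilizer (TreeAut X) v).subtype).FG := by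
    refine h _ ?_
    rintro _ ⟨x, -, rfl⟩
    exact x.2.1
  have h2 : Group.FG (H.map (K ⊓ MulAction.stabilizer (TreeAut X) v).subtype) :=
    (Group.fg_iff_subgroup_fg _).2 h1
  have h3 : Group.FG H := by
    have e := H.equivMapOfInjective (K ⊓ MulAction.stabilizer (TreeAut X) v).subtype
      (Subgroup.subtype_injective _)
    exact Group.fg_of_surjective (f := e.symm.toMonoidHom) e.symm.surjective
  exact (Group.fg_iff_subgroup_fg _).1 h3

theorem va_of_sec {K : Subgroup (TreeAut X)} {v : List X} (hK : ∀ g ∈ K, g • v = v)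
    (h : VA (secSub K v) ⊥) : VA K (Fx v) := by
  obtain ⟨A, hA, hi, hc⟩ := h
  refine ⟨(A.comap (secHom K v hK)).map K.subtype, ?_, ?_, ?_⟩
  · rintro _ ⟨x, -, rfl⟩
    exact x.2
  · have h1 : ((A.comap (secHom K v hK)).map K.subtype).relIndex ((⊤ : Subgroup K).map K.subtype) ≠
        0 := by
      rw [Subgroup.relIndex_map_map_of_injective _ _ K.subtype_injective, Subgroup.relIndex_comap,
        ← secSub_eq_map hK]
      exact hi
    rwa [← MonoidHom.range_eq_map, Subgroup.range_subtype] at h1
  · rintro _ ⟨a, ha, rfl⟩ _ ⟨b, hb, rfl⟩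
    have h1 := Subgroup.mem_bot.1 (hc _ ha _ hb)
    rw [← map_inv, ← map_inv, ← map_mul, ← map_mul, ← map_mul] at h1
    exact ⟨hK _ (a * b * a⁻¹ * b⁻¹).2, h1⟩

theorem fin_of_sec {K : Subgroup (TreeAut X)} {v : List X} (hK : ∀ g ∈ K, g • v = v)
    (h : (secSub K v : Set (TreeAut X)).Finite) : (Fx v).relIndex K ≠ 0 := by
  have h1 : (Fx v).subgroupOf K = (secHom K v hK).ker := by
    ext g
    rw [Subgroup.mem_subgroupOf, MonoidHom.mem_ker]
    exact ⟨fun hg => hg.2, fun hg => ⟨hK _ g.2, hg⟩⟩
  rw [Subgroup.relIndex, h1, Subgroup.index_ker, MonoidHom.range_eq_map, ← secSub_eq_map hK]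
  have : Finite (secSub K v) := h.to_subtype
  exact Nat.card_pos.ne'

theorem fx_mono (u v : List X) : Fx u ≤ Fx (u ++ v) :=
  fun _ hg => ⟨fix_append hg.1 hg.2 v, sec_append_one hg.2 v⟩

theorem fx_prefix {u w : List X} (h : u <+: w) : Fx u ≤ Fx w := by
  obtain ⟨v, rfl⟩ := h
  exact fx_mono u v

theorem fx_conj {v : List X} {x : TreeAut X} (hx : x ∈ Fx v) (g : TreeAut X) :
    g * x * g⁻¹ ∈ Fx (g • v) := by
  refine ⟨?_, ?_⟩
  · rw [mul_smul, mul_smul, inv_smul_smul, hx.1]
  · rw [sec_mul, sec_mul, inv_smul_smul, hx.1, hx.2, mul_one, sec_inv, mul_inv_cancel]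

theorem ls_normal (n : ℕ) : (LS X n).Normal := by
  refine ⟨fun x hx g w hw => ?_⟩
  rw [mul_smul, mul_smul, hx (g⁻¹ • w) (by rw [length_app, hw]), smul_inv_smul]

theorem ls_finiteIndex [Finite X] (n : ℕ) : (LS X n).FiniteIndex := by
  have hfin : Finite {w : List X // w.length = n} := (finite_words n).to_subtype
  let f : TreeAut X →* Equiv.Perm {w : List X // w.length = n} :=
    { toFun := fun g =>
        { toFun := fun w => ⟨g • w.1, by rw [length_app, w.2]⟩
          invFun := fun w => ⟨g⁻¹ • w.1, by rw [length_app, w.2]⟩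
          left_inv := fun w => Subtype.ext (inv_smul_smul g w.1)
          right_inv := fun w => Subtype.ext (smul_inv_smul g w.1) }
      map_one' := Equiv.ext fun w => Subtype.ext (one_smul (TreeAut X) w.1)
      map_mul' := fun a b => Equiv.ext fun w => Subtype.ext (mul_smul a b w.1) }
  have h1 : LS X n = f.ker := by
    ext g
    rw [MonoidHom.mem_ker]
    constructor
    · intro hg
      exact Equiv.ext fun w => Subtype.ext (hg w.1 w.2)
    · intro hg w hw
      have h2 := congrArg (fun e : Equiv.Perm {w : List X // w.length = n} => (e ⟨w, hw⟩).1) hg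
      exact h2
  rw [h1]
  exact Subgroup.finiteIndex_ker f

theorem ls_relIndex [Finite X] (n : ℕ) (K : Subgroup (TreeAut X)) : (LS X n).relIndex K ≠ 0 := by
  have h1 := ls_finiteIndex (X := X) n
  have h2 := ls_normal (X := X) n
  intro h0
  have h3 := Subgroup.relIndex_dvd_index_of_normal (LS X n) K
  rw [h0] at h3
  exact h1.index_ne_zero (Nat.eq_zero_of_zero_dvd h3)

theorem ls_short [Nonempty X] {n : ℕ} {g : TreeAut X} (hg : g ∈ LS X n) {w : List X}
    (hw : w.length ≤ n) : g • w = w := by
  obtain ⟨x⟩ := ‹Nonempty X›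
  have h1 : (w ++ List.replicate (n - w.length) x).length = n := by
    rw [List.length_append, List.length_replicate]
    omega
  exact fix_of_append (hg _ h1)

theorem ls_inf [Finite X] [Nonempty X] {K : Subgroup (TreeAut X)}
    (hK : (K : Set (TreeAut X)).Finite) : ∃ n, ∀ g ∈ K, g ∈ LS X n → g = 1 := by
  have h1 : ∀ g : TreeAut X, ∃ n : ℕ, g ≠ 1 → ∃ w : List X, w.length ≤ n ∧ g • w ≠ w := by
    intro g
    by_cases hg : g = 1
    · exact ⟨0, fun h => absurd hg h⟩
    · have h2 : ∃ w : List X, g • w ≠ w := by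
        by_contra hcon
        push Not at hcon
        exact hg (eq_one_of_app hcon)
      obtain ⟨w, hw⟩ := h2
      exact ⟨w.length, fun _ => ⟨w, le_rfl, hw⟩⟩
  choose m hm using h1
  obtain ⟨n, hn⟩ := (hK.image m).bddAbove
  refine ⟨n, fun g hg hgn => ?_⟩
  by_contra hne
  obtain ⟨w, hw, hgw⟩ := hm g hne
  exact hgw (ls_short hgn (hw.trans (hn ⟨g, hg, rfl⟩)))

end H85.TA
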