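import Pool.Agent.H85.TA.Iso
import Pool.Agent.H85.TA.Gr5
import Pool.Agent.H85.TA.Sec

/-!
# [H85 TA CORE] slow orbit trees: the group is virtually abelian on the orbit closure, 70-110 lines

* `va_vertex`: `H = G ⊓ stabilizer v`, `N = KF G η v`. `N ≤ H`: `v ∈ T G η n₀` is below itself. Normality: for `h ∈ H`,
  `k ∈ N`, `u` below `v` in the orbit tree: `h⁻¹ • u` is below `h⁻¹ • v = v` and in the tree, so fixed by `k`. `H` is generated by
  a finite set `S` (`hmax`), `iso_sets` gives the hypothesis of `va_of_sets`.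
* `core`: take `v` from `exists_top_vertex`, `n₀` its level. For `u ∈ T G η n₀` there is `g ∈ G` with `g • v = u`
  (`T_trans`); `G ⊓ stabilizer u` is the conjugate of `G ⊓ stabilizer v` by `g` and `KF G η u` contains the conjugate of
  `KF G η v`, so `VA (G ⊓ stabilizer u) (KF G η u)` (`VA.conj`). `K` = the elements of `G` which fix all `u ∈ T G η n₀`
  has finite relative index in `G` (finite orbit: each `stabilizer u` has finite index relative to `G` because the orbit of
  `u` under `G` is in the finite set `T G η n₀` (`MulAction.orbit` / `Subgroup.relIndex_iInf_ne_zero` over the finite type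
  `T G η n₀`)). By `VA.mono_left` and `VA.iInf` (index type the subtype of `T G η n₀`, finite) `VA K (⨅ u, KF G η u)`, and
  `K ⊓ ⨅ u, KF G η u ≤ OF G η`: an element which fixes `T G η n₀` pointwise and everything below it fixes the whole orbit
  tree (a vertex of level `m ≤ n₀` is a prefix of one of level `n₀`, `T_ext`, `fix_of_prefix`; a vertex of level `m ≥ n₀` is
  below its prefix `take n₀`, `T_take`). The commutators of `A ≤ K` are in `K`. Then `VA.of_relIndex`.
-/

set_option autoImplicit false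

namespace H85.TA

variable {X : Type*}

theorem va_vertex {G : Subgroup (TreeAut X)} (hmax : Max G) {η : ℕ → X}
    (hfin : ∀ n, (T G η n).Finite) (hslow : Slow G η) {n₀ : ℕ} {v : List X} (hvT : v ∈ T G η n₀)
    (hv : ∀ m, ∀ w ∈ T G η m, v <+: w → KF G η w = KF G η v) :
    VA (G ⊓ MulAction.stabilizer (TreeAut X) v) (KF G η v) := by
  obtain ⟨S, hS⟩ := hmax (G ⊓ MulAction.stabilizer (TreeAut X) v) inf_le_left
  have hmem : ∀ s ∈ S, s ∈ G ∧ s • v = v := by
    intro s hs
    have h : s ∈ G ⊓ MulAction.stabilizer (TreeAut X) v := by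
      rw [← hS]
      exact Subgroup.subset_closure hs
    exact ⟨h.1, MulAction.mem_stabilizer_iff.1 h.2⟩
  refine va_of_sets _ _ ?_ ?_ S hS fun c => ?_
  · intro g hg
    exact ⟨hg.1, MulAction.mem_stabilizer_iff.2 (hg.2 n₀ v hvT (List.prefix_refl v))⟩
  · intro h hh k hk
    have h1 : h • v = v := MulAction.mem_stabilizer_iff.1 hh.2
    refine ⟨G.mul_mem (G.mul_mem hh.1 hk.1) (G.inv_mem hh.1), fun n u hu hvu => ?_⟩
    have h2 : h⁻¹ • v = v := by rw [inv_smul_eq_iff, h1]
    have h3 := prefix_smul h⁻¹ hvu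
    rw [h2] at h3
    rw [mul_smul, mul_smul, hk.2 n (h⁻¹ • u) (T_smul (G.inv_mem hh.1) hu) h3, smul_inv_smul]
  · obtain ⟨A, h1, h2, h3, h4⟩ := iso_sets hfin hslow hvT hv S hmem c
    exact ⟨A, h1, fun a ha => ⟨(h2 a ha).1, MulAction.mem_stabilizer_iff.2 (h2 a ha).2⟩, h3, h4⟩

theorem core {G : Subgroup (TreeAut X)} (hmax : Max G) {η : ℕ → X}
    (hfin : ∀ n, (T G η n).Finite) (hslow : Slow G η) : VA G (OF G η) := by
  obtain ⟨n₀, v, hvT, hv⟩ := exists_top_vertex hmax η
  have hva := va_vertex hmax hfin hslow hvT hv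
  have hfinT : Finite (T G η n₀) := (hfin n₀).to_subtype
  -- conjugates
  have h1 : ∀ u : T G η n₀,
      VA (G ⊓ MulAction.stabilizer (TreeAut X) u.1) (KF G η u.1) := by
    rintro ⟨u, hu⟩
    obtain ⟨g, hg, hgv⟩ := T_trans hvT hu
    refine hva.conj g ?_ ?_
    · intro x
      simp only [Subgroup.mem_inf, MulAction.mem_stabilizer_iff]
      constructor
      · rintro ⟨hx, hxu⟩
        refine ⟨G.mul_mem (G.mul_mem (G.inv_mem hg) hx) hg, ?_⟩
        rw [mul_smul, mul_smul, hgv, hxu, inv_smul_eq_iff, hgv]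
      · rintro ⟨hx, hxv⟩
        constructor
        · have h2 := G.mul_mem (G.mul_mem hg hx) (G.inv_mem hg)
          have h3 : g * (g⁻¹ * x * g) * g⁻¹ = x := by group
          rwa [h3] at h2
        · rw [mul_smul, mul_smul, hgv, inv_smul_eq_iff, hgv] at hxv
          exact hxv
    · intro x hx
      refine ⟨G.mul_mem (G.mul_mem hg hx.1) (G.inv_mem hg), fun n w hw huw => ?_⟩
      have h3 := prefix_smul g⁻¹ huw
      have h4 : g⁻¹ • u = v := by rw [inv_smul_eq_iff, hgv]
      rw [h4] at h3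
      rw [mul_smul, mul_smul, hx.2 n (g⁻¹ • w) (T_smul (G.inv_mem hg) hw) h3, smul_inv_smul]
  -- the stabilisers have finite index
  have h2 : ∀ u : T G η n₀, (MulAction.stabilizer (TreeAut X) u.1).relIndex G ≠ 0 := by
    rintro ⟨u, hu⟩
    have h3 : (MulAction.stabilizer (TreeAut X) u).subgroupOf G = MulAction.stabilizer G u := by
      ext g
      rw [Subgroup.mem_subgroupOf, MulAction.mem_stabilizer_iff, MulAction.mem_stabilizer_iff]
      rfl
    rw [Subgroup.relIndex, h3, MulAction.index_stabilizer]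
    have h4 : MulAction.orbit G u ⊆ T G η n₀ := by
      rintro _ ⟨g, rfl⟩
      exact T_smul g.2 hu
    have h5 : (MulAction.orbit G u).Nonempty := MulAction.nonempty_orbit u
    exact (Set.ncard_pos ((hfin n₀).subset h4)).2 h5 |>.ne'
  let K : Subgroup (TreeAut X) := G ⊓ ⨅ u : T G η n₀, MulAction.stabilizer (TreeAut X) u.1
  have hK : K ≤ G := inf_le_left
  have hKi : K.relIndex G ≠ 0 := by
    refine Subgroup.relIndex_inf_ne_zero ?_ (Subgroup.relIndex_iInf_ne_zero h2)
    rw [Subgroup.relIndex_self]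
    exact one_ne_zero
  have hKle : ∀ u : T G η n₀, K ≤ G ⊓ MulAction.stabilizer (TreeAut X) u.1 := fun u =>
    le_inf inf_le_left (inf_le_right.trans (iInf_le _ u))
  have h6 : VA K (⨅ u : T G η n₀, KF G η u.1) := VA.iInf fun u => (h1 u).mono_left (hKle u)
  obtain ⟨A, hA, hi, hc⟩ := h6
  refine VA.of_relIndex (K' := K) ⟨A, hA, hi, fun a ha b hb => ?_⟩ hK hKi
  have h7 := hc a ha b hb
  rw [Subgroup.mem_iInf] at h7
  refine ⟨(h7 ⟨v, hvT⟩).1, fun n u hu => ?_⟩
  rcases le_total n n₀ with h | h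
  · obtain ⟨w, hw, huw⟩ := T_ext h hu
    exact fix_of_prefix huw ((h7 ⟨w, hw⟩).2 n₀ w hw (List.prefix_refl w))
  · exact (h7 ⟨u.take n₀, T_take h hu⟩).2 n u hu (List.take_prefix _ _)

end H85.TA
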