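import Mathlib

/-!
# Automorphisms of the rooted tree of words (MP_099948_al)

* `treeAut X`: the group of the automorphisms of the rooted tree of the finite words over the alphabet
  `X` (bijections of the set of words which preserve the length and the prefixes);
  `TreeAut X` is the corresponding type.
* `sec g w`: the section of `g` at `w`: `g (w v) = g (w) (sec g w) (v)`.
* `FiniteState g`: `g` has only finitely many sections (`g` is given by a finite automaton).
* `act g n`: the number of words `w` of length `n` with `sec g w ≠ 1` (the activity of `g`).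
* `PolyActivity g`: the activity is bounded by a polynomial in `n`.
-/

set_option autoImplicit false

namespace H85.TA

/-- the automorphism group of the rooted tree of the finite words over `X` -/
def treeAut (X : Type*) : Subgroup (Equiv.Perm (List X)) where
  carrier := {g | (∀ w, (g w).length = w.length) ∧ ∀ u v, g u <+: g (u ++ v)}
  mul_mem' := by
    rintro a b ⟨ha, ha'⟩ ⟨hb, hb'⟩
    refine ⟨fun w => ?_, fun u v => ?_⟩
    · rw [Equiv.Perm.mul_apply, ha, hb]
    · rw [Equiv.Perm.mul_apply, Equiv.Perm.mul_apply]
      obtain ⟨t, ht⟩ := hb' u v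
      rw [← ht]
      exact ha' _ _
  one_mem' := ⟨fun _ => rfl, fun u v => List.prefix_append u v⟩
  inv_mem' := by
    rintro a ⟨ha, ha'⟩
    have hi : ∀ w, a (a⁻¹ w) = w := fun w => a.apply_symm_apply w
    have hl : ∀ w, (a⁻¹ w).length = w.length := by
      intro w
      rw [← ha (a⁻¹ w), hi]
    refine ⟨hl, fun u v => ?_⟩
    have h1 := ha' ((a⁻¹ (u ++ v)).take u.length) ((a⁻¹ (u ++ v)).drop u.length)
    rw [List.take_append_drop, hi] at h1
    have h2 : ((a⁻¹ (u ++ v)).take u.length).length = u.length := by
      rw [List.length_take, hl, List.length_append]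
      omega
    have h3 : a ((a⁻¹ (u ++ v)).take u.length) = u := by
      have h4 : a ((a⁻¹ (u ++ v)).take u.length) =
          (u ++ v).take (a ((a⁻¹ (u ++ v)).take u.length)).length :=
        List.prefix_iff_eq_take.1 h1
      rw [h4, ha, h2, List.take_left]
    have h5 : a⁻¹ u = (a⁻¹ (u ++ v)).take u.length := by
      apply a.injective
      rw [hi, h3]
    rw [h5]
    exact List.take_prefix _ _

/-- the type of the automorphisms of the tree of the words over `X` -/
abbrev TreeAut (X : Type*) : Type _ := ↥(treeAut X)

variable {X : Type*}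

theorem length_app (g : TreeAut X) (w : List X) : (g • w).length = w.length := g.2.1 w

theorem prefix_app (g : TreeAut X) (u v : List X) : g • u <+: g • (u ++ v) := g.2.2 u v

theorem app_append_drop (g : TreeAut X) (u v : List X) :
    g • u ++ (g • (u ++ v)).drop u.length = g • (u ++ v) := by
  obtain ⟨t, ht⟩ := prefix_app g u v
  rw [← ht, ← length_app g u, List.drop_left]

/-- the section of `g` at the word `w` -/
def sec (g : TreeAut X) (w : List X) : TreeAut X :=
  ⟨{ toFun := fun v => (g • (w ++ v)).drop w.length
     invFun := fun v => (g⁻¹ • (g • w ++ v)).drop w.length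
     left_inv := by
      intro v
      change (g⁻¹ • (g • w ++ (g • (w ++ v)).drop w.length)).drop w.length = v
      rw [app_append_drop, inv_smul_smul, List.drop_left]
     right_inv := by
      intro v
      change (g • (w ++ (g⁻¹ • (g • w ++ v)).drop w.length)).drop w.length = v
      have h := app_append_drop g⁻¹ (g • w) v
      rw [inv_smul_smul, length_app] at h
      rw [h, smul_inv_smul, ← length_app g w, List.drop_left] },
   by
    refine ⟨fun v => ?_, fun u v => ?_⟩
    · change ((g • (w ++ v)).drop w.length).length = v.length
      rw [List.length_drop, length_app, List.length_append]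
      omega
    · change (g • (w ++ u)).drop w.length <+: (g • (w ++ (u ++ v))).drop w.length
      have h1 := prefix_app g (w ++ u) v
      rw [List.append_assoc] at h1
      exact h1.drop _⟩

/-- `g` has finitely many sections -/
def FiniteState (g : TreeAut X) : Prop := (Set.range (sec g)).Finite

/-- the number of the words of length `n` at which `g` has a nontrivial section -/
noncomputable def act (g : TreeAut X) (n : ℕ) : ℕ :=
  Set.ncard {w : List X | w.length = n ∧ sec g w ≠ 1}

/-- `g` has polynomial activity -/
def PolyActivity (g : TreeAut X) : Prop := ∃ C d : ℕ, ∀ n, act g n ≤ C * (n + 1) ^ d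

/-- every subgroup of `G` is finitely generated -/
def Max {Γ : Type*} [Group Γ] (G : Subgroup Γ) : Prop := ∀ H : Subgroup Γ, H ≤ G → H.FG

/-- `K` modulo `N` is virtually abelian: a subgroup `A` of finite index in `K` is abelian modulo `N` -/
def VA {Γ : Type*} [Group Γ] (K N : Subgroup Γ) : Prop :=
  ∃ A : Subgroup Γ, A ≤ K ∧ A.relIndex K ≠ 0 ∧ ∀ a ∈ A, ∀ b ∈ A, a * b * a⁻¹ * b⁻¹ ∈ N

/-- the prefix of length `n` of the infinite word `η` -/
def pre (η : ℕ → X) : ℕ → List X
  | 0 => []
  | n + 1 => pre η n ++ [η n]

/-- the cumulative activity is at most `C M ^ d` -/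
def InP (d : ℕ) (g : TreeAut X) : Prop :=
  ∃ C : ℕ, ∀ M, ∑ n ∈ Finset.range M, act g n ≤ C * M ^ d

/-- the pointwise stabiliser of the words of length `n` -/
def LS (X : Type*) (n : ℕ) : Subgroup (TreeAut X) where
  carrier := {g | ∀ w : List X, w.length = n → g • w = w}
  mul_mem' := by
    intro a b ha hb w hw
    rw [mul_smul, hb w hw, ha w hw]
  one_mem' := fun w _ => one_smul _ w
  inv_mem' := by
    intro a ha w hw
    rw [inv_smul_eq_iff, ha w hw]

/-- the stabiliser of the infinite word `η` -/
def RS (η : ℕ → X) : Subgroup (TreeAut X) where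
  carrier := {g | ∀ n, g • pre η n = pre η n}
  mul_mem' := by
    intro a b ha hb n
    rw [mul_smul, hb n, ha n]
  one_mem' := fun n => one_smul _ _
  inv_mem' := by
    intro a ha n
    rw [inv_smul_eq_iff, ha n]

end H85.TA
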