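import Pool.Agent.H85.TA.Basic

/-!
# Further subgroups
-/

set_option autoImplicit false

namespace H85.TA

variable {X : Type*}

/-- the pointwise stabiliser of the subtree below `v` -/
def Fx (v : List X) : Subgroup (TreeAut X) where
  carrier := {g | g • v = v ∧ sec g v = 1}
  mul_mem' := by
    rintro a b ⟨ha, ha'⟩ ⟨hb, hb'⟩
    refine ⟨by rw [mul_smul, hb, ha], ?_⟩
    rw [sec_mul, hb, ha', hb', mul_one]
  one_mem' := ⟨one_smul _ _, sec_one _⟩
  inv_mem' := by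
    rintro a ⟨ha, ha'⟩
    have h : a⁻¹ • v = v := by rw [inv_smul_eq_iff, ha]
    refine ⟨h, ?_⟩
    rw [sec_inv', h, ha', inv_one]

/-- the sections at `v` of the elements of `K` which fix `v` -/
def secSub (K : Subgroup (TreeAut X)) (v : List X) : Subgroup (TreeAut X) where
  carrier := {t | ∃ g ∈ K, g • v = v ∧ sec g v = t}
  mul_mem' := by
    rintro _ _ ⟨a, ha, ha', rfl⟩ ⟨b, hb, hb', rfl⟩
    refine ⟨a * b, K.mul_mem ha hb, by rw [mul_smul, hb', ha'], ?_⟩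
    rw [sec_mul, hb']
  one_mem' := ⟨1, K.one_mem, one_smul _ _, sec_one _⟩
  inv_mem' := by
    rintro _ ⟨a, ha, ha', rfl⟩
    have h : a⁻¹ • v = v := by rw [inv_smul_eq_iff, ha']
    refine ⟨a⁻¹, K.inv_mem ha, h, ?_⟩
    rw [sec_inv', h]

theorem mem_Fx {v : List X} {g : TreeAut X} : g ∈ Fx v ↔ g • v = v ∧ sec g v = 1 := Iff.rfl

theorem mem_secSub {K : Subgroup (TreeAut X)} {v : List X} {t : TreeAut X} :
    t ∈ secSub K v ↔ ∃ g ∈ K, g • v = v ∧ sec g v = t := Iff.rfl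

/-- the level `n` of the orbit tree of the infinite word `η` -/
def T (G : Subgroup (TreeAut X)) (η : ℕ → X) (n : ℕ) : Set (List X) :=
  {w | ∃ g ∈ G, g • pre η n = w}

/-- the elements of `G` which fix all vertices below `w` of the orbit tree of `η` -/
def KF (G : Subgroup (TreeAut X)) (η : ℕ → X) (w : List X) : Subgroup (TreeAut X) where
  carrier := {g | g ∈ G ∧ ∀ n, ∀ u ∈ T G η n, w <+: u → g • u = u}
  mul_mem' := by
    rintro a b ⟨ha, ha'⟩ ⟨hb, hb'⟩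
    exact ⟨G.mul_mem ha hb, fun n u hu hw => by rw [mul_smul, hb' n u hu hw, ha' n u hu hw]⟩
  one_mem' := ⟨G.one_mem, fun _ u _ _ => one_smul _ u⟩
  inv_mem' := by
    rintro a ⟨ha, ha'⟩
    exact ⟨G.inv_mem ha, fun n u hu hw => by rw [inv_smul_eq_iff, ha' n u hu hw]⟩

/-- the elements of `G` which fix all vertices of the orbit tree of `η` -/
def OF (G : Subgroup (TreeAut X)) (η : ℕ → X) : Subgroup (TreeAut X) where
  carrier := {g | g ∈ G ∧ ∀ n, ∀ u ∈ T G η n, g • u = u}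
  mul_mem' := by
    rintro a b ⟨ha, ha'⟩ ⟨hb, hb'⟩
    exact ⟨G.mul_mem ha hb, fun n u hu => by rw [mul_smul, hb' n u hu, ha' n u hu]⟩
  one_mem' := ⟨G.one_mem, fun _ u _ => one_smul _ u⟩
  inv_mem' := by
    rintro a ⟨ha, ha'⟩
    exact ⟨G.inv_mem ha, fun n u hu => by rw [inv_smul_eq_iff, ha' n u hu]⟩

theorem mem_KF {G : Subgroup (TreeAut X)} {η : ℕ → X} {w : List X} {g : TreeAut X} :
    g ∈ KF G η w ↔ g ∈ G ∧ ∀ n, ∀ u ∈ T G η n, w <+: u → g • u = u := Iff.rfl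

theorem mem_OF {G : Subgroup (TreeAut X)} {η : ℕ → X} {g : TreeAut X} :
    g ∈ OF G η ↔ g ∈ G ∧ ∀ n, ∀ u ∈ T G η n, g • u = u := Iff.rfl

/-- the levels of the orbit tree of `η` are large compared with the square of the activity -/
def Slow (G : Subgroup (TreeAut X)) (η : ℕ → X) : Prop :=
  ∀ S : Finset (TreeAut X), (∀ s ∈ S, s ∈ G) → ∀ c n₀ : ℕ, ∃ n ≥ n₀,
    c * (∑ s ∈ S, Set.ncard {w | w ∈ T G η n ∧ sec s w ≠ 1}) ^ 2 < (T G η n).ncard

/-- the number of the branching levels below `n` of the orbit tree of `η` -/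
noncomputable def br (G : Subgroup (TreeAut X)) (η : ℕ → X) (n : ℕ) : ℕ :=
  ((Finset.range n).filter fun j => (T G η j).ncard ≠ (T G η (j + 1)).ncard).card

/-! ### first facts on the orbit tree -/

theorem T_len {G : Subgroup (TreeAut X)} {η : ℕ → X} {n : ℕ} {w : List X} (h : w ∈ T G η n) :
    w.length = n := by
  obtain ⟨g, -, rfl⟩ := h
  rw [length_app, length_pre]

theorem T_base (G : Subgroup (TreeAut X)) (η : ℕ → X) (n : ℕ) : pre η n ∈ T G η n :=
  ⟨1, G.one_mem, one_smul _ _⟩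

theorem T_smul {G : Subgroup (TreeAut X)} {η : ℕ → X} {n : ℕ} {g : TreeAut X} (hg : g ∈ G)
    {w : List X} (h : w ∈ T G η n) : g • w ∈ T G η n := by
  obtain ⟨h, hh, rfl⟩ := h
  exact ⟨g * h, G.mul_mem hg hh, mul_smul _ _ _⟩

theorem T_trans {G : Subgroup (TreeAut X)} {η : ℕ → X} {n : ℕ} {w w' : List X} (h : w ∈ T G η n)
    (h' : w' ∈ T G η n) : ∃ g ∈ G, g • w = w' := by
  obtain ⟨a, ha, rfl⟩ := h
  obtain ⟨b, hb, rfl⟩ := h'
  exact ⟨b * a⁻¹, G.mul_mem hb (G.inv_mem ha), by rw [mul_smul, inv_smul_smul]⟩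

theorem T_take {G : Subgroup (TreeAut X)} {η : ℕ → X} {n m : ℕ} (hmn : m ≤ n) {w : List X}
    (h : w ∈ T G η n) : w.take m ∈ T G η m := by
  obtain ⟨g, hg, rfl⟩ := h
  refine ⟨g, hg, ?_⟩
  have h1 := prefix_smul g (pre_prefix η hmn)
  rw [List.prefix_iff_eq_take, length_app, length_pre] at h1
  exact h1

theorem T_ext {G : Subgroup (TreeAut X)} {η : ℕ → X} {n m : ℕ} (hmn : m ≤ n) {w : List X}
    (h : w ∈ T G η m) : ∃ w' ∈ T G η n, w <+: w' := by
  obtain ⟨g, hg, rfl⟩ := h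
  exact ⟨g • pre η n, ⟨g, hg, rfl⟩, prefix_smul g (pre_prefix η hmn)⟩

theorem T_finite [Finite X] (G : Subgroup (TreeAut X)) (η : ℕ → X) (n : ℕ) : (T G η n).Finite :=
  (finite_words n).subset fun _ hw => T_len hw

theorem KF_le (G : Subgroup (TreeAut X)) (η : ℕ → X) (w : List X) : KF G η w ≤ G := fun _ h => h.1

theorem OF_le (G : Subgroup (TreeAut X)) (η : ℕ → X) : OF G η ≤ G := fun _ h => h.1

theorem OF_le_RS (G : Subgroup (TreeAut X)) (η : ℕ → X) : OF G η ≤ RS η :=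
  fun _ h n => h.2 n _ (T_base G η n)

theorem KF_mono (G : Subgroup (TreeAut X)) (η : ℕ → X) {w w' : List X} (h : w <+: w') :
    KF G η w ≤ KF G η w' :=
  fun _ hg => ⟨hg.1, fun n u hu hw => hg.2 n u hu (h.trans hw)⟩

end H85.TA
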