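import Pool.Agent.H85.TA.Sec
import Pool.Agent.H85.TA.Act

/-!
# [H85 TA FIN0] groups with max of finitary automorphisms are finite, 40-70 lines

`InP 0 g`: the partial sums of `act g n` are bounded by `C`, so `act g n = 0` for some `n ≤ C` (otherwise the
sum over `n < C + 1` is at least `C + 1`); then `act g n' = 0` for all `n' ≥ n` (a prefix of a word with nontrivial
section has nontrivial section, `sec_one_of_prefix`). `G` is generated by a finite set `S` (`hmax G le_rfl`), choose
`N` with `act s N = 0` for all `s ∈ S`; by `act_mul`, `act_inv`, `act_one` and closure induction `act g N = 0` for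
all `g ∈ G`. So `g ∈ G` which fixes all words of length `N` is `1` (`eq_one_of_level`): `G ⊓ LS X N = ⊥`, and
`LS X N` has finite index (`ls_relIndex`): `G` is finite (`Subgroup.relIndex_bot_left`,
`Subgroup.relIndex_inf...`; or the injection of `G` into the functions from the words of length `N` to themselves).
-/

set_option autoImplicit false

namespace H85.TA

variable {X : Type*} [Finite X] [Nonempty X]

omit [Nonempty X] in
theorem act_zero_mono {g : TreeAut X} {n m : ℕ} (h : n ≤ m) (hg : act g n = 0) : act g m = 0 := by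
  rw [act_eq, Set.ncard_eq_zero (Wd_finite g _)] at hg ⊢
  ext w
  constructor
  · rintro ⟨hw, hw'⟩
    have h1 : w.take n ∈ Wd g n := by
      refine ⟨by rw [List.length_take]; omega, fun h2 => hw' ?_⟩
      exact sec_one_of_prefix h2 (List.take_prefix _ _)
    rw [hg] at h1
    exact absurd h1 (Set.notMem_empty _)
  · intro hw
    exact absurd hw (Set.notMem_empty _)

omit [Nonempty X] in
theorem exists_act_zero {g : TreeAut X} (h : InP 0 g) : ∃ n, act g n = 0 := by
  obtain ⟨C, hC⟩ := h
  by_contra hcon
  push Not at hcon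
  have h1 := hC (C + 1)
  have h2 : ∑ _n ∈ Finset.range (C + 1), 1 ≤ ∑ n ∈ Finset.range (C + 1), act g n :=
    Finset.sum_le_sum fun n _ => Nat.one_le_iff_ne_zero.2 (hcon n)
  rw [Finset.sum_const, Finset.card_range, smul_eq_mul, mul_one] at h2
  rw [pow_zero, mul_one] at h1
  omega

theorem finite_of_inP_zero {G : Subgroup (TreeAut X)} (hmax : Max G) (h : ∀ g ∈ G, InP 0 g) :
    (G : Set (TreeAut X)).Finite := by
  obtain ⟨S, hS⟩ := hmax G le_rfl
  have h1 : ∀ s ∈ S, ∃ n, act s n = 0 := fun s hs => exists_act_zero (h s (by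
    rw [← hS]
    exact Subgroup.subset_closure hs))
  choose! n hn using h1
  have h2 : ∀ s ∈ S, act s (S.sup n) = 0 := fun s hs =>
    act_zero_mono (Finset.le_sup (f := n) hs) (hn s hs)
  have h3 : ∀ g ∈ G, act g (S.sup n) = 0 := by
    intro g hg
    rw [← hS] at hg
    induction hg using Subgroup.closure_induction with
    | mem x hx => exact h2 x hx
    | one => exact act_one _
    | mul x y _ _ hx hy =>
      have h4 := act_mul x y (S.sup n)
      omega
    | inv x _ hx => rw [act_inv, hx]
  have h4 : G ⊓ LS X (S.sup n) = ⊥ := by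
    rw [eq_bot_iff]
    intro g hg
    refine Subgroup.mem_bot.2 (eq_one_of_level (S.sup n) fun w hw => ⟨hg.2 w hw, ?_⟩)
    by_contra hne
    have h5 := h3 g hg.1
    rw [act_eq, Set.ncard_eq_zero (Wd_finite g _)] at h5
    have h6 : w ∈ Wd g (S.sup n) := ⟨hw, hne⟩
    rw [h5] at h6
    exact absurd h6 (Set.notMem_empty _)
  have h5 := ls_relIndex (X := X) (S.sup n) G
  rw [← Subgroup.inf_relIndex_left, h4, Subgroup.relIndex_bot_left] at h5
  have h6 : Finite G := Nat.finite_of_card_ne_zero h5
  exact Set.toFinite _

end H85.TA
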