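import Mathlib

/-!
# [H85 TA GR1] balls and averaging, 60-100 lines

`Q` a group, `S` a finite set, `ball S = insert 1 (S ∪ S⁻¹)` (pointwise), `(ball S) ^ r` the ball of radius `r`.
* `subset_pow`, `exists_mem_pow`: `1 ∈ ball S`, so the powers increase; every element of `closure S` is in some power
  (`Subgroup.closure_induction`, `ball S` symmetric: `(ball S)⁻¹ = ball S`).
* `move_card`: for `g ∈ (ball S) ^ r`: `#{a ∈ A : g a ∉ A} ≤ r * ∑ s ∈ S, #{a ∈ A : s a ∉ A}`. Induction on `r`:
  `#{a ∈ A : g h a ∉ A} ≤ #{a ∈ A : h a ∉ A} + #{b ∈ A : g b ∉ A}` (if `h a ∈ A` and `g (h a) ∉ A` put `b = h a`); for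
  `s ∈ S`: one term of the sum; for `s⁻¹`: `#{a ∈ A : s⁻¹ a ∉ A} = |A| - |A ∩ s A| = #{a ∈ A : s a ∉ A}`.
* `averaging`: if `2 |A| ≤ |(ball S)^r|`, then `|A| ≤ 2 r ∂A`: the sum over `g ∈ (ball S)^r` of `#{a ∈ A : g a ∈ A}` is
  at most `|A|^2` (for `a, b ∈ A` at most one `g` with `g a = b`), so some `g` has `#{a ∈ A : g a ∈ A} ≤ |A|/2`
  (twice it is at most `|A|`), and `|A| ≤ 2 #{a ∈ A : g a ∉ A} ≤ 2 r ∂A`.
-/

set_option autoImplicit false

namespace H85.TA

open Pointwise

variable {Q : Type*} [Group Q] [DecidableEq Q]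

/-- the ball of radius 1 -/
def ball (S : Finset Q) : Finset Q := insert 1 (S ∪ S⁻¹)

/-- the size of the boundary of `A` -/
def bd (S A : Finset Q) : ℕ := ∑ s ∈ S, (A.filter fun a => s * a ∉ A).card

theorem one_mem_ball (S : Finset Q) : 1 ∈ ball S := by
  simp [ball]

theorem pow_mono (S : Finset Q) {r r' : ℕ} (h : r ≤ r') : (ball S) ^ r ⊆ (ball S) ^ r' :=
  Finset.pow_subset_pow_right (one_mem_ball S) h

theorem inv_ball (S : Finset Q) : (ball S)⁻¹ = ball S := by
  ext x
  simp only [ball, Finset.mem_inv', Finset.mem_insert, Finset.mem_union, inv_eq_one, inv_inv]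
  tauto

theorem exists_mem_pow (S : Finset Q) {q : Q} (hq : q ∈ Subgroup.closure (S : Set Q)) :
    ∃ r, q ∈ (ball S) ^ r := by
  induction hq using Subgroup.closure_induction with
  | mem x hx =>
    refine ⟨1, ?_⟩
    rw [pow_one]
    simp only [ball, Finset.mem_insert, Finset.mem_union]
    exact Or.inr (Or.inl (by simpa using hx))
  | one => exact ⟨0, by simp⟩
  | mul x y _ _ hx hy =>
    obtain ⟨r, hr⟩ := hx
    obtain ⟨t, ht⟩ := hy
    refine ⟨r + t, ?_⟩
    rw [pow_add]
    exact Finset.mul_mem_mul hr ht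
  | inv x _ hx =>
    obtain ⟨r, hr⟩ := hx
    refine ⟨r, ?_⟩
    rw [← inv_ball S, inv_pow]
    exact Finset.inv_mem_inv hr

theorem card_inv (A : Finset Q) (g : Q) :
    (A.filter fun a => g⁻¹ * a ∉ A).card = (A.filter fun a => g * a ∉ A).card := by
  have h1 := Finset.card_filter_add_card_filter_not (s := A) (fun a => g * a ∈ A)
  have h2 := Finset.card_filter_add_card_filter_not (s := A) (fun a => g⁻¹ * a ∈ A)
  have h3 : (A.filter fun a => g * a ∈ A).card = (A.filter fun a => g⁻¹ * a ∈ A).card := by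
    refine Finset.card_bij (fun a _ => g * a) ?_ ?_ ?_
    · intro a ha
      rw [Finset.mem_filter] at ha ⊢
      refine ⟨ha.2, ?_⟩
      simpa using ha.1
    · intro a _ b _ hab
      exact mul_left_cancel hab
    · intro b hb
      rw [Finset.mem_filter] at hb
      refine ⟨g⁻¹ * b, ?_, by simp⟩
      rw [Finset.mem_filter]
      refine ⟨hb.2, ?_⟩
      simpa using hb.1
  omega

theorem step_card (S A : Finset Q) {h : Q} (hh : h ∈ ball S) :
    (A.filter fun a => h * a ∉ A).card ≤ bd S A := by
  have hS : ∀ s ∈ S, (A.filter fun a => s * a ∉ A).card ≤ bd S A := by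
    intro s hs
    exact Finset.single_le_sum (f := fun s => (A.filter fun a => s * a ∉ A).card)
      (fun _ _ => Nat.zero_le _) hs
  simp only [ball, Finset.mem_insert, Finset.mem_union, Finset.mem_inv'] at hh
  rcases hh with rfl | hh | hh
  · have : (A.filter fun a => (1 : Q) * a ∉ A) = ∅ := by
      apply Finset.filter_false_of_mem
      intro a ha
      simpa using ha
    rw [this]
    simp
  · exact hS h hh
  · have := hS _ hh
    rwa [card_inv] at this

theorem move_card (S A : Finset Q) (r : ℕ) {g : Q} (hg : g ∈ (ball S) ^ r) :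
    (A.filter fun a => g * a ∉ A).card ≤ r * bd S A := by
  induction r generalizing g with
  | zero =>
    rw [pow_zero, Finset.mem_one] at hg
    subst hg
    have : (A.filter fun a => (1 : Q) * a ∉ A) = ∅ := by
      apply Finset.filter_false_of_mem
      intro a ha
      simpa using ha
    rw [this]
    simp
  | succ r ih =>
    rw [pow_succ, Finset.mem_mul] at hg
    obtain ⟨g', hg', h, hh, rfl⟩ := hg
    have h1 := ih hg'
    have h2 := step_card S A hh
    have h3 : (A.filter fun a => g' * h * a ∉ A).card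
        ≤ (A.filter fun a => h * a ∉ A).card + (A.filter fun b => g' * b ∉ A).card := by
      have hsub : (A.filter fun a => g' * h * a ∉ A) ⊆ (A.filter fun a => h * a ∉ A)
          ∪ (A.filter fun b => g' * b ∉ A).image (fun b => h⁻¹ * b) := by
        intro a ha
        rw [Finset.mem_filter] at ha
        rw [Finset.mem_union, Finset.mem_filter, Finset.mem_image]
        by_cases hA : h * a ∈ A
        · refine Or.inr ⟨h * a, ?_, by simp⟩
          rw [Finset.mem_filter]
          refine ⟨hA, ?_⟩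
          rw [← mul_assoc]
          exact ha.2
        · exact Or.inl ⟨ha.1, hA⟩
      calc _ ≤ _ := Finset.card_le_card hsub
        _ ≤ _ := Finset.card_union_le _ _
        _ ≤ _ := Nat.add_le_add_left Finset.card_image_le _
    calc _ ≤ _ := h3
      _ ≤ bd S A + r * bd S A := Nat.add_le_add h2 h1
      _ = (r + 1) * bd S A := by ring

theorem averaging (S A : Finset Q) (r : ℕ) (h : 2 * A.card ≤ ((ball S) ^ r).card) :
    A.card ≤ 2 * r * bd S A := by
  rcases Nat.eq_zero_or_pos A.card with h0 | hpos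
  · rw [h0]
    exact Nat.zero_le _
  have hsum : ∑ g ∈ (ball S) ^ r, (A.filter fun a => g * a ∈ A).card ≤ A.card * A.card := by
    rw [← Finset.card_sigma, ← Finset.card_product]
    refine Finset.card_le_card_of_injOn (fun x => (x.2, x.1 * x.2)) ?_ ?_
    · rintro ⟨g, a⟩ hx
      simp only [Finset.coe_sigma, Set.mem_sigma_iff, Finset.mem_coe, Finset.mem_filter] at hx
      simp only [Finset.coe_product, Set.mem_prod, Finset.mem_coe]
      exact hx.2
    · rintro ⟨g, a⟩ _ ⟨g', a'⟩ _ hx
      simp only [Prod.mk.injEq] at hx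
      obtain ⟨rfl, h2⟩ := hx
      have := mul_right_cancel h2
      subst this
      rfl
  have hex : ∃ g ∈ (ball S) ^ r, 2 * (A.filter fun a => g * a ∈ A).card ≤ A.card := by
    by_contra hcon
    have hlt : ∀ g ∈ (ball S) ^ r, A.card + 1 ≤ 2 * (A.filter fun a => g * a ∈ A).card := by
      intro g hg
      by_contra hg'
      exact hcon ⟨g, hg, by omega⟩
    have h1 : ((ball S) ^ r).card * (A.card + 1)
        ≤ 2 * ∑ g ∈ (ball S) ^ r, (A.filter fun a => g * a ∈ A).card := by
      rw [Finset.mul_sum, ← smul_eq_mul]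
      exact Finset.card_nsmul_le_sum _ _ _ hlt
    have h2 : 2 * A.card * (A.card + 1) ≤ 2 * (A.card * A.card) :=
      calc 2 * A.card * (A.card + 1) ≤ ((ball S) ^ r).card * (A.card + 1) :=
            Nat.mul_le_mul_right _ h
        _ ≤ _ := h1
        _ ≤ _ := Nat.mul_le_mul_left _ hsum
    nlinarith
  obtain ⟨g, hg, hg2⟩ := hex
  have h1 := Finset.card_filter_add_card_filter_not (s := A) (fun a => g * a ∈ A)
  have h2 := move_card S A r hg
  have h3 : 2 * r * bd S A = 2 * (r * bd S A) := by ring
  omega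

end H85.TA
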