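import Pool.Agent.H85.TA.Gr1

/-!
# [H85 TA GR2] quadratic growth contradicts thin sets; cosets of an infinite cyclic subgroup, 70-110 lines

* `no_quadratic`: suppose `r² ≤ C |B(r)|` for all `r`, `B(r) = (ball S)^r`; we may enlarge `C ≥ 1`. Take `A` from `h`
  with `c = 32 C`, `∂ = bd S A`. Let `r` be the least number with `2 C |A| ≤ r²` (or `r = Nat.sqrt (2 C |A|) + 1`); then
  `2 |A| ≤ |B(r)|` (from `2 C |A| ≤ r² ≤ C |B(r)|`), and `r² ≤ 8 C |A|` (`r ≤ sqrt (2C|A|) + 1 ≤ 2 sqrt (2 C |A|)`).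
  `averaging`: `|A| ≤ 2 r ∂`, `|A|² ≤ 4 r² ∂² ≤ 32 C |A| ∂²`, so `|A| ≤ 32 C ∂²`, a contradiction.
* `quadratic_of_cosets`: `x` of infinite order, `x ∈ B(k)`, `k ≥ 1`. The number of the left cosets of `⟨x⟩` which meet
  `B(r)` is at least `r + 1`: it is at least 1 for `r = 0`; if it is the same for `r` and `r + 1`, then
  `B(r+1) ⟨x⟩ = B(r) ⟨x⟩`, so `ball S * (B(r) ⟨x⟩) = B(r) ⟨x⟩`, hence this set is invariant under left multiplication
  by `closure S = ⊤`, it is everything and `⟨x⟩` has finite index, against `hi`. Choose `q_0, …, q_r ∈ B(r)` in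
  different cosets; the `(r+1)²` elements `q_i x^j`, `0 ≤ j ≤ r`, are different and in `B(r + k r)`. So
  `(r+1)² ≤ |B((k+1) r)|`, and for `R` arbitrary with `r = R / (k+1)`: `R² ≤ (k+1)² (r+1)² ≤ (k+1)² |B(R)|`.
-/

set_option autoImplicit false

namespace H85.TA

open Pointwise

variable {Q : Type*} [Group Q] [DecidableEq Q]

theorem no_quadratic (S : Finset Q)
    (h : ∀ c : ℕ, ∃ A : Finset Q, A.Nonempty ∧ c * (bd S A) ^ 2 < A.card) (C : ℕ) :
    ∃ r : ℕ, C * ((ball S) ^ r).card < r ^ 2 := by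
  by_contra hcon
  push Not at hcon
  have hC : 0 < C := by
    rcases Nat.eq_zero_or_pos C with h0 | h0
    · have := hcon 1
      rw [h0] at this
      omega
    · exact h0
  obtain ⟨A, hA, hlt⟩ := h (32 * C)
  have hApos : 0 < A.card := hA.card_pos
  obtain ⟨q, hq⟩ : ∃ q, q = Nat.sqrt (2 * C * A.card) := ⟨_, rfl⟩
  have h1 : q ^ 2 ≤ 2 * C * A.card := by rw [hq]; exact Nat.sqrt_le' _
  have h2 : 2 * C * A.card < (q + 1) ^ 2 := by rw [hq]; exact Nat.lt_succ_sqrt' _
  have h3 : 0 < C * A.card := Nat.mul_pos hC hApos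
  have hq1 : 1 ≤ q := by
    rcases Nat.eq_zero_or_pos q with h0 | h0
    · rw [h0] at h2
      nlinarith
    · exact h0
  have h4 : C * (2 * A.card) ≤ C * ((ball S) ^ (q + 1)).card := by
    calc C * (2 * A.card) = 2 * C * A.card := by ring
      _ ≤ (q + 1) ^ 2 := h2.le
      _ ≤ _ := hcon (q + 1)
  have h5 : 2 * A.card ≤ ((ball S) ^ (q + 1)).card := Nat.le_of_mul_le_mul_left h4 hC
  have h6 := averaging S A (q + 1) h5
  have h7 : (q + 1) ^ 2 ≤ 8 * C * A.card := by nlinarith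
  have h8 : A.card ^ 2 ≤ (2 * (q + 1) * bd S A) ^ 2 := Nat.pow_le_pow_left h6 2
  have h9 : A.card * A.card ≤ A.card * (32 * C * bd S A ^ 2) := by
    calc A.card * A.card = A.card ^ 2 := (sq _).symm
      _ ≤ (2 * (q + 1) * bd S A) ^ 2 := h8
      _ = (q + 1) ^ 2 * (4 * bd S A ^ 2) := by ring
      _ ≤ (8 * C * A.card) * (4 * bd S A ^ 2) := Nat.mul_le_mul_right _ h7
      _ = A.card * (32 * C * bd S A ^ 2) := by ring
  have h10 := Nat.le_of_mul_le_mul_left h9 hApos
  omega

open Classical in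
/-- the number of left cosets of `H` which meet the ball -/
theorem coset_card (S : Finset Q) (hS : Subgroup.closure (S : Set Q) = ⊤) (H : Subgroup Q) (hi : H.index = 0)
    (r : ℕ) : r + 1 ≤ (((ball S) ^ r).image (QuotientGroup.mk : Q → Q ⧸ H)).card := by
  induction r with
  | zero => simp
  | succ r ih =>
    have hsub : ((ball S) ^ r).image (QuotientGroup.mk : Q → Q ⧸ H) ⊆
        ((ball S) ^ (r + 1)).image (QuotientGroup.mk : Q → Q ⧸ H) :=
      Finset.image_subset_image (pow_mono S (Nat.le_succ r))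
    by_contra hcon
    have heq : ((ball S) ^ r).image (QuotientGroup.mk : Q → Q ⧸ H) =
        ((ball S) ^ (r + 1)).image (QuotientGroup.mk : Q → Q ⧸ H) :=
      Finset.eq_of_subset_of_card_le hsub (by omega)
    have hstep : ∀ s ∈ ball S, ∀ q : Q, (QuotientGroup.mk q : Q ⧸ H) ∈
        ((ball S) ^ r).image (QuotientGroup.mk : Q → Q ⧸ H) → (QuotientGroup.mk (s * q) : Q ⧸ H) ∈
        ((ball S) ^ r).image (QuotientGroup.mk : Q → Q ⧸ H) := by
      intro s hs q hq
      obtain ⟨b, hb, hbq⟩ := Finset.mem_image.1 hq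
      rw [heq]
      refine Finset.mem_image.2 ⟨s * b, ?_, ?_⟩
      · rw [pow_succ']
        exact Finset.mul_mem_mul hs hb
      · rw [QuotientGroup.eq] at hbq ⊢
        have : (s * b)⁻¹ * (s * q) = b⁻¹ * q := by group
        rw [this]
        exact hbq
    have hall : ∀ m : ℕ, ∀ q ∈ (ball S) ^ m, (QuotientGroup.mk q : Q ⧸ H) ∈
        ((ball S) ^ r).image (QuotientGroup.mk : Q → Q ⧸ H) := by
      intro m
      induction m with
      | zero =>
        intro q hq
        rw [pow_zero, Finset.mem_one] at hq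
        rw [hq]
        exact Finset.mem_image_of_mem _ (pow_mono S (Nat.zero_le r) (by simp))
      | succ m ihm =>
        intro q hq
        rw [pow_succ'] at hq
        obtain ⟨s, hs, q', hq', rfl⟩ := Finset.mem_mul.1 hq
        exact hstep s hs q' (ihm q' hq')
    have huniv : ∀ c : Q ⧸ H, c ∈ ((ball S) ^ r).image (QuotientGroup.mk : Q → Q ⧸ H) := by
      intro c
      obtain ⟨q, rfl⟩ := QuotientGroup.mk_surjective c
      obtain ⟨m, hm⟩ := exists_mem_pow S (q := q) (by rw [hS]; exact Subgroup.mem_top q)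
      exact hall m q hm
    have hfin : Finite (Q ⧸ H) := by
      refine Set.finite_univ_iff.1 (Set.Finite.subset (Finset.finite_toSet
        (((ball S) ^ r).image (QuotientGroup.mk : Q → Q ⧸ H))) ?_)
      intro c _
      exact huniv c
    have : H.index ≠ 0 := by
      rw [Subgroup.index]
      exact Nat.card_pos.ne'
    exact this hi

theorem quadratic_of_cosets (S : Finset Q) (hS : Subgroup.closure (S : Set Q) = ⊤) (x : Q)
    (hx : ¬ IsOfFinOrder x) (hi : (Subgroup.zpowers x).index = 0) :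
    ∃ C : ℕ, ∀ r : ℕ, r ^ 2 ≤ C * ((ball S) ^ r).card := by
  classical
  obtain ⟨k, hk⟩ := exists_mem_pow S (q := x) (by rw [hS]; exact Subgroup.mem_top x)
  refine ⟨(k + 1) ^ 2, fun R => ?_⟩
  obtain ⟨r, hr⟩ : ∃ r, r = R / (k + 1) := ⟨_, rfl⟩
  have hr1 : (k + 1) * r ≤ R := by rw [hr]; exact Nat.mul_div_le R (k + 1)
  have hr2 : R < (k + 1) * (r + 1) := by
    rw [hr]
    exact Nat.lt_mul_div_succ R (Nat.succ_pos k)
  have hN := coset_card S hS (Subgroup.zpowers x) hi r
  have hsec : ∀ c : Q ⧸ Subgroup.zpowers x, ∃ b : Q,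
      c ∈ ((ball S) ^ r).image (QuotientGroup.mk : Q → Q ⧸ Subgroup.zpowers x) → b ∈ (ball S) ^ r ∧
        (QuotientGroup.mk b : Q ⧸ Subgroup.zpowers x) = c := by
    intro c
    by_cases hc : c ∈ ((ball S) ^ r).image (QuotientGroup.mk : Q → Q ⧸ Subgroup.zpowers x)
    · obtain ⟨b, hb, hbc⟩ := Finset.mem_image.1 hc
      exact ⟨b, fun _ => ⟨hb, hbc⟩⟩
    · exact ⟨1, fun h => absurd h hc⟩
  choose f hf using hsec
  have hcard : ((((ball S) ^ r).image (QuotientGroup.mk : Q → Q ⧸ Subgroup.zpowers x)) ×ˢ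
      Finset.range (r + 1)).card ≤ ((ball S) ^ R).card := by
    refine Finset.card_le_card_of_injOn (fun p => f p.1 * x ^ p.2) ?_ ?_
    · rintro ⟨c, j⟩ hp
      obtain ⟨hc, hj⟩ := Finset.mem_product.1 (Finset.mem_coe.1 hp)
      have hj' := Finset.mem_range.1 hj
      refine Finset.mem_coe.2 ?_
      have h1 : x ^ j ∈ (ball S) ^ (k * r) := by
        have h2 : x ^ j ∈ ((ball S) ^ k) ^ j := Finset.pow_mem_pow hk
        rw [← pow_mul] at h2
        exact pow_mono S (Nat.mul_le_mul_left k (Nat.lt_succ_iff.1 hj')) h2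
      have h2 : f c * x ^ j ∈ (ball S) ^ (r + k * r) := by
        rw [pow_add]
        exact Finset.mul_mem_mul (hf c hc).1 h1
      refine pow_mono S ?_ h2
      calc r + k * r = (k + 1) * r := by ring
        _ ≤ R := hr1
    · rintro ⟨c, j⟩ hp ⟨c', j'⟩ hp' heq
      obtain ⟨hc, hj⟩ := Finset.mem_product.1 (Finset.mem_coe.1 hp)
      obtain ⟨hc', hj'⟩ := Finset.mem_product.1 (Finset.mem_coe.1 hp')
      have heq' : f c * x ^ j = f c' * x ^ j' := heq
      have h1 : (QuotientGroup.mk (f c) : Q ⧸ Subgroup.zpowers x) = QuotientGroup.mk (f c') := by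
        rw [QuotientGroup.eq]
        have h2 : (f c)⁻¹ * f c' = x ^ j * (x ^ j')⁻¹ := by
          rw [inv_mul_eq_iff_eq_mul, ← mul_assoc, heq', mul_inv_cancel_right]
        rw [h2]
        exact Subgroup.mul_mem _ (Subgroup.pow_mem _ (Subgroup.mem_zpowers x) _)
          (Subgroup.inv_mem _ (Subgroup.pow_mem _ (Subgroup.mem_zpowers x) _))
      have h3 : c = c' := by
        rw [← (hf c hc).2, ← (hf c' hc').2]
        exact h1
      subst h3
      have h4 : x ^ j = x ^ j' := mul_left_cancel heq'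
      have h5 : j = j' := injective_pow_iff_not_isOfFinOrder.2 hx h4
      rw [h5]
  rw [Finset.card_product, Finset.card_range] at hcard
  have h6 : (r + 1) ^ 2 ≤ ((ball S) ^ R).card := by
    calc (r + 1) ^ 2 = (r + 1) * (r + 1) := sq _
      _ ≤ _ := Nat.mul_le_mul_right (r + 1) hN
      _ ≤ _ := hcard
  calc R ^ 2 ≤ ((k + 1) * (r + 1)) ^ 2 := Nat.pow_le_pow_left hr2.le 2
    _ = (k + 1) ^ 2 * (r + 1) ^ 2 := by ring
    _ ≤ _ := Nat.mul_le_mul_left _ h6

end H85.TA
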