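import Pool.Agent.H85.TA.Cnt
import Pool.Agent.H85.TA.Va

/-!
# [H85 TA ISO] a maximal vertex stabiliser and the isoperimetric sets, 90-150 lines

* `exists_top_vertex`: among the subgroups `KF G η w`, `w` in the orbit tree (index type
  `{w // ∃ n, w ∈ T G η n}`), there is a maximal one (`Max.exists_maximal`), at `v` say. If `w` is below `v` then
  `KF G η v ≤ KF G η w` (`KF_mono`), so they are equal.
* `iso_sets`. Notation: `V n` = vertices of level `n ≥ n₀` of the orbit tree below `v`, `Gv = G ⊓ stabilizer v`,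
  `N = KF G η v`. `S` is a finite subset of `Gv`. Given `c`: by `hslow` (with `c' = c * (T G η n₀).ncard`, and `n₀`) there is `n ≥ n₀` with
  `c' b² < |T_n|`, where `b = ∑ s ∈ S, #{w ∈ T_n : sec s w ≠ 1}`; by `card_mul` `|T_n| = |T_{n₀}| |V n|`, so `c b² < |V n|`.
  Equivalence relation on `V n`: `w ~ w'` iff `g • w = w'`, `sec g w = 1` for some `g ∈ Gv`
  (`sec_mul`, `sec_inv`). For a class `C` let `b(C) = ∑ s ∈ S, #{w ∈ C : sec s w ≠ 1}`; `∑_C b(C) ≤ b`, `∑_C |C| = |V n|`.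
  If `|C| ≤ c b(C)²` for all classes then `|V n| ≤ c ∑ b(C)² ≤ c b²`, a contradiction. So there is a class `C`, the
  class of `w` say, with `c b(C)² < |C|`. For `w' ∈ C` choose `g_{w'} ∈ Gv` with `g_{w'} • w = w'`, `sec g_{w'} w = 1`;
  `A` = the (finite) set of these; `w' ↦ g_{w'}` is injective, `|A| = |C|`.
  - if `g, h ∈ A` and `g⁻¹ * h ∈ N` then `g⁻¹ * h` fixes `w` (`w` is below `v`), so `g • w = h • w` and `g = h`.
  - if `g ∈ A`, `s ∈ S` and `sec s (g • w) = 1`, then `w'' = s • g • w ∈ C` and for its `h = g_{w''} ∈ A` the element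
    `k = h⁻¹ * (s * g)` fixes `w` and `sec k w = 1` (`sec_mul`, `sec_inv`), so it fixes everything below `w`
    (`fix_append`): `k ∈ KF G η w = N` (`hv`). So the `g ∈ A` with `∀ h ∈ A, h⁻¹ * (s * g) ∉ N` have
    `sec s (g • w) ≠ 1`, `g • w ∈ C`: there are at most `#{w' ∈ C : sec s w' ≠ 1}` of them.
  (The classes can be replaced by: choose a class function, e.g. `Quotient` of a setoid on the subtype `V n`, finite;
  `Finset.sum_fiberwise`, or an argument by contradiction with `Finset.card_eq_sum_card_fiberwise`.)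
-/

set_option autoImplicit false

namespace H85.TA

variable {X : Type*}

theorem exists_top_vertex {G : Subgroup (TreeAut X)} (hmax : Max G) (η : ℕ → X) :
    ∃ n, ∃ v ∈ T G η n, ∀ m, ∀ w ∈ T G η m, v <+: w → KF G η w = KF G η v := by
  have : Nonempty {w : List X // ∃ n, w ∈ T G η n} := ⟨⟨pre η 0, 0, T_base G η 0⟩⟩
  obtain ⟨⟨v, n, hv⟩, h⟩ := Max.exists_maximal hmax
    (fun w : {w : List X // ∃ n, w ∈ T G η n} => KF G η w.1) (fun w => KF_le G η w.1)
  exact ⟨n, v, hv, fun m w hw hvw => h ⟨w, m, hw⟩ (KF_mono G η hvw)⟩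

/-- the equivalence relation on the vertices below `v` -/
def Rl (G : Subgroup (TreeAut X)) (v w w' : List X) : Prop :=
  ∃ g : TreeAut X, (g ∈ G ∧ g • v = v) ∧ g • w = w' ∧ sec g w = 1

theorem Rl_refl (G : Subgroup (TreeAut X)) (v w : List X) : Rl G v w w :=
  ⟨1, ⟨G.one_mem, one_smul _ _⟩, one_smul _ _, sec_one _⟩

theorem Rl_symm {G : Subgroup (TreeAut X)} {v w w' : List X} (h : Rl G v w w') : Rl G v w' w := by
  obtain ⟨g, ⟨h1, h2⟩, h3, h4⟩ := h
  refine ⟨g⁻¹, ⟨G.inv_mem h1, by rw [inv_smul_eq_iff, h2]⟩, by rw [inv_smul_eq_iff, h3], ?_⟩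
  rw [← h3, sec_inv, h4, inv_one]

theorem Rl_trans {G : Subgroup (TreeAut X)} {v w w' w'' : List X} (h : Rl G v w w')
    (h' : Rl G v w' w'') : Rl G v w w'' := by
  obtain ⟨g, ⟨h1, h2⟩, h3, h4⟩ := h
  obtain ⟨k, ⟨h1', h2'⟩, h3', h4'⟩ := h'
  refine ⟨k * g, ⟨G.mul_mem h1' h1, by rw [mul_smul, h2, h2']⟩, by rw [mul_smul, h3, h3'], ?_⟩
  rw [sec_mul, h3, h4', h4, one_mul]

open Classical in
/-- some class is large compared with its boundary -/
theorem exists_class (G : Subgroup (TreeAut X)) (v : List X) (V : Finset (List X))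
    (S : Finset (TreeAut X)) (c : ℕ)
    (h : c * (∑ s ∈ S, (V.filter fun w => sec s w ≠ 1).card) ^ 2 < V.card) :
    ∃ w ∈ V, c * (∑ s ∈ S, ((V.filter fun w' => Rl G v w w').filter fun w' => sec s w' ≠ 1).card) ^ 2 <
      (V.filter fun w' => Rl G v w w').card := by
  by_contra hcon
  push Not at hcon
  let Cl : List X → Finset (List X) := fun w => V.filter fun w' => Rl G v w w'
  have hCl : ∀ w w', w' ∈ V → (Cl w' = Cl w ↔ Rl G v w w') := by
    intro w w' hw'
    constructor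
    · intro h1
      have h2 : w' ∈ Cl w' := Finset.mem_filter.2 ⟨hw', Rl_refl G v w'⟩
      rw [h1] at h2
      exact (Finset.mem_filter.1 h2).2
    · intro h1
      ext u
      simp only [Cl, Finset.mem_filter]
      constructor
      · rintro ⟨h2, h3⟩
        exact ⟨h2, Rl_trans h1 h3⟩
      · rintro ⟨h2, h3⟩
        exact ⟨h2, Rl_trans (Rl_symm h1) h3⟩
  have hfib : ∀ w ∈ V, (V.filter fun w' => Cl w' = Cl w) = Cl w := by
    intro w hw
    ext u
    simp only [Finset.mem_filter]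
    constructor
    · rintro ⟨h1, h2⟩
      exact Finset.mem_filter.2 ⟨h1, (hCl w u h1).1 h2⟩
    · intro h1
      have h2 := Finset.mem_filter.1 h1
      exact ⟨h2.1, (hCl w u h2.1).2 h2.2⟩
  let b : Finset (List X) → ℕ := fun C => ∑ s ∈ S, (C.filter fun w' => sec s w' ≠ 1).card
  have h1 : V.card = ∑ C ∈ V.image Cl, C.card := by
    rw [Finset.card_eq_sum_card_image Cl V]
    refine Finset.sum_congr rfl fun C hC => ?_
    obtain ⟨w, hw, rfl⟩ := Finset.mem_image.1 hC
    rw [hfib w hw]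
  have h2 : ∑ s ∈ S, (V.filter fun w => sec s w ≠ 1).card = ∑ C ∈ V.image Cl, b C := by
    simp only [b]
    rw [Finset.sum_comm]
    refine Finset.sum_congr rfl fun s _ => ?_
    rw [Finset.card_eq_sum_card_fiberwise (f := Cl) (t := V.image Cl) fun w hw =>
      Finset.mem_image_of_mem Cl (Finset.mem_filter.1 hw).1]
    refine Finset.sum_congr rfl fun C hC => ?_
    obtain ⟨w, hw, rfl⟩ := Finset.mem_image.1 hC
    congr 1
    ext u
    simp only [Finset.mem_filter]
    constructor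
    · rintro ⟨⟨h3, h4⟩, h5⟩
      exact ⟨Finset.mem_filter.2 ⟨h3, (hCl w u h3).1 h5⟩, h4⟩
    · rintro ⟨h3, h4⟩
      have h5 := Finset.mem_filter.1 h3
      exact ⟨⟨h5.1, h4⟩, (hCl w u h5.1).2 h5.2⟩
  have h3 : V.card ≤ c * (∑ C ∈ V.image Cl, b C) ^ 2 := by
    calc V.card = ∑ C ∈ V.image Cl, C.card := h1
      _ ≤ ∑ C ∈ V.image Cl, c * (b C) ^ 2 := by
          refine Finset.sum_le_sum fun C hC => ?_
          obtain ⟨w, hw, rfl⟩ := Finset.mem_image.1 hC
          exact hcon w hw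
      _ = c * ∑ C ∈ V.image Cl, (b C) ^ 2 := by rw [Finset.mul_sum]
      _ ≤ c * (∑ C ∈ V.image Cl, b C) ^ 2 :=
          Nat.mul_le_mul_left c (Finset.sum_sq_le_sq_sum_of_nonneg fun _ _ => Nat.zero_le _)
  rw [h2] at h
  exact absurd h (not_lt.2 h3)

open Classical in
theorem iso_sets {G : Subgroup (TreeAut X)} {η : ℕ → X} (hfin : ∀ n, (T G η n).Finite)
    (hslow : Slow G η) {n₀ : ℕ} {v : List X} (hvT : v ∈ T G η n₀)
    (hv : ∀ m, ∀ w ∈ T G η m, v <+: w → KF G η w = KF G η v)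
    (S : Finset (TreeAut X)) (hS : ∀ s ∈ S, s ∈ G ∧ s • v = v) (c : ℕ) :
    ∃ A : Finset (TreeAut X), A.Nonempty ∧ (∀ a ∈ A, a ∈ G ∧ a • v = v) ∧
      (∀ a ∈ A, ∀ b ∈ A, a⁻¹ * b ∈ KF G η v → a = b) ∧
      c * (∑ s ∈ S, (A.filter fun a => ∀ b ∈ A, b⁻¹ * (s * a) ∉ KF G η v).card) ^ 2 < A.card := by
  obtain ⟨n, hn, hlt⟩ := hslow S (fun s hs => (hS s hs).1) (c * (T G η n₀).ncard) n₀
  let V : Finset (List X) := (hfin n).toFinset.filter fun w => v <+: w
  have hVmem : ∀ w, w ∈ V ↔ w ∈ T G η n ∧ v <+: w := fun w => by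
    rw [Finset.mem_filter, Set.Finite.mem_toFinset]
  have hVcard : Set.ncard {w | w ∈ T G η n ∧ v <+: w} = V.card := by
    rw [← Set.ncard_coe_finset]
    congr 1
    ext w
    rw [Set.mem_ofPred_eq, Finset.mem_coe, hVmem]
  have h1 : c * (∑ s ∈ S, (V.filter fun w => sec s w ≠ 1).card) ^ 2 < V.card := by
    rw [card_mul hn (hfin n) hvT, hVcard] at hlt
    have h2 : ∑ s ∈ S, (V.filter fun w => sec s w ≠ 1).card ≤
        ∑ s ∈ S, Set.ncard {w | w ∈ T G η n ∧ sec s w ≠ 1} := by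
      refine Finset.sum_le_sum fun s _ => ?_
      rw [← Set.ncard_coe_finset]
      refine Set.ncard_le_ncard ?_ ((hfin n).subset fun w hw => hw.1)
      intro w hw
      have h3 := Finset.mem_filter.1 (Finset.mem_coe.1 hw)
      exact ⟨((hVmem w).1 h3.1).1, h3.2⟩
    have h4 : (T G η n₀).ncard * (c * (∑ s ∈ S, (V.filter fun w => sec s w ≠ 1).card) ^ 2) <
        (T G η n₀).ncard * V.card := by
      refine lt_of_le_of_lt ?_ hlt
      calc (T G η n₀).ncard * (c * (∑ s ∈ S, (V.filter fun w => sec s w ≠ 1).card) ^ 2)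
          = c * (T G η n₀).ncard * (∑ s ∈ S, (V.filter fun w => sec s w ≠ 1).card) ^ 2 := by ring
        _ ≤ _ := Nat.mul_le_mul_left _ (Nat.pow_le_pow_left h2 2)
    exact lt_of_mul_lt_mul_left h4 (Nat.zero_le _)
  obtain ⟨w, hwV, hw⟩ := exists_class G v V S c h1
  have hwT := ((hVmem w).1 hwV).1
  have hvw := ((hVmem w).1 hwV).2
  let C : Finset (List X) := V.filter fun w' => Rl G v w w'
  have hCmem : ∀ w' ∈ C, Rl G v w w' := fun w' hw' => (Finset.mem_filter.1 hw').2
  have hCmem' : ∀ w', Rl G v w w' → w' ∈ C := by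
    intro w' hw'
    refine Finset.mem_filter.2 ⟨(hVmem w').2 ?_, hw'⟩
    obtain ⟨g, ⟨h1, h2⟩, h3, -⟩ := hw'
    rw [← h3]
    refine ⟨T_smul h1 hwT, ?_⟩
    have h4 := prefix_smul g hvw
    rwa [h2] at h4
  choose! g hg using hCmem
  have hginj : Set.InjOn g (C : Set (List X)) := by
    intro a ha b hb hab
    rw [← (hg a ha).2.1, ← (hg b hb).2.1, hab]
  have hcard : (C.image g).card = C.card := Finset.card_image_of_injOn hginj
  refine ⟨C.image g, ?_, ?_, ?_, ?_⟩
  · exact ⟨g w, Finset.mem_image_of_mem g (hCmem' w (Rl_refl G v w))⟩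
  · intro a ha
    obtain ⟨w', hw', rfl⟩ := Finset.mem_image.1 ha
    exact (hg w' hw').1
  · intro a ha b hb hab
    obtain ⟨w', hw', rfl⟩ := Finset.mem_image.1 ha
    obtain ⟨w'', hw'', rfl⟩ := Finset.mem_image.1 hb
    have h5 := hab.2 n w hwT hvw
    rw [mul_smul, inv_smul_eq_iff, (hg w' hw').2.1, (hg w'' hw'').2.1] at h5
    rw [h5]
  · rw [hcard]
    refine lt_of_le_of_lt (Nat.mul_le_mul_left c (Nat.pow_le_pow_left ?_ 2)) hw
    refine Finset.sum_le_sum fun s hs => ?_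
    refine Finset.card_le_card_of_injOn (fun a => a • w) ?_ ?_
    · intro a ha
      have ha1 := Finset.mem_filter.1 (Finset.mem_coe.1 ha)
      obtain ⟨w', hw', rfl⟩ := Finset.mem_image.1 ha1.1
      refine Finset.mem_coe.2 (Finset.mem_filter.2 ⟨?_, ?_⟩)
      · change g w' • w ∈ C
        rw [(hg w' hw').2.1]
        exact hw'
      · change sec s (g w' • w) ≠ 1
        intro h6
        rw [(hg w' hw').2.1] at h6
        have h7 : Rl G v w (s • w') := by
          refine Rl_trans (w' := w') ⟨g w', hg w' hw'⟩ ?_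
          exact ⟨s, hS s hs, rfl, h6⟩
        have h8 := hCmem' _ h7
        refine ha1.2 (g (s • w')) (Finset.mem_image_of_mem g h8) ?_
        have h9 := hg _ h8
        rw [← hv n w hwT hvw]
        refine ⟨G.mul_mem (G.inv_mem h9.1.1) (G.mul_mem (hS s hs).1 (hg w' hw').1.1), ?_⟩
        intro m u _ hwu
        obtain ⟨t, rfl⟩ := hwu
        refine fix_append ?_ ?_ t
        · rw [mul_smul, mul_smul, (hg w' hw').2.1, inv_smul_eq_iff, h9.2.1]
        · rw [sec_mul, sec_mul, mul_smul, (hg w' hw').2.1, h6, (hg w' hw').2.2, one_mul, mul_one]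
          have h10 := sec_inv (g (s • w')) w
          rw [h9.2.1, h9.2.2, inv_one] at h10
          exact h10
    · intro a ha a' ha' haa
      have ha1 := (Finset.mem_filter.1 (Finset.mem_coe.1 ha)).1
      have ha2 := (Finset.mem_filter.1 (Finset.mem_coe.1 ha')).1
      obtain ⟨w', hw', rfl⟩ := Finset.mem_image.1 ha1
      obtain ⟨w'', hw'', rfl⟩ := Finset.mem_image.1 ha2
      change g w' • w = g w'' • w at haa
      rw [(hg w' hw').2.1, (hg w'' hw'').2.1] at haa
      rw [haa]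

end H85.TA
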