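import Pool.Agent.H85.TA.Asm
import Pool.Agent.H85.TA.Ap

/-!
# The main theorems
-/

set_option autoImplicit false

namespace H85.TA

/-- the conclusion of Q1: a normal subgroup of finite index with a finite subnormal series with cyclic
factors -/
def AlmostPolycyclic (Γ : Type*) [Group Γ] : Prop :=
  ∃ N : Subgroup Γ, N.Normal ∧ N.FiniteIndex ∧
    ∃ n : ℕ, ∃ f : ℕ → Subgroup Γ, f 0 = N ∧ f n = ⊥ ∧
      ∀ i < n, f (i + 1) ≤ f i ∧
        (∀ x ∈ f i, ∀ y ∈ f (i + 1), x * y * x⁻¹ ∈ f (i + 1)) ∧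
        ∃ g ∈ f i, ∀ x ∈ f i, ∃ k : ℤ, g ^ k * x⁻¹ ∈ f (i + 1)

/-- virtually abelian groups -/
def VirtuallyAbelian (Γ : Type*) [Group Γ] : Prop :=
  ∃ A : Subgroup Γ, A.FiniteIndex ∧ ∀ a ∈ A, ∀ b ∈ A, a * b = b * a

theorem virtuallyAbelian_of_VA {Γ : Type*} [Group Γ] {G : Subgroup Γ} (h : VA G ⊥) :
    VirtuallyAbelian G := by
  obtain ⟨A, hA, hi, hc⟩ := h
  refine ⟨A.subgroupOf G, ⟨hi⟩, fun a ha b hb => ?_⟩
  have h1 := hc a (Subgroup.mem_subgroupOf.1 ha) b (Subgroup.mem_subgroupOf.1 hb)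
  rw [Subgroup.mem_bot, mul_inv_eq_one, mul_inv_eq_iff_eq_mul] at h1
  exact Subtype.ext h1

theorem almostPolycyclic_of_virtuallyAbelian {Γ : Type*} [Group Γ] (hmax : ∀ H : Subgroup Γ, H.FG)
    (h : VirtuallyAbelian Γ) : AlmostPolycyclic Γ := by
  obtain ⟨A, hA, hab⟩ := h
  exact almost_polycyclic Γ hmax A hA hab

theorem va_of_poly {X : Type*} [Finite X] (G : Subgroup (TreeAut X))
    (hfs : ∀ g ∈ G, FiniteState g) (hpoly : ∀ g ∈ G, PolyActivity g) (hmax : Max G) : VA G ⊥ := by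
  rcases isEmpty_or_nonempty X with hX | hX
  · refine VA.of_finite ?_
    have : Subsingleton (TreeAut X) := ⟨fun a b => ext_app fun w => by
      have h1 : ∀ u : List X, u = [] := fun u => by
        cases u with
        | nil => rfl
        | cons x _ => exact (hX.false x).elim
      rw [h1 (a • w), h1 (b • w)]⟩
    exact Set.toFinite _
  · obtain ⟨d, hd⟩ := exists_degree hmax hpoly
    exact va_all d G hmax hfs hd

/-- THEOREM P -/
theorem mainP (X : Type*) [Finite X] (G : Subgroup (TreeAut X))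
    (hfs : ∀ g ∈ G, FiniteState g) (hpoly : ∀ g ∈ G, PolyActivity g)
    (hmax : ∀ H : Subgroup G, H.FG) : VirtuallyAbelian G ∧ AlmostPolycyclic G := by
  have h := virtuallyAbelian_of_VA (va_of_poly G hfs hpoly (max_of_fg hmax))
  exact ⟨h, almostPolycyclic_of_virtuallyAbelian hmax h⟩

/-- THEOREM T -/
theorem mainT (X : Type*) (G : Subgroup (TreeAut X)) (η : ℕ → X)
    (hfin : ∀ n, (T G η n).Finite)
    (hfaith : ∀ g ∈ G, (∀ n, ∀ w ∈ T G η n, g • w = w) → g = 1)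
    (k : ℕ → ℕ) (hk : StrictMono k)
    (hact : ∀ g ∈ G, Filter.Tendsto
      (fun j => (Set.ncard {w | w ∈ T G η (k j) ∧ sec g w ≠ 1} : ℝ) ^ 2 /
        ((T G η (k j)).ncard : ℝ)) Filter.atTop (nhds 0))
    (hmax : ∀ H : Subgroup G, H.FG) : VirtuallyAbelian G ∧ AlmostPolycyclic G := by
  have hslow : Slow G η := by
    intro S hS c n₀
    have h1 : Filter.Tendsto (fun j => ∑ s ∈ S, (c * (S.card : ℝ)) *
        ((Set.ncard {w | w ∈ T G η (k j) ∧ sec s w ≠ 1} : ℝ) ^ 2 /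
        ((T G η (k j)).ncard : ℝ))) Filter.atTop (nhds (∑ s ∈ S, (c * (S.card : ℝ)) * 0)) :=
      tendsto_finsetSum _ fun s hs => (hact s (hS s hs)).const_mul _
    simp only [mul_zero, Finset.sum_const_zero] at h1
    have h2 := (h1.eventually (gt_mem_nhds one_pos)).and (Filter.eventually_ge_atTop n₀)
    obtain ⟨j, hj, hjn⟩ := h2.exists
    refine ⟨k j, hjn.trans (hk.id_le j), ?_⟩
    have hN : (0 : ℝ) < ((T G η (k j)).ncard : ℝ) := by
      exact_mod_cast card_pos (hfin (k j))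
    have h3 : ((∑ s ∈ S, Set.ncard {w | w ∈ T G η (k j) ∧ sec s w ≠ 1} : ℕ) : ℝ) ^ 2 ≤
        (S.card : ℝ) * ∑ s ∈ S, (Set.ncard {w | w ∈ T G η (k j) ∧ sec s w ≠ 1} : ℝ) ^ 2 := by
      push_cast
      exact sq_sum_le_card_mul_sum_sq
    have h4 : (c : ℝ) * ((∑ s ∈ S, Set.ncard {w | w ∈ T G η (k j) ∧ sec s w ≠ 1} : ℕ) : ℝ) ^ 2 <
        ((T G η (k j)).ncard : ℝ) := by
      have h5 : (∑ s ∈ S, (c * (S.card : ℝ)) *
          ((Set.ncard {w | w ∈ T G η (k j) ∧ sec s w ≠ 1} : ℝ) ^ 2 /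
          ((T G η (k j)).ncard : ℝ))) = c * ((S.card : ℝ) *
          ∑ s ∈ S, (Set.ncard {w | w ∈ T G η (k j) ∧ sec s w ≠ 1} : ℝ) ^ 2) /
          ((T G η (k j)).ncard : ℝ) := by
        rw [Finset.mul_sum, Finset.mul_sum, Finset.sum_div]
        refine Finset.sum_congr rfl fun s _ => ?_
        ring
      rw [h5, div_lt_one hN] at hj
      exact (mul_le_mul_of_nonneg_left h3 (Nat.cast_nonneg c)).trans_lt hj
    exact_mod_cast h4
  have h6 := core (max_of_fg hmax) hfin hslow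
  have h7 : OF G η ≤ ⊥ := fun g hg => Subgroup.mem_bot.2 (hfaith g hg.1 hg.2)
  have h := virtuallyAbelian_of_VA (h6.mono_right h7)
  exact ⟨h, almostPolycyclic_of_virtuallyAbelian hmax h⟩

end H85.TA
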