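import Pool.Agent.H85.TA.Act

/-!
# [H85 TA RED] the degree drops away from a cycle, 60-100 lines

`t` has `sec t y = t`, `y` not empty, `z` another word of the same length `m`, `r = sec t z`.
For `k ≥ 0` let `y^k` be the word `(List.replicate k y).flatten` of length `k m`; `sec t (y^k) = t`, so
`sec t (y^k ++ z ++ u) = sec r u`. The words `y^k ++ z ++ u` with different `(k, u)` are different (if
`k < k'` then `y^k ++ z` and `y^(k+1)` are prefixes of the same word of the same length, so `z = y`).
Hence for `n ≥ (k+1) m` the words of length `n` with nontrivial section contain the disjoint sets `{y^k ++ z ++ u}`, and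
`act t n ≥ ∑ over k with (k+1) m ≤ n of act r (n - (k+1) m)`.
Sum over `n < M (1 + m)`: every `k < M` contributes `∑ over (k+1) m ≤ n < M (1+m) of act r (n - (k+1) m) ≥
∑ over j < M of act r j` (as `M (1 + m) - (k+1) m ≥ M`). So `M * ∑_{j < M} act r j ≤ ∑_{n < M(1+m)} act t n ≤
C (M (1+m))^(d+1)`, and `∑_{j < M} act r j ≤ C (1+m)^(d+1) M^d`.
(It may be simpler to count directly: `W = ` words `w` with `|w| < M (1+m)` and `sec t w ≠ 1`, a finite set with
`∑_{n < M(1+m)} act t n` elements, and the injection `(k, u) ↦ y^k ++ z ++ u` of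
`{k < M} × {u : |u| < M, sec r u ≠ 1}` into `W`.)
-/

set_option autoImplicit false

namespace H85.TA

variable {X : Type*} [Finite X]

theorem lt_finite (g : TreeAut X) (L : ℕ) : {w : List X | w.length < L ∧ sec g w ≠ 1}.Finite := by
  refine ((Set.finite_Iio L).biUnion fun n _ => finite_words (X := X) n).subset ?_
  rintro w ⟨hw, -⟩
  rw [Set.mem_iUnion₂]
  exact ⟨w.length, hw, rfl⟩

theorem lt_card (g : TreeAut X) (L : ℕ) :
    Set.ncard {w : List X | w.length < L ∧ sec g w ≠ 1} = ∑ n ∈ Finset.range L, act g n := by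
  induction L with
  | zero =>
    have h1 : {w : List X | w.length < 0 ∧ sec g w ≠ 1} = ∅ := by
      ext w
      constructor
      · rintro ⟨h, -⟩
        exact absurd h (Nat.not_lt_zero _)
      · intro h
        exact absurd h (Set.notMem_empty _)
    rw [h1, Set.ncard_empty, Finset.range_zero, Finset.sum_empty]
  | succ L ih =>
    have h1 : {w : List X | w.length < L + 1 ∧ sec g w ≠ 1} =
        {w : List X | w.length < L ∧ sec g w ≠ 1} ∪ Wd g L := by
      ext w
      constructor
      · rintro ⟨h1, h2⟩
        rcases Nat.lt_succ_iff_lt_or_eq.1 h1 with h | h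
        · exact Or.inl ⟨h, h2⟩
        · exact Or.inr ⟨h, h2⟩
      · rintro (⟨h1, h2⟩ | ⟨h1, h2⟩)
        · exact ⟨Nat.lt_succ_of_lt h1, h2⟩
        · exact ⟨by omega, h2⟩
    rw [h1, Set.ncard_union_eq ?_ (lt_finite g L) (Wd_finite g L), ih, Finset.sum_range_succ, act_eq]
    rw [Set.disjoint_left]
    rintro w ⟨h1, -⟩ ⟨h2, -⟩
    omega

/-- the word `y^k z u` -/
def yk (y z u : List X) : ℕ → List X
  | 0 => z ++ u
  | k + 1 => y ++ yk y z u k

omit [Finite X] in
theorem yk_sec {t : TreeAut X} {y : List X} (ht : sec t y = t) (z u : List X) (k : ℕ) :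
    sec t (yk y z u k) = sec (sec t z) u := by
  induction k with
  | zero => rw [yk, sec_append]
  | succ k ih => rw [yk, sec_append, ht, ih]

omit [Finite X] in
theorem yk_len (y z u : List X) (k : ℕ) : (yk y z u k).length = k * y.length + z.length + u.length := by
  induction k with
  | zero => rw [yk, List.length_append]; ring
  | succ k ih => rw [yk, List.length_append, ih]; ring

omit [Finite X] in
theorem yk_inj {y z : List X} (hz : z.length = y.length) (hne : z ≠ y) (k : ℕ) :
    ∀ (k' : ℕ) (u u' : List X), yk y z u k = yk y z u' k' → k = k' ∧ u = u' := by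
  induction k with
  | zero =>
    intro k' u u' h
    cases k' with
    | zero => exact ⟨rfl, List.append_cancel_left h⟩
    | succ k' => exact absurd (List.append_inj h hz).1 hne
  | succ k ih =>
    intro k' u u' h
    cases k' with
    | zero => exact absurd (List.append_inj h hz.symm).1.symm hne
    | succ k' =>
      obtain ⟨h1, h2⟩ := ih k' u u' (List.append_cancel_left h)
      exact ⟨congrArg Nat.succ h1, h2⟩

theorem inP_red {d : ℕ} {t : TreeAut X} {y z : List X} (hy : y ≠ []) (hz : z.length = y.length)
    (hne : z ≠ y) (ht : sec t y = t) (h : InP (d + 1) t) : InP d (sec t z) := by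
  classical
  obtain ⟨C, hC⟩ := h
  refine ⟨C * (1 + y.length) ^ (d + 1), fun M => ?_⟩
  rcases Nat.eq_zero_or_pos M with rfl | hM
  · rw [Finset.range_zero, Finset.sum_empty]
    exact Nat.zero_le _
  have hpos : 0 < y.length := List.length_pos_iff.2 hy
  have h1 : M * ∑ n ∈ Finset.range M, act (sec t z) n ≤
      ∑ n ∈ Finset.range (M * (1 + y.length)), act t n := by
    rw [← lt_card, ← lt_card, Set.ncard_eq_toFinset_card _ (lt_finite (sec t z) M),
      Set.ncard_eq_toFinset_card _ (lt_finite t (M * (1 + y.length)))]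
    have h2 := Finset.card_product (Finset.range M) (lt_finite (sec t z) M).toFinset
    rw [Finset.card_range] at h2
    rw [← h2]
    refine Finset.card_le_card_of_injOn (fun p => yk y z p.2 p.1) ?_ ?_
    · rintro ⟨k, u⟩ hp
      rw [Finset.mem_coe, Finset.mem_product, Finset.mem_range, Set.Finite.mem_toFinset] at hp
      obtain ⟨hk, hu, hu'⟩ := hp
      rw [Finset.mem_coe, Set.Finite.mem_toFinset]
      refine ⟨?_, ?_⟩
      · change (yk y z u k).length < _
        rw [yk_len, hz]
        change k < M at hk
        change u.length < M at hu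
        have h3 : (k + 1) * y.length ≤ M * y.length := Nat.mul_le_mul_right _ hk
        nlinarith
      · change sec t (yk y z u k) ≠ 1
        rw [yk_sec ht]
        exact hu'
    · rintro ⟨k, u⟩ - ⟨k', u'⟩ - hp
      obtain ⟨h3, h4⟩ := yk_inj hz hne k k' u u' hp
      rw [h3, h4]
  have h2 := h1.trans (hC _)
  have h3 : C * (M * (1 + y.length)) ^ (d + 1) = M * (C * (1 + y.length) ^ (d + 1) * M ^ d) := by
    rw [mul_pow]
    ring
  rw [h3] at h2
  exact Nat.le_of_mul_le_mul_left h2 hM

end H85.TA
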