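import Pool.Agent.H85.TA.Alv

/-!
# [H85 TA SLW] finite-state groups of polynomial activity are slow, 40-70 lines

Let the level sizes be not eventually constant. Given `S`, `c`, `n₀`: for `s ∈ S` let `D s` be as in `alive_bound`, `D` the
maximum (or sum) of these, so that with `q = Nat.card X ≥ 1` and `b = br G η n`
`∑ s ∈ S, … ≤ |S| (q (1 + b))^D`. By `two_pow_br` it suffices to find `n ≥ n₀` with
`c |S|^2 (q (1 + b))^(2 D) < 2^b`; this holds for all large `b` (a polynomial against an exponential: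
`tendsto_pow_const_div_const_pow_of_one_lt`), and `b = br G η n` can be made large with `n ≥ n₀` (`br_unbounded`).
`T_finite` gives the finiteness. If `X` is empty there is no `η`: `X` is nonempty as `η 0 : X`.
-/

set_option autoImplicit false

namespace H85.TA

variable {X : Type*} [Finite X]

/-- a polynomial against an exponential -/
theorem slw_poly (A k : ℕ) : ∃ b₀ : ℕ, ∀ b ≥ b₀, A * (1 + b) ^ k < 2 ^ b := by
  have h := tendsto_pow_const_div_const_pow_of_one_lt k (r := (2 : ℝ)) one_lt_two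
  have h1 := h.eventually (gt_mem_nhds (show (0 : ℝ) < 1 / (2 * ((A : ℝ) + 1)) by positivity))
  obtain ⟨N, hN⟩ := Filter.eventually_atTop.1 h1
  refine ⟨N, fun b hb => ?_⟩
  have h2 := hN (b + 1) (by omega)
  rw [div_lt_div_iff₀ (by positivity) (by positivity), one_mul, pow_succ (2 : ℝ)] at h2
  have h3 : (0 : ℝ) ≤ (1 + (b : ℝ)) ^ k := by positivity
  have h4 : ((A * (1 + b) ^ k : ℕ) : ℝ) < ((2 ^ b : ℕ) : ℝ) := by
    push_cast at h2 ⊢
    have h5 : ((b : ℝ) + 1) ^ k = (1 + (b : ℝ)) ^ k := by rw [add_comm]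
    rw [h5] at h2
    have h6 : (1 + (b : ℝ)) ^ k * (2 * ((A : ℝ) + 1)) =
        2 * ((A : ℝ) * (1 + (b : ℝ)) ^ k) + 2 * (1 + (b : ℝ)) ^ k := by ring
    rw [h6] at h2
    linarith
  exact_mod_cast h4

theorem slow_of_poly {G : Subgroup (TreeAut X)} (hfs : ∀ g ∈ G, FiniteState g) {d : ℕ}
    (hp : ∀ g ∈ G, InP d g) (η : ℕ → X)
    (h : ¬ ∃ n₀, ∀ n ≥ n₀, (T G η n).ncard = (T G η n₀).ncard) : Slow G η := by
  intro S hS c n₀
  have hne : Nonempty X := ⟨η 0⟩
  have hq : 1 ≤ Nat.card X := Nat.card_pos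
  have h1 : ∀ s : TreeAut X, ∃ D : ℕ, s ∈ S → ∀ n,
      Set.ncard {w | w ∈ T G η n ∧ sec s w ≠ 1} ≤ (Nat.card X * (1 + br G η n)) ^ D := by
    intro s
    by_cases hs : s ∈ S
    · obtain ⟨D, hD⟩ := alive_bound G η (hfs s (hS s hs)) (hp s (hS s hs))
      exact ⟨D, fun _ => hD⟩
    · exact ⟨0, fun h2 => absurd h2 hs⟩
  choose D hD using h1
  let E : ℕ := ∑ s ∈ S, D s
  obtain ⟨b₀, hb₀⟩ := slw_poly (c * (S.card * Nat.card X ^ E) ^ 2) (2 * E)
  obtain ⟨n, hn, hb⟩ := br_unbounded h b₀ n₀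
  refine ⟨n, hn, ?_⟩
  have h2 : (∑ s ∈ S, Set.ncard {w | w ∈ T G η n ∧ sec s w ≠ 1}) ≤
      S.card * (Nat.card X * (1 + br G η n)) ^ E := by
    refine Finset.sum_le_card_nsmul S _ _ fun s hs => ?_
    refine (hD s hs n).trans ?_
    refine Nat.pow_le_pow_right (Nat.mul_pos (by omega) (by omega)) ?_
    exact Finset.single_le_sum (f := D) (fun _ _ => Nat.zero_le _) hs
  have h3 : c * (∑ s ∈ S, Set.ncard {w | w ∈ T G η n ∧ sec s w ≠ 1}) ^ 2 ≤
      c * (S.card * Nat.card X ^ E) ^ 2 * (1 + br G η n) ^ (2 * E) := by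
    calc c * (∑ s ∈ S, Set.ncard {w | w ∈ T G η n ∧ sec s w ≠ 1}) ^ 2
        ≤ c * (S.card * (Nat.card X * (1 + br G η n)) ^ E) ^ 2 :=
          Nat.mul_le_mul_left _ (Nat.pow_le_pow_left h2 2)
      _ = c * (S.card * Nat.card X ^ E) ^ 2 * (1 + br G η n) ^ (2 * E) := by
          rw [mul_pow (Nat.card X), pow_mul' (1 + br G η n) 2 E]
          ring
  exact (h3.trans_lt (hb₀ _ hb)).trans_le (two_pow_br (T_finite G η) n)

end H85.TA
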