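import Pool.Agent.H85.TA.Sec

/-!
# [H85 TA STA] the stabiliser of an infinite word is periodic along it, 40-70 lines

`G ⊓ RS η` is finitely generated (`hmax`), by `h_1, …, h_r` say (a finite set `S`). Each `h_i` has finitely many
sections, so the map `n ↦ (s ↦ sec s (pre η n))` from `ℕ` to the functions on `S` takes finitely many values
(`Set.Finite.pi` or `Finite` of a pi type of subtypes); so it is not injective: `n < n'` with the same value. Let
`m = n' - n` and `y` the word with `pre η (n+m) = pre η n ++ y` (`pre_add`).
For `s ∈ S`: `sec (sec s v) y = sec s (v ++ y) = sec s v` with `v = pre η n` (`sec_append`).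
The set of the `g ∈ RS η` with `sec (sec g v) y = sec g v` is a subgroup (as `sec g v • y = y` for `g ∈ RS η`:
`g • (v ++ y) = v ++ y`, `g • v = v`, `app_append`; use `sec_mul`, `sec_inv'`); closure induction.
-/

set_option autoImplicit false

namespace H85.TA

variable {X : Type*}

/-- the section at `v` of an element of the stabiliser of `η` fixes the continuation -/
theorem sec_fix {η : ℕ → X} {g : TreeAut X} (hg : g ∈ RS η) {n m : ℕ} {y : List X}
    (hy : pre η (n + m) = pre η n ++ y) : sec g (pre η n) • y = y := by
  have h1 := hg (n + m)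
  rw [hy, app_append, hg n] at h1
  exact List.append_cancel_left h1

theorem stA_struct {G : Subgroup (TreeAut X)} (hmax : Max G) (hfs : ∀ g ∈ G, FiniteState g)
    (η : ℕ → X) : ∃ (n m : ℕ) (y : List X), 0 < m ∧ y.length = m ∧
      pre η (n + m) = pre η n ++ y ∧
      ∀ g ∈ G ⊓ RS η, sec (sec g (pre η n)) y = sec g (pre η n) := by
  obtain ⟨S, hS⟩ := hmax (G ⊓ RS η) inf_le_left
  have hSmem : ∀ s ∈ S, s ∈ G ⊓ RS η := fun s hs => by
    rw [← hS]
    exact Subgroup.subset_closure hs
  -- the vector of the sections
  let τ : ℕ → ((s : S) → Set.range (sec s.1)) := fun n s => ⟨sec s.1 (pre η n), _, rfl⟩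
  have hfin : ∀ s : S, Finite (Set.range (sec s.1)) := fun s =>
    (hfs s.1 (hSmem s.1 s.2).1).to_subtype
  have hnot : ¬ Function.Injective τ := not_injective_infinite_finite τ
  rw [Function.Injective] at hnot
  push Not at hnot
  obtain ⟨a, b, hab, hne⟩ := hnot
  -- we may assume `a < b`
  have key : ∀ a b : ℕ, τ a = τ b → a < b → ∃ (n m : ℕ) (y : List X), 0 < m ∧ y.length = m ∧
      pre η (n + m) = pre η n ++ y ∧
      ∀ g ∈ G ⊓ RS η, sec (sec g (pre η n)) y = sec g (pre η n) := by
    intro a b hab hlt
    obtain ⟨m, rfl⟩ := Nat.exists_eq_add_of_lt hlt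
    obtain ⟨y, hy, hpre⟩ := pre_add η a (m + 1)
    refine ⟨a, m + 1, y, Nat.succ_pos m, hy, hpre, ?_⟩
    intro g hg
    rw [← hS] at hg
    have hpre' : pre η (a + m + 1) = pre η a ++ y := by rw [← hpre, Nat.add_assoc]
    have hRS : ∀ x ∈ Subgroup.closure (S : Set (TreeAut X)), x ∈ RS η := fun x hx => by
      rw [hS] at hx
      exact hx.2
    have hfx : ∀ x ∈ Subgroup.closure (S : Set (TreeAut X)), sec x (pre η a) • y = y :=
      fun x hx => sec_fix (hRS x hx) hpre
    induction hg using Subgroup.closure_induction with
    | mem x hx =>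
      have h1 := congrFun hab ⟨x, hx⟩
      have h2 : sec x (pre η a) = sec x (pre η (a + m + 1)) := congrArg Subtype.val h1
      rw [← sec_append, ← hpre', h2]
    | one => rw [sec_one, sec_one]
    | mul x z hx hz ihx ihz =>
      rw [sec_mul, hRS z hz a, sec_mul, hfx z hz, ihx, ihz]
    | inv x hx ihx =>
      have h1 : x⁻¹ • pre η a = pre η a := by rw [inv_smul_eq_iff, hRS x hx a]
      rw [sec_inv', h1]
      have h2 : (sec x (pre η a))⁻¹ • y = y := by rw [inv_smul_eq_iff, hfx x hx]
      rw [sec_inv', h2, ihx]
  rcases lt_or_gt_of_ne hne with h | h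
  · exact key a b hab h
  · exact key b a hab.symm h

/-- if `t` fixes the words of length `|y|`, `sec t y = t` and the other sections are trivial, then `t = 1` -/
theorem eq_one_of_cycle [Nonempty X] {t : TreeAut X} {y : List X} (hy : y ≠ []) (ht : sec t y = t)
    (hfix : ∀ z : List X, z.length = y.length → t • z = z)
    (htriv : ∀ z : List X, z.length = y.length → z ≠ y → sec t z = 1) : t = 1 := by
  have hpos : 0 < y.length := List.length_pos_iff.2 hy
  obtain ⟨x⟩ := ‹Nonempty X›
  have key : ∀ n : ℕ, ∀ w : List X, w.length = n → t • w = w := by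
    intro n
    induction n using Nat.strong_induction_on with
    | _ n ih =>
      intro w hw
      by_cases hle : w.length ≤ y.length
      · have h1 : (w ++ List.replicate (y.length - w.length) x).length = y.length := by
          rw [List.length_append, List.length_replicate]
          omega
        exact fix_of_append (hfix _ h1)
      · have h1 : (w.take y.length).length = y.length := by
          rw [List.length_take]
          omega
        have h2 : w.take y.length ++ w.drop y.length = w := List.take_append_drop _ _
        rw [← h2, app_append, hfix _ h1]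
        congr 1
        by_cases hwy : w.take y.length = y
        · rw [hwy, ht]
          refine ih (w.drop y.length).length ?_ _ rfl
          rw [List.length_drop]
          omega
        · rw [htriv _ h1 hwy, one_smul]
  exact eq_one_of_app fun w => key w.length w rfl

end H85.TA
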