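import Pool.Agent.H85.TA.Core
import Pool.Agent.H85.TA.Slw

/-!
# [H85 TA STB] finite-state groups of polynomial activity on an orbit closure, 20-40 lines

If the level sizes of the orbit tree are eventually constant, from `n₀` on, then `G ⊓ LS X n₀ ≤ OF G η`
(`fix_of_bounded`, the words of `T G η n₀` have length `n₀`), so `OF G η` has finite relative index in `G`
(`ls_relIndex`) and `VA.of_index`. Otherwise `slow_of_poly` and `core`.
-/

set_option autoImplicit false

namespace H85.TA

variable {X : Type*} [Finite X]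

theorem stepB {G : Subgroup (TreeAut X)} (hmax : Max G) (hfs : ∀ g ∈ G, FiniteState g) {d : ℕ}
    (hp : ∀ g ∈ G, InP d g) (η : ℕ → X) : VA G (OF G η) := by
  by_cases h : ∃ n₀, ∀ n ≥ n₀, (T G η n).ncard = (T G η n₀).ncard
  · obtain ⟨n₀, hn⟩ := h
    have h1 : G ⊓ LS X n₀ ≤ OF G η := fun g hg =>
      fix_of_bounded (T_finite G η) hn hg.1 fun w hw => hg.2 w (T_len hw)
    refine VA.of_index (OF_le G η) fun h0 => ?_
    have h2 : (G ⊓ LS X n₀).relIndex G ≠ 0 := by
      refine Subgroup.relIndex_inf_ne_zero ?_ (ls_relIndex n₀ G)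
      rw [Subgroup.relIndex_self]
      exact one_ne_zero
    exact h2 (Subgroup.relIndex_eq_zero_of_le_left h1 h0)
  · exact core hmax (T_finite G η) (slow_of_poly hfs hp η h)

end H85.TA
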