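import Pool.Agent.H85.TA.Sta
import Pool.Agent.H85.TA.Red
import Pool.Agent.H85.TA.Fin0

/-!
# [H85 TA STV] the action of the stabiliser of a ray near the ray, 60-100 lines

Take `n, m, y` from `stA_struct`, `v = pre η n`, `K₁ = (G ⊓ RS η) ⊓ LS X (n + m)`, of finite index in
`G ⊓ RS η` (`ls_relIndex`). For `z` with `|z| = m`, `z ≠ y`: all elements of `K₁` fix `v ++ z`. The group
`secSub K₁ (v ++ z)` has max (`max_secSub`, `Max.mono`), its elements are the sections at `z` of the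
`t = sec g v`, `g ∈ K₁` (`sec_append`), finite-state (`finiteState_sec`) and in `InP d` (`inP_sec`, `inP_red`
with `sec t y = t`).
* `stA_va`: by `ih` it is virtually abelian, `va_of_sec`: `VA K₁ (Fx (v ++ z))` for the finitely many `z ≠ y`,
  `VA.iInf` over the finite type `{z : List X // z.length = m ∧ z ≠ y}`: `VA K₁ (⨅ z, Fx (v ++ z))`. Let `A ≤ K₁` be as in the definition. A
  commutator `c` of `A` is in `K₁` and in all `Fx (v ++ z)`; `t = sec c v` satisfies the hypotheses of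
  `eq_one_of_cycle` (for `z = y` it fixes `y` by `sec_fix`, for `z ≠ y` because `c` fixes `v ++ z`), so `t = 1`
  and `c ∈ Fx v`. So `VA K₁ (Fx v)`, then `VA.of_relIndex`.
* `stA_fin`: the same with `fin_of_sec`: `Fx (v ++ z)` has finite relative index in `K₁`, so the intersection of these
  finitely many subgroups with `K₁` (`Subgroup.relIndex_iInf_ne_zero`) too, and it is contained in `Fx v`.
-/

set_option autoImplicit false

namespace H85.TA

variable {X : Type*} [Finite X] [Nonempty X]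

/-- the common part: the subgroups `K₁` and the sections at `v ++ z` -/
theorem stA_common (d : ℕ) {G : Subgroup (TreeAut X)} (hmax : Max G)
    (hfs : ∀ g ∈ G, FiniteState g) (hG : ∀ g ∈ G, InP (d + 1) g) (η : ℕ → X) :
    ∃ (n m : ℕ) (y : List X), y.length = m ∧
      (∀ z : List X, z.length = m → ∀ g ∈ (G ⊓ RS η) ⊓ LS X (n + m),
        g • (pre η n ++ z) = pre η n ++ z) ∧
      (∀ z : List X, z.length = m → z ≠ y →
        Max (secSub ((G ⊓ RS η) ⊓ LS X (n + m)) (pre η n ++ z)) ∧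
        (∀ g ∈ secSub ((G ⊓ RS η) ⊓ LS X (n + m)) (pre η n ++ z), FiniteState g) ∧
        (∀ g ∈ secSub ((G ⊓ RS η) ⊓ LS X (n + m)) (pre η n ++ z), InP d g)) ∧
      (∀ c ∈ (G ⊓ RS η) ⊓ LS X (n + m), (∀ z : List X, z.length = m → z ≠ y →
        c ∈ Fx (pre η n ++ z)) → c ∈ Fx (pre η n)) := by
  obtain ⟨n, m, y, hm, hy, hpre, hsec⟩ := stA_struct hmax hfs η
  have hyne : y ≠ [] := by
    rintro rfl
    rw [List.length_nil] at hy
    omega
  have hfix : ∀ z : List X, z.length = m → ∀ g ∈ (G ⊓ RS η) ⊓ LS X (n + m),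
      g • (pre η n ++ z) = pre η n ++ z := by
    intro z hz g hg
    refine hg.2 _ ?_
    rw [List.length_append, length_pre, hz]
  refine ⟨n, m, y, hy, hfix, ?_, ?_⟩
  · intro z hz hzy
    refine ⟨max_secSub (hmax.mono (inf_le_left.trans inf_le_left)) _, ?_, ?_⟩
    · rintro _ ⟨g, hg, -, rfl⟩
      exact finiteState_sec (hfs g hg.1.1) _
    · rintro _ ⟨g, hg, -, rfl⟩
      rw [sec_append]
      refine inP_red hyne (hz.trans hy.symm) hzy (hsec g hg.1) ?_
      exact inP_sec (hG g hg.1.1) _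
  · intro c hc hcz
    have h1 : c • pre η n = pre η n := hc.1.2 n
    refine ⟨h1, ?_⟩
    refine eq_one_of_cycle hyne (hsec c hc.1) ?_ ?_
    · intro z hz
      have h2 := hfix z (hz.trans hy) c hc
      rw [app_append, h1] at h2
      exact List.append_cancel_left h2
    · intro z hz hzy
      rw [← sec_append]
      exact (hcz z (hz.trans hy) hzy).2

theorem stA_va (d : ℕ)
    (ih : ∀ K : Subgroup (TreeAut X), Max K → (∀ g ∈ K, FiniteState g) → (∀ g ∈ K, InP d g) →
      VA K ⊥)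
    {G : Subgroup (TreeAut X)} (hmax : Max G) (hfs : ∀ g ∈ G, FiniteState g)
    (hG : ∀ g ∈ G, InP (d + 1) g) (η : ℕ → X) : ∃ n, VA (G ⊓ RS η) (Fx (pre η n)) := by
  obtain ⟨n, m, y, hy, hfix, hz, hc⟩ := stA_common d hmax hfs hG η
  refine ⟨n, ?_⟩
  have hfin : Finite {z : List X // z.length = m ∧ z ≠ y} :=
    ((finite_words m).subset fun z hz => hz.1).to_subtype
  have h1 : ∀ z : {z : List X // z.length = m ∧ z ≠ y},
      VA ((G ⊓ RS η) ⊓ LS X (n + m)) (Fx (pre η n ++ z.1)) := by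
    intro z
    obtain ⟨h2, h3, h4⟩ := hz z.1 z.2.1 z.2.2
    exact va_of_sec (hfix z.1 z.2.1) (ih _ h2 h3 h4)
  obtain ⟨A, hA, hi, hcomm⟩ := VA.iInf h1
  refine VA.of_relIndex (K' := (G ⊓ RS η) ⊓ LS X (n + m)) ⟨A, hA, hi, fun a ha b hb => ?_⟩
    inf_le_left ?_
  · have h5 := hcomm a ha b hb
    rw [Subgroup.mem_iInf] at h5
    refine hc _ ?_ fun z hz hzy => h5 ⟨z, hz, hzy⟩
    exact Subgroup.mul_mem _ (Subgroup.mul_mem _ (Subgroup.mul_mem _ (hA ha) (hA hb))
      (Subgroup.inv_mem _ (hA ha))) (Subgroup.inv_mem _ (hA hb))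
  · rw [Subgroup.inf_relIndex_left]
    exact ls_relIndex _ _

/-- finitely many orbits on rays: the groups of sections at `v ++ z` have the same property -/
theorem rs_sec {K : Subgroup (TreeAut X)} (h : ∀ η : ℕ → X, (RS η).relIndex K ≠ 0) (w : List X)
    (hK : ∀ g ∈ K, g • w = w) (η : ℕ → X) : (RS η).relIndex (secSub K w) ≠ 0 := by
  obtain ⟨ζ, hζ⟩ := exists_append_ray w η
  -- the homomorphism of the sections
  let f : K →* TreeAut X :=
    { toFun := fun g => sec g.1 w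
      map_one' := sec_one w
      map_mul' := fun a b => by
        change sec (a.1 * b.1) w = _
        rw [sec_mul, hK b.1 b.2] }
  have hrange : secSub K w = (⊤ : Subgroup K).map f := by
    ext t
    constructor
    · rintro ⟨g, hg, -, rfl⟩
      exact ⟨⟨g, hg⟩, trivial, rfl⟩
    · rintro ⟨⟨g, hg⟩, -, rfl⟩
      exact ⟨g, hg, hK g hg, rfl⟩
  rw [hrange, ← Subgroup.relIndex_comap, Subgroup.relIndex_top_right]
  have h1 : (RS ζ).subgroupOf K ≤ (RS η).comap f := by
    intro g hg n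
    have h2 : g.1 • pre ζ (w.length + n) = pre ζ (w.length + n) := hg _
    rw [hζ, app_append, hK g.1 g.2] at h2
    exact List.append_cancel_left h2
  intro h0
  have h3 := Subgroup.index_dvd_of_le h1
  rw [h0] at h3
  exact h ζ (Nat.eq_zero_of_zero_dvd h3)

theorem stA_fin (d : ℕ)
    (ih : ∀ K : Subgroup (TreeAut X), Max K → (∀ g ∈ K, FiniteState g) → (∀ g ∈ K, InP d g) →
      (∀ η : ℕ → X, (RS η).relIndex K ≠ 0) → (K : Set (TreeAut X)).Finite)
    {G : Subgroup (TreeAut X)} (hmax : Max G) (hfs : ∀ g ∈ G, FiniteState g)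
    (hG : ∀ g ∈ G, InP (d + 1) g) (hR : ∀ η : ℕ → X, (RS η).relIndex G ≠ 0) (η : ℕ → X) :
    ∃ n, (Fx (pre η n)).relIndex (G ⊓ RS η) ≠ 0 := by
  obtain ⟨n, m, y, hy, hfix, hz, hc⟩ := stA_common d hmax hfs hG η
  refine ⟨n, ?_⟩
  have hfin : Finite {z : List X // z.length = m ∧ z ≠ y} :=
    ((finite_words m).subset fun z hz => hz.1).to_subtype
  have hR1 : ∀ ζ : ℕ → X, (RS ζ).relIndex ((G ⊓ RS η) ⊓ LS X (n + m)) ≠ 0 := fun ζ h0 =>
    hR ζ (Subgroup.relIndex_eq_zero_of_le_right (inf_le_left.trans inf_le_left) h0)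
  have h1 : ∀ z : {z : List X // z.length = m ∧ z ≠ y},
      (Fx (pre η n ++ z.1)).relIndex ((G ⊓ RS η) ⊓ LS X (n + m)) ≠ 0 := by
    intro z
    obtain ⟨h2, h3, h4⟩ := hz z.1 z.2.1 z.2.2
    exact fin_of_sec (hfix z.1 z.2.1) (ih _ h2 h3 h4 fun ζ => rs_sec hR1 _ (hfix z.1 z.2.1) ζ)
  have h2 := Subgroup.relIndex_iInf_ne_zero h1
  have h3 : (Fx (pre η n)).relIndex ((G ⊓ RS η) ⊓ LS X (n + m)) ≠ 0 := by
    intro h0
    have h4 : (⨅ z : {z : List X // z.length = m ∧ z ≠ y}, Fx (pre η n ++ z.1)) ⊓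
        ((G ⊓ RS η) ⊓ LS X (n + m)) ≤ Fx (pre η n) := by
      intro c hc1
      have h5 := (Subgroup.mem_inf.1 hc1).1
      rw [Subgroup.mem_iInf] at h5
      exact hc c (Subgroup.mem_inf.1 hc1).2 fun z hz hzy => h5 ⟨z, hz, hzy⟩
    have h6 := Subgroup.relIndex_eq_zero_of_le_left h4 h0
    rw [Subgroup.inf_relIndex_right] at h6
    exact h2 h6
  refine Subgroup.relIndex_ne_zero_trans (K := (G ⊓ RS η) ⊓ LS X (n + m)) h3 ?_
  rw [Subgroup.inf_relIndex_left]
  exact ls_relIndex _ _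

end H85.TA
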